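import Pool.Agent.RSW.Def

/-!
# Averaging over the distributions to the slots (helper13)

`rep r x = rep r y ↔ r.SameCycle x y`.  `χ` ranges over all functions `S → Fin Q` with the uniform probability.
For `a, b ∈ S` with different representatives `P(χ (rep a) = χ (rep b)) = 1/Q`; for three different
representatives `P(χ a' = χ b' = χ c') = 1/Q²` (count functions; or fix `χ` outside one representative).
Let `e = {x, y} ⊆ V`.
* Not in one cycle: `P(e ∈ slotPairs) ≤ P(same slot) = 1/Q`.  And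
  `P(same slot, slot has more than G elements) ≤ (1/G) ∑_{z ∈ V} P(x, y, z in the same slot)
   ≤ (1/G) (2 f / Q + |V| / Q²) ≤ (1/Q) (1/8 + 1/8)`,
  (`z` in the face of `x` or `y`: at most `2 f` elements, probability `1/Q`; the others `1/Q²`;
  `16 f ≤ G`, `|V| ≤ 2 n`, `16 n ≤ Q G`).  So `P(e ∈ slotPairs) ≥ 3/(4Q)`.
* In one cycle: `P(e ∉ slotPairs) = P(slot of x has more than G elements) ≤ (1/G)(f + |V|/Q) ≤ 1/4`, so
  `P(e ∈ slotPairs) ≥ 3/4 ≥ 3/(4Q)`.
Hence the mean over `χ` of the left side of the theorem is at most the right side: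
`exp (θ K e) (1 + P(Same r e ∨ e ∈ slotPairs)) ≤ (1 + 1/Q) exp (θ K e) (1 + [Same r e])`, and
`E |U \ slotPairs| = ∑_{e ∈ U} P(e ∉ slotPairs) ≤ (1 - 3/(4Q)) |U|`.  Some `χ` is not above the mean.
-/

namespace Pool.Agent.RSW

open Equiv Finset
open scoped BigOperators

variable {S : Type*} [Fintype S] [DecidableEq S]

theorem rep_eq_iff (r : Perm S) (x y : S) : rep r x = rep r y ↔ r.SameCycle x y := by
  unfold rep
  constructor
  · intro h
    have h2 := congrArg (Quotient.mk (Perm.SameCycle.setoid r)) h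
    rw [Quotient.out_eq, Quotient.out_eq] at h2
    exact Quotient.exact h2
  · intro h
    have h2 : Quotient.mk (Perm.SameCycle.setoid r) x = Quotient.mk (Perm.SameCycle.setoid r) y :=
      Quotient.sound h
    rw [h2]

section ex

variable {Q : ℕ}

/-- mean over all functions to the slots -/
noncomputable def avEx (f : (S → Fin Q) → ℝ) : ℝ :=
  (∑ χ, f χ) / (Fintype.card (S → Fin Q) : ℝ)

theorem av_card_pos (hQ : 0 < Q) : (0 : ℝ) < (Fintype.card (S → Fin Q) : ℝ) := by
  have : Nonempty (Fin Q) := ⟨⟨0, hQ⟩⟩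
  exact_mod_cast Fintype.card_pos

theorem av_mono {f g : (S → Fin Q) → ℝ} (h : ∀ χ, f χ ≤ g χ) :
    avEx f ≤ avEx g := by
  unfold avEx
  exact div_le_div_of_nonneg_right (Finset.sum_le_sum fun χ _ => h χ) (Nat.cast_nonneg _)

theorem av_add (f g : (S → Fin Q) → ℝ) : avEx (fun χ => f χ + g χ) = avEx f + avEx g := by
  unfold avEx
  rw [Finset.sum_add_distrib, add_div]

theorem av_mul (c : ℝ) (f : (S → Fin Q) → ℝ) : avEx (fun χ => c * f χ) = c * avEx f := by
  unfold avEx
  rw [← Finset.mul_sum, mul_div_assoc]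

theorem av_sum {ι : Type*} (T : Finset ι) (f : ι → (S → Fin Q) → ℝ) :
    avEx (fun χ => ∑ i ∈ T, f i χ) = ∑ i ∈ T, avEx (f i) := by
  unfold avEx
  rw [Finset.sum_comm, Finset.sum_div]

theorem av_const (hQ : 0 < Q) (c : ℝ) : avEx (fun _ : S → Fin Q => c) = c := by
  unfold avEx
  have h := av_card_pos (S := S) hQ
  rw [Finset.sum_const, Finset.card_univ, nsmul_eq_mul]
  field_simp

theorem av_exists (hQ : 0 < Q) (f : (S → Fin Q) → ℝ) : ∃ χ, f χ ≤ avEx f := by
  have : Nonempty (Fin Q) := ⟨⟨0, hQ⟩⟩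
  have h := av_card_pos (S := S) hQ
  have h2 : ∑ χ : S → Fin Q, f χ ≤ ∑ _χ : S → Fin Q, avEx f := by
    rw [Finset.sum_const, Finset.card_univ, nsmul_eq_mul]
    unfold avEx
    field_simp
    exact le_refl _
  obtain ⟨χ, _, hχ⟩ := Finset.exists_le_of_sum_le Finset.univ_nonempty h2
  exact ⟨χ, hχ⟩

theorem av_fix (hQ : 0 < Q) (T : Finset S) (q : Fin Q) :
    avEx (fun χ : S → Fin Q => if ∀ i ∈ T, χ i = q then 1 else 0) = 1 / (Q : ℝ) ^ T.card := by
  unfold avEx
  have hN : (Fintype.card (S → Fin Q) : ℝ) = (Q : ℝ) ^ Fintype.card S := by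
    rw [Fintype.card_fun, Fintype.card_fin]
    push_cast
    rfl
  have hcard : (∑ χ : S → Fin Q, if ∀ i ∈ T, χ i = q then (1 : ℝ) else 0) * (Q : ℝ) ^ T.card =
      (Q : ℝ) ^ Fintype.card S := by
    rw [Finset.sum_boole]
    have h1 : (Finset.univ.filter fun χ : S → Fin Q => ∀ i ∈ T, χ i = q) =
        Fintype.piFinset fun i => if i ∈ T then {q} else Finset.univ := by
      ext χ
      simp only [Finset.mem_filter, Finset.mem_univ, true_and, Fintype.mem_piFinset]
      constructor
      · intro h i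
        by_cases hi : i ∈ T
        · simp [hi, h i hi]
        · simp [hi]
      · intro h i hi
        have := h i
        simpa [hi] using this
    rw [h1, Fintype.card_piFinset]
    have h2 : ∏ i : S, (if i ∈ T then ({q} : Finset (Fin Q)) else Finset.univ).card =
        Q ^ (Finset.univ \ T).card := by
      rw [← Finset.prod_sdiff (Finset.subset_univ T)]
      have e1 : ∏ i ∈ T, (if i ∈ T then ({q} : Finset (Fin Q)) else Finset.univ).card = 1 :=
        Finset.prod_eq_one fun i hi => by simp [hi]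
      have e2 : ∏ i ∈ Finset.univ \ T, (if i ∈ T then ({q} : Finset (Fin Q))
          else Finset.univ).card = Q ^ (Finset.univ \ T).card := by
        rw [← Finset.prod_const]
        refine Finset.prod_congr rfl fun i hi => ?_
        have : i ∉ T := (Finset.mem_sdiff.1 hi).2
        simp [this]
      rw [e1, e2, mul_one]
    rw [h2]
    push_cast
    rw [← pow_add, Finset.card_sdiff_of_subset (Finset.subset_univ T), Finset.card_univ,
      Nat.sub_add_cancel (Finset.card_le_univ T)]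
  have hQ' : (0 : ℝ) < Q := by exact_mod_cast hQ
  have hQT : (0 : ℝ) < (Q : ℝ) ^ T.card := by positivity
  rw [hN, ← hcard]
  have hne : (∑ χ : S → Fin Q, if ∀ i ∈ T, χ i = q then (1 : ℝ) else 0) ≠ 0 := by
    intro h0
    rw [h0, zero_mul] at hcard
    exact absurd hcard.symm (by positivity)
  field_simp

theorem av_same (hQ : 0 < Q) (T : Finset S) {a : S} (ha : a ∈ T) :
    avEx (fun χ : S → Fin Q => if ∀ i ∈ T, χ i = χ a then 1 else 0) =
      (Q : ℝ) / (Q : ℝ) ^ T.card := by
  have h : (fun χ : S → Fin Q => if ∀ i ∈ T, χ i = χ a then (1 : ℝ) else 0) =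
      fun χ => ∑ q : Fin Q, if ∀ i ∈ T, χ i = q then (1 : ℝ) else 0 := by
    funext χ
    rw [Finset.sum_eq_single (χ a)]
    · intro q _ hq
      rw [if_neg]
      intro h
      exact hq (h a ha).symm
    · intro h
      exact absurd (Finset.mem_univ _) h
  rw [h, av_sum]
  simp only [av_fix hQ]
  rw [Finset.sum_const, Finset.card_univ, Fintype.card_fin, nsmul_eq_mul]
  ring

theorem av_pair (hQ : 0 < Q) {a b : S} (hab : a ≠ b) :
    avEx (fun χ : S → Fin Q => if χ b = χ a then 1 else 0) = 1 / (Q : ℝ) := by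
  have h := av_same (Q := Q) hQ ({a, b} : Finset S) (a := a) (by simp)
  rw [Finset.card_pair hab] at h
  have hQ' : (0 : ℝ) < Q := by exact_mod_cast hQ
  have h2 : (fun χ : S → Fin Q => if ∀ i ∈ ({a, b} : Finset S), χ i = χ a then (1 : ℝ) else 0) =
      fun χ => if χ b = χ a then 1 else 0 := by
    funext χ
    congr 1
    simp
  rw [h2] at h
  rw [h]
  field_simp

theorem av_triple (hQ : 0 < Q) {a b c : S} (hab : a ≠ b) (hac : a ≠ c) (hbc : b ≠ c) :
    avEx (fun χ : S → Fin Q => if χ b = χ a ∧ χ c = χ a then 1 else 0) = 1 / (Q : ℝ) ^ 2 := by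
  have h := av_same (Q := Q) hQ ({a, b, c} : Finset S) (a := a) (by simp)
  have hcard : ({a, b, c} : Finset S).card = 3 := by
    rw [Finset.card_eq_three]
    exact ⟨a, b, c, hab, hac, hbc, rfl⟩
  rw [hcard] at h
  have hQ' : (0 : ℝ) < Q := by exact_mod_cast hQ
  have h2 : (fun χ : S → Fin Q => if ∀ i ∈ ({a, b, c} : Finset S), χ i = χ a then (1 : ℝ)
      else 0) = fun χ => if χ b = χ a ∧ χ c = χ a then 1 else 0 := by
    funext χ
    congr 1
    simp
  rw [h2] at h
  rw [h]
  field_simp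

end ex

section slots

variable {Q : ℕ} (r : Perm S) (V : Finset S)

/-- number of sides in the slot of `x` -/
noncomputable def slotCnt (χ : S → Fin Q) (x : S) : ℕ :=
  (V.filter fun z => χ (rep r z) = χ (rep r x)).card

theorem slotCnt_ind {G : ℕ} (hG0 : 0 < G) (χ : S → Fin Q) (x : S) :
    (if G < slotCnt r V χ x then (1 : ℝ) else 0) ≤
      (1 / (G : ℝ)) * ∑ z ∈ V, if χ (rep r z) = χ (rep r x) then 1 else 0 := by
  have hG : (0 : ℝ) < G := by exact_mod_cast hG0
  have hs : (∑ z ∈ V, if χ (rep r z) = χ (rep r x) then (1 : ℝ) else 0) =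
      (slotCnt r V χ x : ℝ) := by
    rw [Finset.sum_boole]
    rfl
  rw [hs]
  split_ifs with h
  · have h2 : (G : ℝ) < (slotCnt r V χ x : ℝ) := by exact_mod_cast h
    rw [one_div, inv_mul_eq_div, le_div_iff₀ hG, one_mul]
    exact h2.le
  · positivity

theorem mem_slotPairs_iff {G : ℕ} (χ : S → Fin Q) {x y : S} (hx : x ∈ V) (hy : y ∈ V)
    (hxy : x ≠ y) :
    ({x, y} : Finset S) ∈ slotPairs G r V χ ↔
      χ (rep r y) = χ (rep r x) ∧ slotCnt r V χ x ≤ G := by
  unfold slotPairs slotCnt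
  rw [Finset.mem_filter, Finset.mem_powersetCard]
  constructor
  · rintro ⟨_, q, hq, h⟩
    have h1 := h x (by simp)
    have h2 := h y (by simp)
    refine ⟨by rw [h1, h2], ?_⟩
    rw [h1]
    exact hq
  · rintro ⟨h1, h2⟩
    refine ⟨⟨?_, Finset.card_pair hxy⟩, χ (rep r x), h2, ?_⟩
    · intro z hz
      rw [Finset.mem_insert, Finset.mem_singleton] at hz
      rcases hz with rfl | rfl
      · exact hx
      · exact hy
    · intro z hz
      rw [Finset.mem_insert, Finset.mem_singleton] at hz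
      rcases hz with rfl | rfl
      · rfl
      · exact h1

theorem av_big_one {n G f : ℕ} (hQ : 0 < Q) (hG : 16 * f ≤ G) (hG0 : 0 < G)
    (hQG : 16 * n ≤ Q * G) (hV : V.card ≤ 2 * n)
    (hf : ∀ x ∈ V, (face r V x).card ≤ f) {x : S} (hx : x ∈ V) :
    avEx (fun χ : S → Fin Q => if G < slotCnt r V χ x then 1 else 0) ≤ 1 / 4 := by
  have hQ' : (0 : ℝ) < Q := by exact_mod_cast hQ
  have hG' : (0 : ℝ) < G := by exact_mod_cast hG0
  have h1 : avEx (fun χ : S → Fin Q => if G < slotCnt r V χ x then 1 else 0) ≤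
      (1 / (G : ℝ)) * ∑ z ∈ V, avEx (fun χ : S → Fin Q =>
        if χ (rep r z) = χ (rep r x) then 1 else 0) := by
    refine le_trans (av_mono fun χ => slotCnt_ind r V hG0 χ x) ?_
    rw [av_mul, av_sum]
  have h2 : ∀ z ∈ V, avEx (fun χ : S → Fin Q =>
        if χ (rep r z) = χ (rep r x) then (1 : ℝ) else 0) ≤
      (if z ∈ face r V x then 1 else 0) + 1 / (Q : ℝ) := by
    intro z hz
    by_cases hzf : z ∈ face r V x
    · rw [if_pos hzf]
      calc avEx (fun χ : S → Fin Q => if χ (rep r z) = χ (rep r x) then (1 : ℝ) else 0) ≤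
          avEx (fun _ : S → Fin Q => (1 : ℝ)) := by
            refine av_mono fun χ => ?_
            split_ifs <;> norm_num
        _ = 1 := av_const hQ 1
        _ ≤ 1 + 1 / (Q : ℝ) := by
          have : (0 : ℝ) < 1 / (Q : ℝ) := by positivity
          linarith
    · rw [if_neg hzf, zero_add, av_pair hQ]
      intro h
      apply hzf
      rw [rep_eq_iff] at h
      exact Finset.mem_filter.2 ⟨hz, h⟩
  have h3 : ∑ z ∈ V, avEx (fun χ : S → Fin Q =>
        if χ (rep r z) = χ (rep r x) then (1 : ℝ) else 0) ≤ f + 2 * n / (Q : ℝ) := by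
    refine le_trans (Finset.sum_le_sum h2) ?_
    rw [Finset.sum_add_distrib, Finset.sum_const, nsmul_eq_mul, Finset.sum_boole]
    have e1 : (V.filter fun z => z ∈ face r V x) ⊆ face r V x := by
      intro z hz
      exact (Finset.mem_filter.1 hz).2
    have e2 : ((V.filter fun z => z ∈ face r V x).card : ℝ) ≤ f := by
      exact_mod_cast le_trans (Finset.card_le_card e1) (hf x hx)
    have e3 : (V.card : ℝ) ≤ 2 * n := by exact_mod_cast hV
    have e4 : (V.card : ℝ) * (1 / (Q : ℝ)) ≤ 2 * n / (Q : ℝ) := by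
      rw [mul_one_div]
      exact div_le_div_of_nonneg_right e3 hQ'.le
    linarith
  refine le_trans h1 ?_
  have hfG : 16 * (f : ℝ) ≤ G := by exact_mod_cast hG
  have hnQG : 16 * (n : ℝ) ≤ Q * G := by exact_mod_cast hQG
  have h4 : (1 / (G : ℝ)) * (f + 2 * n / (Q : ℝ)) ≤ 1 / 4 := by
    rw [one_div, inv_mul_le_iff₀ hG']
    have : 2 * (n : ℝ) / Q ≤ G / 8 := by
      rw [div_le_iff₀ hQ']
      linarith
    linarith
  refine le_trans (mul_le_mul_of_nonneg_left h3 (by positivity)) h4

theorem av_big_two {n G f : ℕ} (hQ : 0 < Q) (hG : 16 * f ≤ G) (hG0 : 0 < G)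
    (hQG : 16 * n ≤ Q * G) (hV : V.card ≤ 2 * n)
    (hf : ∀ x ∈ V, (face r V x).card ≤ f) {x y : S} (hx : x ∈ V) (hy : y ∈ V)
    (hxy : ¬ r.SameCycle x y) :
    avEx (fun χ : S → Fin Q => if χ (rep r y) = χ (rep r x) ∧ G < slotCnt r V χ x then 1 else 0)
      ≤ 1 / 4 * (1 / (Q : ℝ)) := by
  have hQ' : (0 : ℝ) < Q := by exact_mod_cast hQ
  have hG' : (0 : ℝ) < G := by exact_mod_cast hG0
  have hrep : rep r x ≠ rep r y := fun h => hxy ((rep_eq_iff r x y).1 h)
  have h1 : avEx (fun χ : S → Fin Q =>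
      if χ (rep r y) = χ (rep r x) ∧ G < slotCnt r V χ x then 1 else 0) ≤
      (1 / (G : ℝ)) * ∑ z ∈ V, avEx (fun χ : S → Fin Q =>
        if χ (rep r y) = χ (rep r x) ∧ χ (rep r z) = χ (rep r x) then 1 else 0) := by
    rw [← av_sum, ← av_mul]
    refine av_mono fun χ => ?_
    by_cases hc : χ (rep r y) = χ (rep r x)
    · simp only [hc, true_and]
      exact slotCnt_ind r V hG0 χ x
    · simp only [hc, false_and, if_false, Finset.sum_const_zero, mul_zero, le_refl]
  have h2 : ∀ z ∈ V, avEx (fun χ : S → Fin Q =>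
        if χ (rep r y) = χ (rep r x) ∧ χ (rep r z) = χ (rep r x) then (1 : ℝ) else 0) ≤
      ((if z ∈ face r V x then 1 else 0) + (if z ∈ face r V y then 1 else 0)) * (1 / (Q : ℝ)) +
        1 / (Q : ℝ) ^ 2 := by
    intro z hz
    have hpos : (0 : ℝ) < 1 / (Q : ℝ) ^ 2 := by positivity
    have hpos1 : (0 : ℝ) < 1 / (Q : ℝ) := by positivity
    have hle : avEx (fun χ : S → Fin Q =>
        if χ (rep r y) = χ (rep r x) ∧ χ (rep r z) = χ (rep r x) then (1 : ℝ) else 0) ≤
        1 / (Q : ℝ) := by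
      rw [← av_pair hQ hrep]
      refine av_mono fun χ => ?_
      by_cases hc : χ (rep r y) = χ (rep r x)
      · simp only [hc, true_and, if_true]
        split_ifs <;> norm_num
      · simp only [hc, false_and, if_false, le_refl]
    by_cases hzf : z ∈ face r V x
    · rw [if_pos hzf]
      have : (0 : ℝ) ≤ (if z ∈ face r V y then 1 else 0) := by split_ifs <;> norm_num
      nlinarith
    · by_cases hzg : z ∈ face r V y
      · rw [if_pos hzg, if_neg hzf]
        linarith
      · rw [if_neg hzf, if_neg hzg, av_triple hQ hrep]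
        · linarith
        · intro h
          apply hzf
          rw [rep_eq_iff] at h
          exact Finset.mem_filter.2 ⟨hz, h⟩
        · intro h
          apply hzg
          rw [rep_eq_iff] at h
          exact Finset.mem_filter.2 ⟨hz, h⟩
  have h3 : ∑ z ∈ V, avEx (fun χ : S → Fin Q =>
        if χ (rep r y) = χ (rep r x) ∧ χ (rep r z) = χ (rep r x) then (1 : ℝ) else 0) ≤
      (2 * f + 2 * n / (Q : ℝ)) * (1 / (Q : ℝ)) := by
    refine le_trans (Finset.sum_le_sum h2) ?_
    rw [Finset.sum_add_distrib, Finset.sum_const, nsmul_eq_mul, ← Finset.sum_mul,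
      Finset.sum_add_distrib, Finset.sum_boole, Finset.sum_boole]
    have key : ∀ u ∈ V, ((V.filter fun z => z ∈ face r V u).card : ℝ) ≤ f := by
      intro u hu
      have e1 : (V.filter fun z => z ∈ face r V u) ⊆ face r V u := by
        intro z hz
        exact (Finset.mem_filter.1 hz).2
      exact_mod_cast le_trans (Finset.card_le_card e1) (hf u hu)
    have e2 := key x hx
    have e2' := key y hy
    have e3 : (V.card : ℝ) ≤ 2 * n := by exact_mod_cast hV
    have e4 : (V.card : ℝ) * (1 / (Q : ℝ) ^ 2) ≤ 2 * n / (Q : ℝ) * (1 / (Q : ℝ)) := by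
      calc (V.card : ℝ) * (1 / (Q : ℝ) ^ 2) ≤ 2 * n * (1 / (Q : ℝ) ^ 2) :=
            mul_le_mul_of_nonneg_right e3 (by positivity)
        _ = 2 * n / (Q : ℝ) * (1 / (Q : ℝ)) := by
          field_simp
    have e5 : (((V.filter fun z => z ∈ face r V x).card : ℝ) +
        ((V.filter fun z => z ∈ face r V y).card : ℝ)) * (1 / (Q : ℝ)) ≤
        2 * f * (1 / (Q : ℝ)) :=
      mul_le_mul_of_nonneg_right (by linarith) (by positivity)
    linarith [add_mul (2 * (f : ℝ)) (2 * n / (Q : ℝ)) (1 / (Q : ℝ))]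
  refine le_trans h1 ?_
  have hfG : 16 * (f : ℝ) ≤ G := by exact_mod_cast hG
  have hnQG : 16 * (n : ℝ) ≤ Q * G := by exact_mod_cast hQG
  have h4 : (1 / (G : ℝ)) * (2 * f + 2 * n / (Q : ℝ)) ≤ 1 / 4 := by
    rw [one_div, inv_mul_le_iff₀ hG']
    have : 2 * (n : ℝ) / Q ≤ G / 8 := by
      rw [div_le_iff₀ hQ']
      linarith
    linarith
  calc (1 / (G : ℝ)) * ∑ z ∈ V, avEx (fun χ : S → Fin Q =>
        if χ (rep r y) = χ (rep r x) ∧ χ (rep r z) = χ (rep r x) then (1 : ℝ) else 0) ≤
      (1 / (G : ℝ)) * ((2 * f + 2 * n / (Q : ℝ)) * (1 / (Q : ℝ))) :=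
        mul_le_mul_of_nonneg_left h3 (by positivity)
    _ = ((1 / (G : ℝ)) * (2 * f + 2 * n / (Q : ℝ))) * (1 / (Q : ℝ)) := by ring
    _ ≤ 1 / 4 * (1 / (Q : ℝ)) := mul_le_mul_of_nonneg_right h4 (by positivity)

theorem same_pair_iff {x y : S} : Same r ({x, y} : Finset S) ↔ r.SameCycle x y := by
  unfold Same
  constructor
  · intro h
    exact h x (by simp) y (by simp)
  · intro h u hu v hv
    rw [Finset.mem_insert, Finset.mem_singleton] at hu hv
    rcases hu with rfl | rfl <;> rcases hv with rfl | rfl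
    · exact Perm.SameCycle.refl _ _
    · exact h
    · exact h.symm
    · exact Perm.SameCycle.refl _ _

theorem av_slot_low {n G f : ℕ} (hQ : 0 < Q) (hG : 16 * f ≤ G) (hG0 : 0 < G)
    (hQG : 16 * n ≤ Q * G) (hV : V.card ≤ 2 * n)
    (hf : ∀ x ∈ V, (face r V x).card ≤ f) {e : Finset S} (he : e ∈ V.powersetCard 2) :
    3 / (4 * (Q : ℝ)) ≤ avEx (fun χ : S → Fin Q => if e ∈ slotPairs G r V χ then 1 else 0) := by
  have hQ' : (0 : ℝ) < Q := by exact_mod_cast hQ
  have hQ1 : (1 : ℝ) ≤ Q := by exact_mod_cast hQ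
  rw [Finset.mem_powersetCard] at he
  obtain ⟨x, y, hxy, rfl⟩ := Finset.card_eq_two.1 he.2
  have hx : x ∈ V := he.1 (by simp)
  have hy : y ∈ V := he.1 (by simp)
  by_cases hs : r.SameCycle x y
  · have hrep : rep r y = rep r x := ((rep_eq_iff r x y).2 hs).symm
    have h1 := av_big_one r V hQ hG hG0 hQG hV hf hx
    have h2 : (fun χ : S → Fin Q => if ({x, y} : Finset S) ∈ slotPairs G r V χ then (1 : ℝ)
        else 0) = fun χ => 1 + (-1) * (if G < slotCnt r V χ x then (1 : ℝ) else 0) := by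
      funext χ
      simp only [mem_slotPairs_iff r V χ hx hy hxy, hrep, true_and]
      by_cases h : slotCnt r V χ x ≤ G
      · rw [if_pos h, if_neg (not_lt.2 h)]
        norm_num
      · rw [if_neg h, if_pos (not_le.1 h)]
        norm_num
    rw [h2, av_add, av_const hQ, av_mul]
    have h3 : 3 / (4 * (Q : ℝ)) ≤ 3 / 4 := by
      apply div_le_div_of_nonneg_left (by norm_num) (by norm_num)
      linarith
    linarith
  · have hrep : rep r x ≠ rep r y := fun h => hs ((rep_eq_iff r x y).1 h)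
    have h1 := av_big_two r V hQ hG hG0 hQG hV hf hx hy hs
    have h2 : (fun χ : S → Fin Q => if ({x, y} : Finset S) ∈ slotPairs G r V χ then (1 : ℝ)
        else 0) = fun χ => (if χ (rep r y) = χ (rep r x) then (1 : ℝ) else 0) + (-1) *
          (if χ (rep r y) = χ (rep r x) ∧ G < slotCnt r V χ x then (1 : ℝ) else 0) := by
      funext χ
      simp only [mem_slotPairs_iff r V χ hx hy hxy]
      by_cases hc : χ (rep r y) = χ (rep r x)
      · simp only [hc, true_and, if_true]
        by_cases h : slotCnt r V χ x ≤ G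
        · rw [if_pos h, if_neg (not_lt.2 h)]
          norm_num
        · rw [if_neg h, if_pos (not_le.1 h)]
          norm_num
      · simp only [hc, false_and, if_false]
        norm_num
    rw [h2, av_add, av_pair hQ hrep, av_mul]
    have h3 : 3 / (4 * (Q : ℝ)) = 3 / 4 * (1 / (Q : ℝ)) := by
      field_simp
    rw [h3]
    linarith

theorem av_slot_up {G : ℕ} (hQ : 0 < Q) {e : Finset S} (he : e ∈ V.powersetCard 2) :
    1 + avEx (fun χ : S → Fin Q => if Same r e ∨ e ∈ slotPairs G r V χ then 1 else 0) ≤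
      (1 + 1 / (Q : ℝ)) * (1 + if Same r e then 1 else 0) := by
  have hQ' : (0 : ℝ) < Q := by exact_mod_cast hQ
  have hpos : (0 : ℝ) < 1 / (Q : ℝ) := by positivity
  rw [Finset.mem_powersetCard] at he
  obtain ⟨x, y, hxy, rfl⟩ := Finset.card_eq_two.1 he.2
  have hx : x ∈ V := he.1 (by simp)
  have hy : y ∈ V := he.1 (by simp)
  by_cases hs : Same r ({x, y} : Finset S)
  · simp only [hs, true_or, if_true]
    rw [av_const hQ]
    linarith
  · have hs' : ¬ r.SameCycle x y := fun h => hs ((same_pair_iff r).2 h)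
    have hrep : rep r x ≠ rep r y := fun h => hs' ((rep_eq_iff r x y).1 h)
    simp only [hs, false_or, if_false, add_zero, mul_one]
    have h1 : avEx (fun χ : S → Fin Q => if ({x, y} : Finset S) ∈ slotPairs G r V χ then (1 : ℝ)
        else 0) ≤ 1 / (Q : ℝ) := by
      rw [← av_pair hQ hrep]
      refine av_mono fun χ => ?_
      simp only [mem_slotPairs_iff r V χ hx hy hxy]
      by_cases hc : χ (rep r y) = χ (rep r x)
      · simp only [hc, true_and, if_true]
        split_ifs <;> norm_num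
      · simp only [hc, false_and, if_false, le_refl]
    linarith

end slots

theorem exists_slots {n G f Q : ℕ} (hQ : 0 < Q) (hG : 16 * f ≤ G) (hG0 : 0 < G)
    (hQG : 16 * n ≤ Q * G) {r : Perm S} {V : Finset S} (hV : V.card ≤ 2 * n)
    (hf : ∀ x ∈ V, (face r V x).card ≤ f) (θ : ℝ) (K : Finset S → ℕ) {U : Finset (Finset S)}
    (hU : U ⊆ V.powersetCard 2) {μ ν : ℝ} (hμ : 0 ≤ μ) (hν : 0 ≤ ν) :
    ∃ χ : S → Fin Q,
      μ * (∑ e ∈ V.powersetCard 2, Real.exp (θ * K e) *
          (1 + if Same r e ∨ e ∈ slotPairs G r V χ then 1 else 0)) +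
        ν * ((U \ slotPairs G r V χ).card : ℝ) ≤
      μ * (1 + 1 / (Q : ℝ)) * Psi θ r V K + ν * (1 - 3 / (4 * (Q : ℝ))) * (U.card : ℝ) := by
  have hQ' : (0 : ℝ) < Q := by exact_mod_cast hQ
  obtain ⟨χ, hχ⟩ := av_exists (S := S) hQ (fun χ : S → Fin Q =>
      μ * (∑ e ∈ V.powersetCard 2, Real.exp (θ * K e) *
          (1 + if Same r e ∨ e ∈ slotPairs G r V χ then 1 else 0)) +
        ν * ((U \ slotPairs G r V χ).card : ℝ))
  refine ⟨χ, le_trans hχ ?_⟩
  have hc : (fun χ : S → Fin Q => ν * ((U \ slotPairs G r V χ).card : ℝ)) =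
      fun χ => ν * ∑ e ∈ U, (1 + (-1) * (if e ∈ slotPairs G r V χ then (1 : ℝ) else 0)) := by
    funext χ
    congr 1
    have h1 : U \ slotPairs G r V χ = U.filter fun e => e ∉ slotPairs G r V χ := by
      ext e
      simp [Finset.mem_sdiff]
    rw [h1, Finset.card_filter]
    push_cast
    refine Finset.sum_congr rfl fun e _ => ?_
    by_cases he : e ∈ slotPairs G r V χ
    · simp [he]
    · simp [he]
  rw [av_add, hc, av_mul, av_mul, av_sum, av_sum]
  have hA : ∑ e ∈ V.powersetCard 2, avEx (fun χ : S → Fin Q => Real.exp (θ * K e) *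
      (1 + if Same r e ∨ e ∈ slotPairs G r V χ then 1 else 0)) ≤
      (1 + 1 / (Q : ℝ)) * Psi θ r V K := by
    unfold Psi
    rw [Finset.mul_sum]
    refine Finset.sum_le_sum fun e he => ?_
    rw [av_mul, av_add, av_const hQ]
    have h := av_slot_up r V (G := G) hQ he
    have h2 := mul_le_mul_of_nonneg_left h (Real.exp_pos (θ * K e)).le
    calc _ ≤ Real.exp (θ * K e) * ((1 + 1 / (Q : ℝ)) * (1 + if Same r e then 1 else 0)) := h2
      _ = _ := by ring
  have hB : ∑ e ∈ U, avEx (fun χ : S → Fin Q =>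
      (1 + (-1) * (if e ∈ slotPairs G r V χ then (1 : ℝ) else 0))) ≤
      (1 - 3 / (4 * (Q : ℝ))) * (U.card : ℝ) := by
    calc _ ≤ ∑ _e ∈ U, (1 - 3 / (4 * (Q : ℝ))) := by
          refine Finset.sum_le_sum fun e he => ?_
          rw [av_add, av_const hQ, av_mul]
          have h := av_slot_low r V hQ hG hG0 hQG hV hf (hU he)
          linarith
      _ = _ := by
        rw [Finset.sum_const, nsmul_eq_mul]
        ring
  have h1 := mul_le_mul_of_nonneg_left hA hμ
  have h2 := mul_le_mul_of_nonneg_left hB hν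
  calc _ ≤ μ * ((1 + 1 / (Q : ℝ)) * Psi θ r V K) +
        ν * ((1 - 3 / (4 * (Q : ℝ))) * (U.card : ℝ)) := add_le_add h1 h2
    _ = _ := by ring

end Pool.Agent.RSW
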