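import Pool.Agent.RSW.CutPsi

/-!
# Cut steps (helper13)

Induction over the natural number `m = ∑_{e ∈ V.powersetCard 2} (Km + 1 - K e)` (truncated subtraction).
State with `Inv` (faces of at most `G` sides).  `B ≤ Z` and `B, Z, Pt ≥ 0`, all weights are positive.
(a) `|V| ≤ G`: all perfect matchings can be swept (`sweep_small`), `B = 0`.
(b) some `e` (2-subset of `V`) has `K e > Km`: `Psi ≥ exp (θ (Km + 1))`, so `Bd ≥ Z ≥ B` by `hμ`.
(c) all faces have at most `f` sides: hypothesis `H`.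
(d) otherwise there is `x₀ ∈ V` with `f < d = |face r V x₀| ≤ G < |V|`, and all `K e ≤ Km`.  By `Inv` and
  `hKm` (`(1 - pm)^(K e) ≥ (1 - pm)^Km ≥ 1/2`): `κ/4 ≤ w e ≤ κ`.  Let `p' = |V| / (32 d²) ≤ 2n / (32 f²) ≤ pm`,
  `E = bal r V x₀`, `p e = p'` on `E`, `0` elsewhere, `w' = (1-p) w`, `K' = K + 1` on `E`, `K' = K` elsewhere.
  Choice of `ρ F`: for `F = {c}`, `c = {u, v} ∈ E`: `glue r u v` (`sweep_one`, `glue_rel`, `glue_fix` with
  `R = r.SameCycle`); for the other `F ∈ PMat V`, `F ⊆ E`: the permutation of `exists_glueAll` with `R = r.SameCycle`;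
  for the rest anything.  `B_thin`: `B ≤ ∑_F wt p F * wt w F * B (ρ F) (V \ cov F) w'`, only `F ⊆ E` matter
  (`wt p F = 0` otherwise).  The state `ρ F, V \ cov F, w', K', U' = U ∩ (V \ cov F).powersetCard 2` satisfies `Inv`
  with the same `κ` (`(1-p') w e ≥ (1-p') κ (1-pm)^(K e) ≥ κ (1-pm)^(K e + 1)`; the faces are contained in faces of
  `r`), and its `m` is smaller: if `F = ∅` since `E` is nonempty (`bal_nonempty`) and its elements have `K e ≤ Km`,
  if `F ≠ ∅` since the elements of `F` are removed and have `K e ≤ Km` (all other terms do not increase).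
  The induction hypothesis bounds `B (ρ F) …` by
  `(μ Psi_F + ν |U'| + ρ₀) Z (V \ cov F) w' + lam Pt (V \ cov F) w'`, `|U'| ≤ |U|`.  Sum with `Z_thin`, `Pt_thin`
  and `cut_psi`.
-/

namespace Pool.Agent.RSW

open Equiv Finset
open scoped BigOperators

variable {S : Type*} [Fintype S] [DecidableEq S]

omit [Fintype S] [DecidableEq S] in
private theorem cs_wt_nonneg {V : Finset S} {w : Finset S → ℝ}
    (hw : ∀ e ∈ V.powersetCard 2, 0 ≤ w e) {F : Finset (Finset S)}
    (hF : ∀ e ∈ F, e ∈ V.powersetCard 2) : 0 ≤ wt w F :=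
  Finset.prod_nonneg fun e he => hw e (hF e he)

private theorem cs_PM_mem {V : Finset S} {M : Finset (Finset S)} (hM : M ∈ PM V) :
    ∀ e ∈ M, e ∈ V.powersetCard 2 := fun e he => by
  have h := (mem_PM.1 hM).1 e he
  exact Finset.mem_powersetCard.2 h

private theorem cs_PMat_mem {V : Finset S} {M : Finset (Finset S)} (hM : M ∈ PMat V) :
    ∀ e ∈ M, e ∈ V.powersetCard 2 := fun e he => by
  have h := (mem_PMat.1 hM).1 e he
  exact Finset.mem_powersetCard.2 h

private theorem cs_B_le_Z {L : ℕ} {r : Perm S} {V : Finset S} {w : Finset S → ℝ}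
    (hw : ∀ e ∈ V.powersetCard 2, 0 ≤ w e) : B L r V w ≤ Z V w := by
  classical
  unfold B Z
  exact Finset.sum_le_sum_of_subset_of_nonneg (Finset.filter_subset _ _)
    fun M hM _ => cs_wt_nonneg hw (cs_PM_mem hM)

private theorem cs_Pt_nonneg {V : Finset S} {w : Finset S → ℝ}
    (hw : ∀ e ∈ V.powersetCard 2, 0 ≤ w e) : 0 ≤ Pt V w := by
  unfold Pt
  refine Finset.sum_nonneg fun M hM => mul_nonneg (cs_wt_nonneg hw (cs_PM_mem hM)) ?_
  exact Finset.sum_nonneg fun e he => inv_nonneg.2 (hw e (cs_PM_mem hM e he))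

private theorem cs_Psi_term (θ : ℝ) (r : Perm S) (K : Finset S → ℕ) (e : Finset S) :
    Real.exp (θ * K e) ≤ Real.exp (θ * K e) * (1 + if Same r e then 1 else 0) := by
  have h1 := Real.exp_pos (θ * K e)
  split_ifs <;> nlinarith

private theorem cs_Psi_nonneg (θ : ℝ) (r : Perm S) (V : Finset S) (K : Finset S → ℕ) :
    0 ≤ Psi θ r V K := by
  unfold Psi
  exact Finset.sum_nonneg fun e _ => (Real.exp_pos _).le.trans (cs_Psi_term θ r K e)

private theorem cs_B_small {L : ℕ} (r : Perm S) {V : Finset S} (hV : V.card ≤ L)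
    (w : Finset S → ℝ) : B L r V w = 0 := by
  classical
  unfold B
  rw [Finset.filter_eq_empty_iff.2, Finset.sum_empty]
  intro M hM h
  exact h (sweep_small r hV hM)

private theorem cs_pos {n G : ℕ} {pm κ : ℝ} (hκ : 0 < κ) (hpm1 : pm ≤ 1 / 2) {r : Perm S}
    {V : Finset S} {w : Finset S → ℝ} {K : Finset S → ℕ} {U : Finset (Finset S)}
    (hI : Inv n G pm κ r V w K U) : ∀ e ∈ V.powersetCard 2, 0 < w e ∧ w e ≤ κ := by
  intro e he
  have h1 : 0 < (1 - pm) ^ (K e) := pow_pos (by linarith) _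
  by_cases hU : e ∈ U
  · obtain ⟨h2, h3⟩ := hI.unmet e hU
    exact ⟨lt_of_lt_of_le (mul_pos hκ h1) h2, h3⟩
  · obtain ⟨h2, h3⟩ := hI.met e he hU
    exact ⟨lt_of_lt_of_le (mul_pos (half_pos hκ) h1) h2, by linarith⟩

private theorem cs_quarter {n G Km : ℕ} {pm κ : ℝ} (hκ : 0 < κ) (hpm0 : 0 ≤ pm)
    (hpm1 : pm ≤ 1 / 2) (hKm : 1 / 2 ≤ (1 - pm) ^ Km) {r : Perm S}
    {V : Finset S} {w : Finset S → ℝ} {K : Finset S → ℕ} {U : Finset (Finset S)}
    (hI : Inv n G pm κ r V w K U) (hK : ∀ e ∈ V.powersetCard 2, K e ≤ Km) :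
    ∀ e ∈ V.powersetCard 2, κ / 4 ≤ w e ∧ w e ≤ κ := by
  intro e he
  refine ⟨?_, (cs_pos hκ hpm1 hI e he).2⟩
  have h1 : (1 - pm) ^ Km ≤ (1 - pm) ^ (K e) :=
    pow_le_pow_of_le_one (by linarith) (by linarith) (hK e he)
  have h2 : 1 / 2 ≤ (1 - pm) ^ (K e) := hKm.trans h1
  by_cases hU : e ∈ U
  · have h3 := (hI.unmet e hU).1
    nlinarith
  · have h3 := (hI.met e he hU).1
    nlinarith

private theorem cs_rho {G : ℕ} {r : Perm S} {V : Finset S} (hfix : ∀ z, z ∉ V → r z = z)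
    (hsmall : ∀ x ∈ V, (face r V x).card ≤ G) (x₀ : S) {F : Finset (Finset S)}
    (hF : F ∈ PMat V) (hFE : F ⊆ bal r V x₀) :
    ∃ r' : Perm S, (∀ z, z ∉ V \ cov F → r' z = z) ∧
      (∀ a b, r'.SameCycle a b → r.SameCycle a b) ∧
      (∀ M' ∈ PM (V \ cov F), Sweep G r' (V \ cov F) M' → Sweep G r V (F ∪ M')) ∧
      ∀ c, F = {c} → ∃ u v, c = {u, v} ∧ r' = glue r u v := by
  classical
  have hR : Equivalence r.SameCycle :=
    ⟨fun x => Perm.SameCycle.refl r x, fun h => h.symm, fun h h' => h.trans h'⟩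
  have hcard : ∀ x ∈ V, (@Finset.filter S (r.SameCycle x)
      (fun a => Classical.propDecidable (r.SameCycle x a)) V).card ≤ G := fun x hx => by
    have h := hsmall x hx
    unfold face at h
    convert h
  by_cases hc : ∃ c, F = {c}
  · obtain ⟨c, rfl⟩ := hc
    have hcE : c ∈ bal r V x₀ := hFE (Finset.mem_singleton_self c)
    have hcV := Finset.mem_powersetCard.1 (bal_sub r V x₀ hcE)
    obtain ⟨u, v, huv, rfl⟩ := Finset.card_eq_two.1 hcV.2
    have hu : u ∈ V := hcV.1 (by simp)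
    have hv : v ∈ V := hcV.1 (by simp)
    have hs : r.SameCycle u v := bal_same r V x₀ _ hcE u (by simp) v (by simp)
    refine ⟨glue r u v, ?_, glue_rel hR (fun a b h => h) hs, ?_, ?_⟩
    · rw [cov_single]
      exact glue_fix hfix hu hv huv
    · intro M' hM' h
      rw [cov_single] at hM' h
      exact sweep_one r.SameCycle hR (fun a b h => h) hcard hu hv huv hM' h
    · intro c hc
      exact ⟨u, v, (Finset.singleton_injective hc).symm, rfl⟩
  · obtain ⟨r', h1, h2, h3⟩ := exists_glueAll (L := G) hfix r.SameCycle hR (fun a b h => h)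
      hcard hF (fun e he => bal_same r V x₀ e (hFE he))
    exact ⟨r', h1, h2, h3, fun c hc' => absurd ⟨c, hc'⟩ hc⟩

omit [Fintype S] in
private theorem cs_measure {Km : ℕ} {V : Finset S} {K : Finset S → ℕ}
    {E : Finset (Finset S)} (hE : E ⊆ V.powersetCard 2) (hne : E.Nonempty)
    (hK : ∀ e ∈ V.powersetCard 2, K e ≤ Km) {F : Finset (Finset S)} (hF : F ⊆ E) :
    ∑ e ∈ (V \ cov F).powersetCard 2, (Km + 1 - (K e + if e ∈ E then 1 else 0)) <
      ∑ e ∈ V.powersetCard 2, (Km + 1 - K e) := by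
  rcases F.eq_empty_or_nonempty with rfl | ⟨c, hc⟩
  · have h1 : V \ cov (∅ : Finset (Finset S)) = V := by simp [cov]
    rw [h1]
    obtain ⟨c, hc⟩ := hne
    refine Finset.sum_lt_sum (fun e _ => by split_ifs <;> omega) ⟨c, hE hc, ?_⟩
    have := hK c (hE hc)
    rw [if_pos hc]
    omega
  · have h1 : ∑ e ∈ (V \ cov F).powersetCard 2, (Km + 1 - (K e + if e ∈ E then 1 else 0)) ≤
        ∑ e ∈ (V \ cov F).powersetCard 2, (Km + 1 - K e) :=
      Finset.sum_le_sum fun e _ => by split_ifs <;> omega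
    refine lt_of_le_of_lt h1 ?_
    have hcV := hE (hF hc)
    have hK' := hK c hcV
    refine Finset.sum_lt_sum_of_subset (Finset.powersetCard_mono Finset.sdiff_subset) hcV ?_
      (by omega) (fun _ _ _ => Nat.zero_le _)
    intro h
    have h2 := Finset.mem_powersetCard.1 h
    obtain ⟨x, hx⟩ : c.Nonempty := Finset.card_pos.1 (by omega)
    have h3 := Finset.mem_sdiff.1 (h2.1 hx)
    exact h3.2 (Finset.mem_biUnion.2 ⟨c, hc, hx⟩)

private theorem cs_inv {n G : ℕ} {pm κ : ℝ} (hκ : 0 < κ) (hpm1 : pm ≤ 1 / 2)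
    {r : Perm S} {V : Finset S} {w : Finset S → ℝ} {K : Finset S → ℕ} {U : Finset (Finset S)}
    (hI : Inv n G pm κ r V w K U) {E : Finset (Finset S)} {p' : ℝ} (hp0 : 0 ≤ p')
    (hpp : p' ≤ pm) {F : Finset (Finset S)} {r' : Perm S}
    (h1 : ∀ z, z ∉ V \ cov F → r' z = z)
    (h2 : ∀ a b, r'.SameCycle a b → r.SameCycle a b) :
    Inv n G pm κ r' (V \ cov F) (fun e => (1 - (if e ∈ E then p' else 0)) * w e)
      (fun e => K e + if e ∈ E then 1 else 0) (U ∩ (V \ cov F).powersetCard 2) := by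
  have key : ∀ (e : Finset S) (x : ℝ), 0 < x → x * (1 - pm) ^ (K e) ≤ w e → w e ≤ x →
      x * (1 - pm) ^ (K e + if e ∈ E then 1 else 0) ≤ (1 - (if e ∈ E then p' else 0)) * w e ∧
        (1 - (if e ∈ E then p' else 0)) * w e ≤ x := by
    intro e x hx h3 h4
    have h5 : 0 < x * (1 - pm) ^ (K e) := mul_pos hx (pow_pos (by linarith) _)
    split_ifs with he
    · rw [pow_succ]
      constructor
      · have h6 : (1 - pm) * (x * (1 - pm) ^ (K e)) ≤ (1 - p') * w e :=
          mul_le_mul (by linarith) h3 h5.le (by linarith)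
        nlinarith
      · nlinarith
    · simp only [add_zero, sub_zero, one_mul]
      exact ⟨h3, h4⟩
  have hface : ∀ x ∈ V \ cov F, (face r' (V \ cov F) x).card ≤ G := fun x hx => by
    refine le_trans (Finset.card_le_card ?_) (hI.small x (Finset.sdiff_subset hx))
    intro y hy
    unfold face at hy ⊢
    rw [Finset.mem_filter] at hy ⊢
    exact ⟨Finset.sdiff_subset hy.1, h2 _ _ hy.2⟩
  refine ⟨h1, (Finset.card_le_card Finset.sdiff_subset).trans hI.card,
    Finset.inter_subset_right, ?_, ?_, hface⟩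
  · intro e he
    have h3 := hI.unmet e (Finset.mem_inter.1 he).1
    exact key e κ hκ h3.1 h3.2
  · intro e he heU
    have h3 : e ∉ U := fun h => heU (Finset.mem_inter.2 ⟨h, he⟩)
    have h4 := hI.met e (Finset.powersetCard_mono Finset.sdiff_subset he) h3
    exact key e (κ / 2) (half_pos hκ) h4.1 h4.2

private theorem cs_main {n G f Km : ℕ} {pm θ κ μ ν ρ lam : ℝ} (hκ : 0 < κ) (hf : 1000 ≤ f)
    (hpm0 : 0 ≤ pm) (hpm1 : pm ≤ 1 / 2) (hpm : (n : ℝ) ≤ 16 * (f : ℝ) ^ 2 * pm)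
    (hKm : 1 / 2 ≤ (1 - pm) ^ Km) (hθ0 : 0 ≤ θ) (hθ : Real.exp θ * (1 - 1 / 204800) ≤ 1)
    (hμ0 : 0 ≤ μ) (hμ : 1 ≤ μ * Real.exp (θ * (Km + 1))) (hν : 0 ≤ ν) (hρ : 0 ≤ ρ)
    (hlam : 0 ≤ lam) (H : Good S n G f pm θ κ μ ν ρ lam) (m : ℕ) :
    ∀ (r : Perm S) (V : Finset S) (w : Finset S → ℝ) (K : Finset S → ℕ)
      (U : Finset (Finset S)), ∑ e ∈ V.powersetCard 2, (Km + 1 - K e) = m →
      Inv n G pm κ r V w K U → B G r V w ≤ Bd θ μ ν ρ lam r V w K U := by
  induction m using Nat.strong_induction_on with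
  | _ m ih =>
  intro r V w K U hm hI
  have hpos := cs_pos hκ hpm1 hI
  have hw0 : ∀ e ∈ V.powersetCard 2, 0 ≤ w e := fun e he => (hpos e he).1.le
  have hZ : 0 ≤ Z V w := Z_nonneg hw0
  have hPt : 0 ≤ Pt V w := cs_Pt_nonneg hw0
  have hPsi := cs_Psi_nonneg θ r V K
  have hUc : (0 : ℝ) ≤ ν * U.card := mul_nonneg hν (Nat.cast_nonneg _)
  have hlPt : 0 ≤ lam * Pt V w := mul_nonneg hlam hPt
  have hμPsi : 0 ≤ μ * Psi θ r V K := mul_nonneg hμ0 hPsi
  by_cases ha : V.card ≤ G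
  · rw [cs_B_small r ha]
    unfold Bd
    have : 0 ≤ (μ * Psi θ r V K + ν * U.card + ρ) * Z V w := mul_nonneg (by linarith) hZ
    linarith
  by_cases hb : ∃ e ∈ V.powersetCard 2, Km < K e
  · obtain ⟨e, he, hKe⟩ := hb
    have h1 : Real.exp (θ * (Km + 1)) ≤ Psi θ r V K := by
      have h2 : Real.exp (θ * (Km + 1)) ≤ Real.exp (θ * K e) := by
        apply Real.exp_le_exp.2
        have h3 : ((Km : ℝ) + 1) ≤ K e := by exact_mod_cast hKe
        exact mul_le_mul_of_nonneg_left h3 hθ0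
      refine h2.trans ((cs_Psi_term θ r K e).trans ?_)
      unfold Psi
      exact Finset.single_le_sum (f := fun e => Real.exp (θ * K e) *
        (1 + if Same r e then 1 else 0))
        (fun e _ => (Real.exp_pos _).le.trans (cs_Psi_term θ r K e)) he
    have h2 : 1 ≤ μ * Psi θ r V K := hμ.trans (mul_le_mul_of_nonneg_left h1 hμ0)
    refine (cs_B_le_Z hw0).trans ?_
    unfold Bd
    have h3 : 1 * Z V w ≤ (μ * Psi θ r V K + ν * U.card + ρ) * Z V w :=
      mul_le_mul_of_nonneg_right (by linarith) hZ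
    linarith
  by_cases hc : ∀ x ∈ V, (face r V x).card ≤ f
  · exact H r V w K U hI hc
  push Not at ha hb hc
  obtain ⟨x₀, hx₀, hd⟩ := hc
  have hd1000 : 1000 ≤ (face r V x₀).card := by omega
  have hq := cs_quarter hκ hpm0 hpm1 hKm hI hb
  set d : ℝ := ((face r V x₀).card : ℝ) with hd_def
  have hdf : (f : ℝ) ≤ d := by
    rw [hd_def]
    exact_mod_cast hd.le
  have hf0 : (1000 : ℝ) ≤ f := by exact_mod_cast hf
  have hd0 : 0 < d := by linarith
  set p' : ℝ := (V.card : ℝ) / (32 * d ^ 2) with hp'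
  have hp0 : 0 ≤ p' := by positivity
  have hpp : p' ≤ pm := by
    rw [hp', div_le_iff₀ (by positivity)]
    have h1 : (V.card : ℝ) ≤ 2 * n := by exact_mod_cast hI.card
    have h2 : (f : ℝ) ^ 2 ≤ d ^ 2 := pow_le_pow_left₀ (by linarith) hdf 2
    nlinarith [mul_le_mul_of_nonneg_right h2 hpm0]
  have hex : ∀ F : Finset (Finset S), ∃ r' : Perm S, F ∈ PMat V → F ⊆ bal r V x₀ →
      (∀ z, z ∉ V \ cov F → r' z = z) ∧
      (∀ a b, r'.SameCycle a b → r.SameCycle a b) ∧
      (∀ M' ∈ PM (V \ cov F), Sweep G r' (V \ cov F) M' → Sweep G r V (F ∪ M')) ∧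
      ∀ c, F = {c} → ∃ u v, c = {u, v} ∧ r' = glue r u v := by
    intro F
    by_cases h : F ∈ PMat V ∧ F ⊆ bal r V x₀
    · obtain ⟨r', hr'⟩ := cs_rho hI.fix hI.small x₀ h.1 h.2
      exact ⟨r', fun _ _ => hr'⟩
    · exact ⟨r, fun h1 h2 => absurd ⟨h1, h2⟩ h⟩
  choose R hR using hex
  set E := bal r V x₀ with hE
  have hEsub : E ⊆ V.powersetCard 2 := bal_sub r V x₀
  have hEne : E.Nonempty := bal_nonempty hI.fix hx₀ hd1000
  have hpmem : ∀ {F : Finset (Finset S)},
      (∀ e ∈ F, (if e ∈ E then p' else 0) ≠ 0) → F ⊆ E := by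
    intro F hF e he
    by_contra h
    exact hF e he (if_neg h)
  have hp01 : ∀ e ∈ V.powersetCard 2, 0 ≤ (if e ∈ E then p' else 0) ∧
      (if e ∈ E then p' else 0) ≤ 1 := by
    intro e _
    split_ifs
    · exact ⟨hp0, by linarith⟩
    · exact ⟨le_refl _, by norm_num⟩
  have hB := B_thin (L := G) (r := r) (V := V) (p := fun e => if e ∈ E then p' else 0) (w := w)
    hw0 hp01 R (fun F hF hF' M' hM' hs => (hR F hF (hpmem hF')).2.2.1 M' hM' hs)
  refine hB.trans ?_
  have hterm : ∀ F ∈ PMat V, wt (fun e => if e ∈ E then p' else 0) F * wt w F *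
      B G (R F) (V \ cov F) (fun e => (1 - (if e ∈ E then p' else 0)) * w e) ≤
      wt (fun e => if e ∈ E then p' else 0) F * wt w F *
        ((μ * Psi θ (R F) (V \ cov F) (fun e => K e + if e ∈ E then 1 else 0) +
          (ν * U.card + ρ)) *
          Z (V \ cov F) (fun e => (1 - (if e ∈ E then p' else 0)) * w e) +
          lam * Pt (V \ cov F) (fun e => (1 - (if e ∈ E then p' else 0)) * w e)) := by
    intro F hF
    by_cases hFE : F ⊆ E
    · have hwt : 0 ≤ wt (fun e => if e ∈ E then p' else 0) F * wt w F :=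
        mul_nonneg (cs_wt_nonneg (fun e he => (hp01 e he).1) (cs_PMat_mem hF))
          (cs_wt_nonneg hw0 (cs_PMat_mem hF))
      refine mul_le_mul_of_nonneg_left ?_ hwt
      obtain ⟨h1, h2, -, -⟩ := hR F hF hFE
      have hI' := cs_inv (E := E) hκ hpm1 hI hp0 hpp h1 h2
      have hlt := cs_measure hEsub hEne hb hFE
      rw [hm] at hlt
      have h3 := ih _ hlt (R F) (V \ cov F) _ _ _ rfl hI'
      refine h3.trans ?_
      unfold Bd
      have hw0' : ∀ e ∈ (V \ cov F).powersetCard 2,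
          0 ≤ (1 - (if e ∈ E then p' else 0)) * w e :=
        fun e he => (cs_pos hκ hpm1 hI' e he).1.le
      have hZ' := Z_nonneg hw0'
      have hcardU : ((U ∩ (V \ cov F).powersetCard 2).card : ℝ) ≤ U.card := by
        exact_mod_cast Finset.card_le_card Finset.inter_subset_left
      have h4 : ν * ((U ∩ (V \ cov F).powersetCard 2).card : ℝ) ≤ ν * U.card :=
        mul_le_mul_of_nonneg_left hcardU hν
      have h5 := mul_le_mul_of_nonneg_right (add_le_add_left (add_le_add_right h4 ρ)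
        (μ * Psi θ (R F) (V \ cov F) (fun e => K e + if e ∈ E then 1 else 0))) hZ'
      linarith
    · have h0 : wt (fun e => if e ∈ E then p' else 0) F = 0 := by
        obtain ⟨e, he, heE⟩ := Finset.not_subset.1 hFE
        exact Finset.prod_eq_zero he (if_neg heE)
      rw [h0]
      simp
  refine (Finset.sum_le_sum hterm).trans ?_
  have hsum : ∑ F ∈ PMat V, wt (fun e => if e ∈ E then p' else 0) F * wt w F *
        ((μ * Psi θ (R F) (V \ cov F) (fun e => K e + if e ∈ E then 1 else 0) +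
          (ν * U.card + ρ)) *
          Z (V \ cov F) (fun e => (1 - (if e ∈ E then p' else 0)) * w e) +
          lam * Pt (V \ cov F) (fun e => (1 - (if e ∈ E then p' else 0)) * w e)) =
      μ * (∑ F ∈ PMat V, wt (fun e => if e ∈ E then p' else 0) F * wt w F *
        (Psi θ (R F) (V \ cov F) (fun e => K e + if e ∈ E then 1 else 0) *
          Z (V \ cov F) (fun e => (1 - (if e ∈ E then p' else 0)) * w e))) +
      (ν * U.card + ρ) * (∑ F ∈ PMat V, wt (fun e => if e ∈ E then p' else 0) F * wt w F *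
          Z (V \ cov F) (fun e => (1 - (if e ∈ E then p' else 0)) * w e)) +
      lam * (∑ F ∈ PMat V, wt (fun e => if e ∈ E then p' else 0) F * wt w F *
          Pt (V \ cov F) (fun e => (1 - (if e ∈ E then p' else 0)) * w e)) := by
    rw [Finset.mul_sum, Finset.mul_sum, Finset.mul_sum, ← Finset.sum_add_distrib,
      ← Finset.sum_add_distrib]
    refine Finset.sum_congr rfl fun F _ => ?_
    ring
  rw [hsum, Z_thin V (fun e => if e ∈ E then p' else 0) w,
    Pt_thin V (fun e => if e ∈ E then p' else 0) w (fun e he => (hpos e he).1)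
      (fun e _ => by split_ifs <;> linarith)]
  have hpsi := cut_psi hκ hθ0 hθ hI.fix hq hx₀ hd1000 (p' := p') hp' (by linarith) R
    (fun F hF hFE => (hR F hF hFE).2.1)
    (fun c hc => (hR {c} (single_mem (hEsub hc))
      (Finset.singleton_subset_iff.2 hc)).2.2.2 c rfl) K
  have h6 := mul_le_mul_of_nonneg_left hpsi hμ0
  unfold Bd
  have h7 : (μ * Psi θ r V K + ν * U.card + ρ) * Z V w =
      μ * (Psi θ r V K * Z V w) + (ν * U.card + ρ) * Z V w := by ring
  rw [h7]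
  linarith

theorem cut_step {n G f Km : ℕ} {pm θ κ μ ν ρ lam : ℝ} (hκ : 0 < κ) (hf : 1000 ≤ f) (hfG : f ≤ G)
    (hpm0 : 0 ≤ pm) (hpm1 : pm ≤ 1 / 2) (hpm : (n : ℝ) ≤ 16 * (f : ℝ) ^ 2 * pm)
    (hKm : 1 / 2 ≤ (1 - pm) ^ Km) (hθ0 : 0 ≤ θ) (hθ : Real.exp θ * (1 - 1 / 204800) ≤ 1)
    (hμ0 : 0 ≤ μ) (hμ : 1 ≤ μ * Real.exp (θ * (Km + 1))) (hν : 0 ≤ ν) (hρ : 0 ≤ ρ)
    (hlam : 0 ≤ lam) (H : Good S n G f pm θ κ μ ν ρ lam) : Good S n G G pm θ κ μ ν ρ lam := by
  intro r V w K U hI _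
  exact cs_main hκ hf hpm0 hpm1 hpm hKm hθ0 hθ hμ0 hμ hν hρ hlam H _ r V w K U rfl hI

end Pool.Agent.RSW
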