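import Pool.Agent.RSW.Glue

/-!
# Balanced pairs are separated by many balanced chords (helper13)

Let `D = face r V x₀`, `d = |D|`.  Since `r` fixes all `z ∉ V`, the cycle of every `x ∈ D` is contained in `V`
(if `d ≥ 2`) and equal to `D`; so `r^d x = x` and `x, r x, …, r^(d-1) x` are the elements of `D`, all different
(`Equiv.Perm.SameCycle`, `Equiv.Perm.IsCycleOn`: `r.IsCycleOn D`, `IsCycleOn.pow_apply_eq`,
`IsCycleOn.exists_pow_eq`, `IsCycleOn.range_pow` …).

`sep_many`: let `e = {x, y}`, `y = r^k x`, `d ≤ 4k ≤ 3d`, `0 < k < d`.  Exchanging `x` and `y` (then `k` becomes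
`d - k`, because `r^(d-k) y = x`) we may assume `2 k ≤ d`.  Let `T` be the set of the pairs
`{r^i x, r^j x}` with `1 ≤ i`, `8 i < d`, `5 d ≤ 8 j`, `4 j ≤ 3 d`.  Then `0 < i < k < j < d`, and
`d ≤ 4 (j - i) ≤ 3 d` (`8 (j - i) ≥ 5d - d`), so `T ⊆ bal`; different `(i, j)` give different pairs; the number of
`i` is at least `d/8 - 2`, the number of `j` at least `d/8 - 2`, and `(d/8 - 2)² ≥ d²/100` for `d ≥ 1000`.
Separation: let `u = r^i x`, `v = r^j x` (or the other way round: the two arcs below are exchanged, so it is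
enough to show the statement for the arcs `A = {r^m x : i < m < j}` and `A' = {r^m x : j < m < d + i}`).
`A` is mapped to itself by `glue r u v` and also by `glue r v u`: for `z ∈ A` with `r z ∉ {u, v}` both are `r z ∈ A`
(`r * swap u v` agrees with `r` at `z`); if `r z = v` (`z = r^(j-1) x`) then `r * swap u v` maps `z` to `v` and
`v` to `r u = r^(i+1) x ∈ A` (note `i + 1 ≤ k < j`), so after removing `v` (and `u`, in any order) `z` is mapped to
`r^(i+1) x`.  Since a permutation which maps the finite set `A` to itself has the cycles of the elements of `A`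
inside `A`, and `y = r^k x ∈ A`, `x ∉ A`: `¬ SameCycle (glue r u v) x y`.
-/

namespace Pool.Agent.RSW

open Equiv Finset
open scoped BigOperators

variable {S : Type*} [Fintype S] [DecidableEq S]

theorem bal_sub (r : Perm S) (V : Finset S) (x₀ : S) : bal r V x₀ ⊆ V.powersetCard 2 := by
  intro e he
  unfold bal at he
  rw [mem_filter, mem_powersetCard] at he
  rw [mem_powersetCard]
  exact ⟨he.1.1.trans (filter_subset _ _), he.1.2⟩

theorem bal_same (r : Perm S) (V : Finset S) (x₀ : S) : ∀ e ∈ bal r V x₀, Same r e := by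
  intro e he x hx y hy
  unfold bal at he
  rw [mem_filter, mem_powersetCard] at he
  have h1 := he.1.1 hx
  have h2 := he.1.1 hy
  unfold face at h1 h2
  rw [mem_filter] at h1 h2
  exact h1.2.symm.trans h2.2

theorem bal_card (r : Perm S) (V : Finset S) (x₀ : S) :
    2 * (bal r V x₀).card ≤ (face r V x₀).card ^ 2 := by
  have h1 : (bal r V x₀).card ≤ ((face r V x₀).powersetCard 2).card :=
    card_le_card (filter_subset _ _)
  rw [card_powersetCard, Nat.choose_two_right] at h1
  have h2 : (face r V x₀).card * ((face r V x₀).card - 1) / 2 * 2 ≤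
      (face r V x₀).card * ((face r V x₀).card - 1) := Nat.div_mul_le_self _ _
  have h3 : (face r V x₀).card * ((face r V x₀).card - 1) ≤
      (face r V x₀).card * (face r V x₀).card := Nat.mul_le_mul_left _ (Nat.sub_le _ _)
  rw [pow_two]
  omega

private theorem sepA_mem {r : Perm S} {V : Finset S} (hfix : ∀ z, z ∉ V → r z = z) {x₀ : S}
    (hx : x₀ ∈ V) (y : S) : y ∈ face r V x₀ ↔ r.SameCycle x₀ y := by
  unfold face
  rw [mem_filter]
  refine ⟨fun h => h.2, fun h => ⟨?_, h⟩⟩
  by_contra hy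
  obtain ⟨i, hi⟩ := h.symm
  rw [Equiv.Perm.zpow_apply_eq_self_of_apply_eq_self (hfix y hy)] at hi
  rw [hi] at hy
  exact hy hx

private theorem sepA_cyc {r : Perm S} {V : Finset S} (hfix : ∀ z, z ∉ V → r z = z) {x₀ : S}
    (hx : x₀ ∈ V) : r.IsCycleOn (face r V x₀ : Set S) := by
  have hm := sepA_mem hfix hx
  refine ⟨⟨fun y hy => ?_, r.injective.injOn, fun y hy => ?_⟩, fun y hy z hz => ?_⟩
  · rw [mem_coe, hm] at hy ⊢
    exact Equiv.Perm.sameCycle_apply_right.2 hy
  · rw [mem_coe, hm] at hy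
    refine ⟨r.symm y, ?_, by simp⟩
    rw [mem_coe, hm]
    have h0 : r.SameCycle x₀ (r (r.symm y)) := by rw [Equiv.apply_symm_apply]; exact hy
    exact Equiv.Perm.sameCycle_apply_right.1 h0
  · rw [mem_coe, hm] at hy hz
    exact hy.symm.trans hz

private theorem sepA_inj {r : Perm S} {D : Finset S} (hc : r.IsCycleOn (D : Set S)) {a : S}
    (ha : a ∈ D) {m n : ℕ} (hm : m < D.card) (hn : n < D.card) (h : (r ^ m) a = (r ^ n) a) :
    m = n := by
  have h1 := (hc.pow_apply_eq_pow_apply ha).1 h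
  exact Nat.ModEq.eq_of_lt_of_lt h1 hm hn

private theorem sepA_pow_mem {r : Perm S} {D : Finset S} (hc : r.IsCycleOn (D : Set S)) {a : S}
    (ha : a ∈ D) (m : ℕ) : (r ^ m) a ∈ D := by
  induction m with
  | zero => simpa using ha
  | succ m ih =>
    rw [pow_succ', Equiv.Perm.mul_apply]
    exact hc.1.1 ih

private theorem sepA_succ (r : Perm S) (a : S) (m : ℕ) : r ((r ^ m) a) = (r ^ (m + 1)) a := by
  rw [pow_succ', Equiv.Perm.mul_apply]

private theorem sepA_pair {a b u v : S} (h : ({a, b} : Finset S) = {u, v}) :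
    (a = u ∧ b = v) ∨ (a = v ∧ b = u) := by
  have h1 : ({a, b} : Set S) = {u, v} := by
    rw [← coe_pair, ← coe_pair, h]
  exact Set.pair_eq_pair_iff.1 h1

/-- a balanced pair. -/
private theorem sepA_bal {r : Perm S} {V : Finset S} {x₀ : S} {x y : S} {k : ℕ}
    (hx : x ∈ face r V x₀) (hy : y ∈ face r V x₀) (hxy : x ≠ y)
    (hk : (r ^ k) x = y) (h1 : (face r V x₀).card ≤ 4 * k) (h2 : 4 * k ≤ 3 * (face r V x₀).card)
    (h3 : k < (face r V x₀).card) : ({x, y} : Finset S) ∈ bal r V x₀ := by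
  unfold bal
  rw [mem_filter, mem_powersetCard]
  refine ⟨⟨?_, card_pair hxy⟩, x, by simp, y, by simp, k, mem_range.2 h3, hk, h1, h2⟩
  intro z hz
  rw [mem_insert, mem_singleton] at hz
  rcases hz with rfl | rfl
  · exact hx
  · exact hy

theorem bal_nonempty {r : Perm S} {V : Finset S} (hfix : ∀ z, z ∉ V → r z = z) {x₀ : S}
    (hx : x₀ ∈ V) (hd : 1000 ≤ (face r V x₀).card) : (bal r V x₀).Nonempty := by
  have hc := sepA_cyc hfix hx
  have h0 : x₀ ∈ face r V x₀ := (sepA_mem hfix hx x₀).2 (Equiv.Perm.SameCycle.refl _ _)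
  set d := (face r V x₀).card with hdd
  refine ⟨_, sepA_bal (x := x₀) (y := (r ^ (d / 2)) x₀) (k := d / 2) h0 (sepA_pow_mem hc h0 _)
    ?_ rfl (by omega) (by omega) (by omega)⟩
  intro h
  have h1 : (r ^ 0) x₀ = (r ^ (d / 2)) x₀ := by rw [pow_zero]; exact h
  have h2 := sepA_inj hc h0 (m := 0) (n := d / 2) (by omega) (by omega) h1
  omega

private theorem sepA_case1 (r : Perm S) (u v : S) (A : Finset S) (hu : u ∉ A) (hv : v ∉ A)
    (huv : u ≠ v) (h : ∀ z ∈ A, r z ∈ A ∨ r z = v) (h1 : r u ∈ A) :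
    ∀ z ∈ A, glue r u v z ∈ A := by
  intro z hz
  have hzu : z ≠ u := fun e => hu (e ▸ hz)
  have hzv : z ≠ v := fun e => hv (e ▸ hz)
  have hruu : r u ≠ u := fun e => hu (e ▸ h1)
  have hruv : r u ≠ r v := fun e => huv (r.injective e)
  have e0 : (r * swap u v) u = r v := by simp
  have e1 : (r * swap u v) v = r u := by simp
  have e2 : (r * swap u v) z = r z := by
    rw [Equiv.Perm.mul_apply, swap_apply_of_ne_of_ne hzu hzv]
  have e3 : rem u (r * swap u v) v = r u := by
    unfold rem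
    rw [Equiv.Perm.mul_apply, e0, e1, swap_apply_of_ne_of_ne hruu hruv]
  have hrzu : r z ≠ u := by
    rcases h z hz with h2 | h2
    · exact fun e => hu (e ▸ h2)
    · rw [h2]; exact huv.symm
  have e4 : rem u (r * swap u v) z = r z := by
    unfold rem
    rw [Equiv.Perm.mul_apply, e0, e2,
      swap_apply_of_ne_of_ne hrzu (fun e => hzv (r.injective e))]
  unfold glue
  rw [show rem v (rem u (r * swap u v)) z =
    swap v (rem u (r * swap u v) v) (rem u (r * swap u v) z) from rfl, e3, e4]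
  rcases h z hz with h2 | h2
  · have hk1 : r z ≠ v := fun e => hv (by rw [← e]; exact h2)
    rw [swap_apply_of_ne_of_ne hk1 (fun e => hzu (r.injective e))]
    exact h2
  · rw [h2, swap_apply_left]
    exact h1

private theorem sepA_case2 (r : Perm S) (u v : S) (A : Finset S) (hu : u ∉ A) (hv : v ∉ A)
    (huv : u ≠ v) (h : ∀ z ∈ A, r z ∈ A ∨ r z = u) (h1 : r v ∈ A) (h2 : r u ∉ A)
    (hruu : r u ≠ u) : ∀ z ∈ A, glue r u v z ∈ A := by
  intro z hz
  have hzu : z ≠ u := fun e => hu (e ▸ hz)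
  have hzv : z ≠ v := fun e => hv (e ▸ hz)
  have hruv : r u ≠ r v := fun e => huv (r.injective e)
  have e0 : (r * swap u v) u = r v := by simp
  have e1 : (r * swap u v) v = r u := by simp
  have e2 : (r * swap u v) z = r z := by
    rw [Equiv.Perm.mul_apply, swap_apply_of_ne_of_ne hzu hzv]
  have e3 : rem u (r * swap u v) v = r u := by
    unfold rem
    rw [Equiv.Perm.mul_apply, e0, e1, swap_apply_of_ne_of_ne hruu hruv]
  have e4 : rem u (r * swap u v) z ∈ A := by
    unfold rem
    rw [Equiv.Perm.mul_apply, e0, e2]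
    rcases h z hz with h3 | h3
    · have hk1 : r z ≠ u := fun e => hu (by rw [← e]; exact h3)
      rw [swap_apply_of_ne_of_ne hk1 (fun e => hzv (r.injective e))]
      exact h3
    · rw [h3, swap_apply_left]
      exact h1
  have hk2 : rem u (r * swap u v) z ≠ v := fun e => hv (by rw [← e]; exact e4)
  have hk3 : rem u (r * swap u v) z ≠ r u := fun e => h2 (by rw [← e]; exact e4)
  unfold glue
  rw [show rem v (rem u (r * swap u v)) z =
    swap v (rem u (r * swap u v) v) (rem u (r * swap u v) z) from rfl, e3,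
    swap_apply_of_ne_of_ne hk2 hk3]
  exact e4

private theorem sepA_not_same {f : Perm S} {A : Finset S} (h : ∀ z ∈ A, f z ∈ A) {a b : S}
    (hb : b ∈ A) (ha : a ∉ A) : ¬ f.SameCycle b a := by
  intro hs
  obtain ⟨n, hn⟩ := hs.exists_nat_pow_eq
  have h1 : ∀ m : ℕ, (f ^ m) b ∈ A := by
    intro m
    induction m with
    | zero => simpa using hb
    | succ m ih =>
      rw [pow_succ', Equiv.Perm.mul_apply]
      exact h _ ih
  exact ha (hn ▸ h1 n)

/-- separation by one chord. -/
private theorem sepA_sep {r : Perm S} {D : Finset S} (hc : r.IsCycleOn (D : Set S)) {a : S}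
    (ha : a ∈ D) {i k j : ℕ} (h1 : 1 ≤ i) (h2 : i < k) (h3 : k < j) (h4 : j + 1 < D.card)
    {u v : S} (h : ({(r ^ i) a, (r ^ j) a} : Finset S) = {u, v}) :
    ¬ (glue r u v).SameCycle ((r ^ k) a) a := by
  set A : Finset S := (Ioo i j).image (fun m => (r ^ m) a) with hA
  have hmem : ∀ m, m < D.card → ((r ^ m) a ∈ A ↔ i < m ∧ m < j) := by
    intro m hm
    rw [hA, mem_image]
    constructor
    · rintro ⟨m', hm', e⟩
      rw [mem_Ioo] at hm'
      have := sepA_inj hc ha (by omega) hm e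
      omega
    · intro hm'
      exact ⟨m, mem_Ioo.2 hm', rfl⟩
  have hiA : (r ^ i) a ∉ A := by rw [hmem i (by omega)]; omega
  have hjA : (r ^ j) a ∉ A := by rw [hmem j (by omega)]; omega
  have hj1A : (r ^ (j + 1)) a ∉ A := by rw [hmem (j + 1) (by omega)]; omega
  have hi1A : (r ^ (i + 1)) a ∈ A := by rw [hmem (i + 1) (by omega)]; omega
  have hkA : (r ^ k) a ∈ A := by rw [hmem k (by omega)]; omega
  have haA : a ∉ A := by
    have := hmem 0 (by omega)
    rw [pow_zero, Equiv.Perm.one_apply] at this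
    rw [this]
    omega
  have hij : (r ^ i) a ≠ (r ^ j) a := fun e => by
    have := sepA_inj hc ha (by omega) (by omega) e
    omega
  have hstep : ∀ z ∈ A, r z ∈ A ∨ r z = (r ^ j) a := by
    intro z hz
    rw [hA, mem_image] at hz
    obtain ⟨m, hm, rfl⟩ := hz
    rw [mem_Ioo] at hm
    rw [sepA_succ]
    by_cases hmj : m + 1 = j
    · right
      rw [hmj]
    · left
      rw [hmem (m + 1) (by omega)]
      omega
  rcases sepA_pair h with ⟨rfl, rfl⟩ | ⟨rfl, rfl⟩
  · refine sepA_not_same (sepA_case1 r _ _ A hiA hjA hij hstep ?_) hkA haA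
    rw [sepA_succ]
    exact hi1A
  · refine sepA_not_same (sepA_case2 r _ _ A hjA hiA hij.symm hstep ?_ ?_ ?_) hkA haA
    · rw [sepA_succ]
      exact hi1A
    · rw [sepA_succ]
      exact hj1A
    · rw [sepA_succ]
      intro e
      have := sepA_inj hc ha (by omega) (by omega) e
      omega

private theorem sepA_main {r : Perm S} {V : Finset S} (hfix : ∀ z, z ∉ V → r z = z) {x₀ : S}
    (hx : x₀ ∈ V) (hd : 1000 ≤ (face r V x₀).card) {e : Finset S} {a : S} {k : ℕ}
    (ha : a ∈ face r V x₀) (hae : a ∈ e) (hbe : (r ^ k) a ∈ e)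
    (h1 : (face r V x₀).card ≤ 4 * k) (h2 : 2 * k ≤ (face r V x₀).card) :
    ∃ T ⊆ bal r V x₀, (face r V x₀).card ^ 2 ≤ 100 * T.card ∧
      ∀ c ∈ T, ∀ u v, c = {u, v} → ¬ Same (glue r u v) e := by
  have hc := sepA_cyc hfix hx
  set D := face r V x₀ with hD
  set d := D.card with hdd
  set I : Finset ℕ := Ico 1 ((d + 7) / 8) with hI
  set J : Finset ℕ := Ico ((5 * d + 7) / 8) (3 * d / 4 + 1) with hJ
  have hIc : d ≤ 10 * I.card := by rw [hI, Nat.card_Ico]; omega
  have hJc : d ≤ 10 * J.card := by rw [hJ, Nat.card_Ico]; omega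
  have hbd : ∀ q ∈ I ×ˢ J, 1 ≤ q.1 ∧ 8 * q.1 < d ∧ 5 * d ≤ 8 * q.2 ∧ 4 * q.2 ≤ 3 * d := by
    intro q hq
    rw [mem_product, hI, hJ, mem_Ico, mem_Ico] at hq
    omega
  refine ⟨(I ×ˢ J).image (fun q => {(r ^ q.1) a, (r ^ q.2) a}), ?_, ?_, ?_⟩
  · intro c hcT
    rw [mem_image] at hcT
    obtain ⟨q, hq, rfl⟩ := hcT
    obtain ⟨b1, b2, b3, b4⟩ := hbd q hq
    refine sepA_bal (k := q.2 - q.1) (sepA_pow_mem hc ha _) (sepA_pow_mem hc ha _) ?_ ?_ ?_ ?_ ?_
    · intro e
      have := sepA_inj hc ha (by omega) (by omega) e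
      omega
    · rw [← Equiv.Perm.mul_apply, ← pow_add]
      congr 2
      omega
    · change d ≤ _
      omega
    · change _ ≤ 3 * d
      omega
    · change _ < d
      omega
  · have hinj : Set.InjOn (fun q : ℕ × ℕ => ({(r ^ q.1) a, (r ^ q.2) a} : Finset S))
        (I ×ˢ J : Finset (ℕ × ℕ)) := by
      intro q hq q' hq' heq
      obtain ⟨b1, b2, b3, b4⟩ := hbd q hq
      obtain ⟨c1, c2, c3, c4⟩ := hbd q' hq'
      rcases sepA_pair heq with ⟨e1, e2⟩ | ⟨e1, e2⟩
      · have f1 := sepA_inj hc ha (by omega) (by omega) e1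
        have f2 := sepA_inj hc ha (by omega) (by omega) e2
        exact Prod.ext f1 f2
      · have f1 := sepA_inj hc ha (by omega) (by omega) e1
        omega
    rw [card_image_of_injOn hinj, card_product]
    calc d ^ 2 = d * d := pow_two d
      _ ≤ (10 * I.card) * (10 * J.card) := Nat.mul_le_mul hIc hJc
      _ = 100 * (I.card * J.card) := by ring
  · intro c hcT u v hcuv hsame
    rw [mem_image] at hcT
    obtain ⟨q, hq, rfl⟩ := hcT
    obtain ⟨b1, b2, b3, b4⟩ := hbd q hq
    exact sepA_sep hc ha b1 (by omega) (by omega) (by omega) hcuv (hsame _ hbe _ hae)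

theorem sep_many {r : Perm S} {V : Finset S} (hfix : ∀ z, z ∉ V → r z = z) {x₀ : S}
    (hx : x₀ ∈ V) (hd : 1000 ≤ (face r V x₀).card) {e : Finset S} (he : e ∈ bal r V x₀) :
    ∃ T ⊆ bal r V x₀, (face r V x₀).card ^ 2 ≤ 100 * T.card ∧
      ∀ c ∈ T, ∀ u v, c = {u, v} → ¬ Same (glue r u v) e := by
  have hc := sepA_cyc hfix hx
  unfold bal at he
  rw [mem_filter, mem_powersetCard] at he
  obtain ⟨⟨hsub, -⟩, x, hxe, y, hye, k, hk, hxy, h1, h2⟩ := he
  rw [mem_range] at hk
  by_cases h3 : 2 * k ≤ (face r V x₀).card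
  · exact sepA_main hfix hx hd (hsub hxe) hxe (by rw [hxy]; exact hye) h1 h3
  · refine sepA_main hfix hx hd (a := y) (k := (face r V x₀).card - k) (hsub hye) hye ?_
      (by omega) (by omega)
    have e1 : (r ^ ((face r V x₀).card - k)) y = x := by
      rw [← hxy, ← Equiv.Perm.mul_apply, ← pow_add, Nat.sub_add_cancel hk.le]
      exact hc.pow_card_apply (hsub hxe)
    rw [e1]
    exact hxe

end Pool.Agent.RSW
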