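import Pool.Agent.RSW.Mat

/-!
# Thinning (helper13)

`wt p F * wt w F * wt ((1-p) w) M'` summed over `F ∈ PMat V`, `M' ∈ PM (V \ cov F)` is by `sum_split` the sum
over `M ∈ PM V` of `∑_{F ⊆ M} ∏_{e ∈ F} (p e * w e) ∏_{e ∈ M \ F} ((1 - p e) * w e)`, which is
`∏_{e ∈ M} (p e * w e + (1 - p e) * w e) = wt w M` (`Finset.prod_add`).  This is `Z_thin`.

`B_thin`: for `M ∈ PM V` which cannot be swept expand `wt w M` in this way.  If `wt p F ≠ 0` then `M \ F`
cannot be swept from `ρ F`, `V \ cov F` by `hρ` (`M = F ∪ (M \ F)`).  So the sum over the bad `M` and all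
`F ⊆ M` is at most the sum over all `M ∈ PM V`, `F ⊆ M` with `M \ F` bad for `ρ F` (all terms are nonnegative).
Apply `sum_split`.

`Pt_thin`: by `sum_split` the left side is the sum over `M ∈ PM V`, `F ⊆ M` and `e ∈ M \ F` of
`∏_F (p w) ∏_{M \ F} ((1-p) w) / ((1 - p e) * w e)`.  For fixed `M`, `e` the sum over `F ⊆ M.erase e` of
`∏_F (p w) ∏_{(M.erase e) \ F} ((1-p) w)` is `wt w (M.erase e) = wt w M / w e`.
-/

set_option linter.all false

namespace Pool.Agent.RSW

open Equiv Finset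
open scoped BigOperators

variable {S : Type*} [Fintype S] [DecidableEq S]

private theorem thin_sub {V : Finset S} {M : Finset (Finset S)} (hM : M ∈ PM V) :
    M ⊆ V.powersetCard 2 := by
  unfold PM at hM
  exact Finset.mem_powerset.1 (Finset.mem_filter.1 hM).1

omit [Fintype S] in
private theorem thin_sum (p w : Finset S → ℝ) (M : Finset (Finset S)) :
    ∑ F ∈ M.powerset, wt p F * wt w F * wt (fun e => (1 - p e) * w e) (M \ F) = wt w M := by
  have h := Finset.prod_add (fun e => p e * w e) (fun e => (1 - p e) * w e) M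
  have h1 : ∏ e ∈ M, (p e * w e + (1 - p e) * w e) = wt w M := by
    unfold wt
    exact Finset.prod_congr rfl fun e _ => by ring
  rw [h1] at h
  rw [h]
  refine Finset.sum_congr rfl fun F _ => ?_
  unfold wt
  rw [Finset.prod_mul_distrib (s := F)]

theorem Z_thin (V : Finset S) (p w : Finset S → ℝ) :
    ∑ F ∈ PMat V, wt p F * wt w F * Z (V \ cov F) (fun e => (1 - p e) * w e) = Z V w := by
  unfold Z
  have h := sum_split V (fun F M' => wt p F * wt w F * wt (fun e => (1 - p e) * w e) M')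
  calc ∑ F ∈ PMat V, wt p F * wt w F * ∑ M ∈ PM (V \ cov F), wt (fun e => (1 - p e) * w e) M
      = ∑ F ∈ PMat V, ∑ M' ∈ PM (V \ cov F),
          wt p F * wt w F * wt (fun e => (1 - p e) * w e) M' := by
        refine Finset.sum_congr rfl fun F _ => ?_
        rw [Finset.mul_sum]
    _ = ∑ M ∈ PM V, ∑ F ∈ M.powerset,
          wt p F * wt w F * wt (fun e => (1 - p e) * w e) (M \ F) := h.symm
    _ = ∑ M ∈ PM V, wt w M := Finset.sum_congr rfl fun M _ => thin_sum p w M

omit [Fintype S] in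
private theorem thin_inv (w : Finset S → ℝ) (M : Finset (Finset S)) (hw : ∀ e ∈ M, w e ≠ 0) :
    wt w M * ∑ e ∈ M, (w e)⁻¹ = ∑ e ∈ M, wt w (M.erase e) := by
  rw [Finset.mul_sum]
  refine Finset.sum_congr rfl fun e he => ?_
  unfold wt
  rw [← Finset.mul_prod_erase M w he]
  have := hw e he
  field_simp

theorem Pt_thin (V : Finset S) (p w : Finset S → ℝ) (hw : ∀ e ∈ V.powersetCard 2, 0 < w e)
    (hp : ∀ e ∈ V.powersetCard 2, p e < 1) :
    ∑ F ∈ PMat V, wt p F * wt w F * Pt (V \ cov F) (fun e => (1 - p e) * w e) = Pt V w := by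
  unfold Pt
  have h := sum_split V (fun F M' => wt p F * wt w F *
    (wt (fun e => (1 - p e) * w e) M' * ∑ e ∈ M', ((1 - p e) * w e)⁻¹))
  calc ∑ F ∈ PMat V, wt p F * wt w F * ∑ M ∈ PM (V \ cov F),
        wt (fun e => (1 - p e) * w e) M * ∑ e ∈ M, ((1 - p e) * w e)⁻¹
      = ∑ F ∈ PMat V, ∑ M' ∈ PM (V \ cov F), wt p F * wt w F *
          (wt (fun e => (1 - p e) * w e) M' * ∑ e ∈ M', ((1 - p e) * w e)⁻¹) := by
        refine Finset.sum_congr rfl fun F _ => ?_
        rw [Finset.mul_sum]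
    _ = ∑ M ∈ PM V, ∑ F ∈ M.powerset, wt p F * wt w F *
          (wt (fun e => (1 - p e) * w e) (M \ F) * ∑ e ∈ M \ F, ((1 - p e) * w e)⁻¹) := h.symm
    _ = ∑ M ∈ PM V, wt w M * ∑ e ∈ M, (w e)⁻¹ := by
        refine Finset.sum_congr rfl fun M hM => ?_
        have hsub := thin_sub hM
        have hw1 : ∀ e ∈ M, w e ≠ 0 := fun e he => (hw e (hsub he)).ne'
        have hw2 : ∀ e ∈ M, (1 - p e) * w e ≠ 0 := fun e he =>
          mul_ne_zero (by have := hp e (hsub he); linarith) (hw1 e he)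
        rw [thin_inv w M hw1]
        have h2 : ∀ F ∈ M.powerset, wt p F * wt w F *
            (wt (fun e => (1 - p e) * w e) (M \ F) * ∑ e ∈ M \ F, ((1 - p e) * w e)⁻¹) =
            ∑ e ∈ M \ F, wt p F * wt w F * wt (fun e => (1 - p e) * w e) ((M.erase e) \ F) := by
          intro F _
          rw [thin_inv (fun e => (1 - p e) * w e) (M \ F)
            (fun e he => hw2 e (Finset.mem_sdiff.1 he).1), Finset.mul_sum]
          refine Finset.sum_congr rfl fun e _ => ?_
          rw [Finset.erase_sdiff_comm]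
        rw [Finset.sum_congr rfl h2]
        rw [Finset.sum_comm' (t' := M) (s' := fun e => (M.erase e).powerset)]
        · exact Finset.sum_congr rfl fun e _ => thin_sum p w (M.erase e)
        · intro F e
          rw [Finset.mem_powerset, Finset.mem_sdiff, Finset.mem_powerset]
          constructor
          · rintro ⟨h3, h4, h5⟩
            exact ⟨fun x hx => Finset.mem_erase.2 ⟨fun h6 => h5 (h6 ▸ hx), h3 hx⟩, h4⟩
          · rintro ⟨h3, h4⟩
            exact ⟨h3.trans (Finset.erase_subset _ _), h4, fun h5 =>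
              (Finset.mem_erase.1 (h3 h5)).1 rfl⟩

theorem B_thin {L : ℕ} {r : Perm S} {V : Finset S} {p w : Finset S → ℝ}
    (hw : ∀ e ∈ V.powersetCard 2, 0 ≤ w e) (hp : ∀ e ∈ V.powersetCard 2, 0 ≤ p e ∧ p e ≤ 1)
    (ρ : Finset (Finset S) → Perm S)
    (hρ : ∀ F ∈ PMat V, (∀ e ∈ F, p e ≠ 0) → ∀ M' ∈ PM (V \ cov F),
      Sweep L (ρ F) (V \ cov F) M' → Sweep L r V (F ∪ M')) :
    B L r V w ≤
      ∑ F ∈ PMat V, wt p F * wt w F * B L (ρ F) (V \ cov F) (fun e => (1 - p e) * w e) := by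
  classical
  unfold B
  have h := sum_split V (fun F M' => if ¬ Sweep L (ρ F) (V \ cov F) M' then
    wt p F * wt w F * wt (fun e => (1 - p e) * w e) M' else 0)
  have hrhs : ∑ F ∈ PMat V, wt p F * wt w F *
      ∑ M ∈ (PM (V \ cov F)).filter (fun M => ¬ Sweep L (ρ F) (V \ cov F) M),
        wt (fun e => (1 - p e) * w e) M =
      ∑ M ∈ PM V, ∑ F ∈ M.powerset, (if ¬ Sweep L (ρ F) (V \ cov F) (M \ F) then
        wt p F * wt w F * wt (fun e => (1 - p e) * w e) (M \ F) else 0) := by
    rw [h]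
    refine Finset.sum_congr rfl fun F _ => ?_
    rw [Finset.mul_sum, Finset.sum_filter]
  have hnn : ∀ M ∈ PM V, ∀ F ∈ M.powerset,
      0 ≤ wt p F * wt w F * wt (fun e => (1 - p e) * w e) (M \ F) := by
    intro M hM F hF
    have hsub := thin_sub hM
    rw [Finset.mem_powerset] at hF
    unfold wt
    refine mul_nonneg (mul_nonneg ?_ ?_) ?_
    · exact Finset.prod_nonneg fun e he => (hp e (hsub (hF he))).1
    · exact Finset.prod_nonneg fun e he => hw e (hsub (hF he))
    · refine Finset.prod_nonneg fun e he => ?_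
      have he' := hsub (Finset.mem_sdiff.1 he).1
      exact mul_nonneg (by have := (hp e he').2; linarith) (hw e he')
  have hterm : ∀ M ∈ PM V, 0 ≤ ∑ F ∈ M.powerset,
      (if ¬ Sweep L (ρ F) (V \ cov F) (M \ F) then
        wt p F * wt w F * wt (fun e => (1 - p e) * w e) (M \ F) else 0) := by
    intro M hM
    refine Finset.sum_nonneg fun F hF => ?_
    by_cases hs : Sweep L (ρ F) (V \ cov F) (M \ F)
    · rw [if_neg (not_not_intro hs)]
    · rw [if_pos hs]
      exact hnn M hM F hF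
  refine le_trans ?_ (le_of_eq hrhs.symm)
  refine le_trans (Finset.sum_le_sum (fun M hM => ?_))
    (Finset.sum_le_sum_of_subset_of_nonneg (Finset.filter_subset _ _) fun M hM _ => hterm M hM)
  rw [Finset.mem_filter] at hM
  obtain ⟨hM, hbad⟩ := hM
  rw [← thin_sum p w M]
  refine Finset.sum_le_sum fun F hF => ?_
  have hF' := Finset.mem_powerset.1 hF
  by_cases h0 : wt p F = 0
  · rw [h0]
    simp
  · have hne : ∀ e ∈ F, p e ≠ 0 := by
      unfold wt at h0
      exact Finset.prod_ne_zero_iff.1 h0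
    have hs := sdiff_mem hM hF'
    have hnot : ¬ Sweep L (ρ F) (V \ cov F) (M \ F) := by
      intro hsw
      have h3 := hρ F hs.1 hne (M \ F) hs.2 hsw
      rw [Finset.union_sdiff_of_subset hF'] at h3
      exact hbad h3
    rw [if_pos hnot]

end Pool.Agent.RSW
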