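import Pool.Agent.RSW.Single
import Pool.Agent.RSW.Thin
import Pool.Agent.RSW.Sep

/-!
# The potential is a supermartingale for the cut steps (helper13)

`D` the face of `x₀`, `d = |D| ≥ 1000`, `E = bal r V x₀`, `p' = |V| / (32 d²) ≤ 1`.  Put
`mass F = wt p F * wt w F * Z (V \ cov F) ((1-p) w) ≥ 0`; `∑_F mass F = Z V w` by `Z_thin`; `mass F = 0` unless
`F ⊆ E`.  The left side is `∑_F mass F * Ψ_F` where `Ψ_F` is a sum over `e ∈ (V \ cov F).powersetCard 2`; all terms
are nonnegative, so it is at most `∑_{e ∈ V.powersetCard 2} ∑_F mass F * term`, where for `F` with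
`¬ e ⊆ V \ cov F` the term is dropped (is zero).
* `e ∉ E`: `K' e = K e`, and `Same (ρ F) e` implies `Same r e` (`h1`), so the sum over `F` is at most
  `exp (θ K e) (1 + [Same r e]) Z V w`.
* `e ∈ E`: `Same r e` (`bal_same`), the term is at most `exp θ * exp (θ K e) * (2 - [F = {c}, c ∈ T])`, with `T` from
  `sep_many` (`ρ {c} = glue r u v`, `c = {u, v}` by `h2`, so `¬ Same (ρ {c}) e`).  By `single_mass`
  (`32 p' |E| ≤ |V| / 2 ≤ |V| - 3` by `bal_card`)
  `∑_{c ∈ T} mass {c} ≥ |T| p' Z V w / (32 (|V| - 1)) ≥ (d²/100) (|V| / (32 d²)) Z V w / (32 |V|) = Z V w / 102400`.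
  So the sum over `F` is at most `exp θ (2 - 1/102400) exp (θ K e) Z V w ≤ 2 exp (θ K e) Z V w` by `hθ`.
-/

namespace Pool.Agent.RSW

open Equiv Finset
open scoped BigOperators

variable {S : Type*} [Fintype S] [DecidableEq S]

private theorem cp_wt_nonneg {V : Finset S} {w : Finset S → ℝ}
    (hw : ∀ e ∈ V.powersetCard 2, 0 ≤ w e) {F : Finset (Finset S)}
    (hF : ∀ e ∈ F, e ⊆ V ∧ e.card = 2) : 0 ≤ wt w F := by
  unfold wt
  exact Finset.prod_nonneg fun e he => hw e (Finset.mem_powersetCard.2 (hF e he))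

private theorem cp_Z_nonneg {V W : Finset S} {w : Finset S → ℝ} (hWV : W ⊆ V)
    (hw : ∀ e ∈ V.powersetCard 2, 0 ≤ w e) : 0 ≤ Z W w := by
  unfold Z
  refine Finset.sum_nonneg fun M hM => ?_
  refine cp_wt_nonneg (V := W) (fun e he => hw e ?_) (mem_PM.1 hM).1
  rw [Finset.mem_powersetCard] at he ⊢
  exact ⟨he.1.trans hWV, he.2⟩

theorem cut_psi {r : Perm S} {V : Finset S} {w : Finset S → ℝ} {κ θ : ℝ} (hκ : 0 < κ)
    (hθ0 : 0 ≤ θ) (hθ : Real.exp θ * (1 - 1 / 204800) ≤ 1)
    (hfix : ∀ z, z ∉ V → r z = z)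
    (hw : ∀ e ∈ V.powersetCard 2, κ / 4 ≤ w e ∧ w e ≤ κ) {x₀ : S} (hx : x₀ ∈ V)
    (hd : 1000 ≤ (face r V x₀).card) {p' : ℝ}
    (hp : p' = (V.card : ℝ) / (32 * ((face r V x₀).card : ℝ) ^ 2)) (hp1 : p' ≤ 1)
    (ρ : Finset (Finset S) → Perm S)
    (h1 : ∀ F ∈ PMat V, F ⊆ bal r V x₀ → ∀ a b, (ρ F).SameCycle a b → r.SameCycle a b)
    (h2 : ∀ c ∈ bal r V x₀, ∃ u v, c = {u, v} ∧ ρ {c} = glue r u v) (K : Finset S → ℕ) :
    ∑ F ∈ PMat V, wt (fun e => if e ∈ bal r V x₀ then p' else 0) F * wt w F *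
        (Psi θ (ρ F) (V \ cov F) (fun e => K e + if e ∈ bal r V x₀ then 1 else 0) *
          Z (V \ cov F) (fun e => (1 - (if e ∈ bal r V x₀ then p' else 0)) * w e)) ≤
      Psi θ r V K * Z V w := by
  classical
  set E := bal r V x₀ with hE
  set p : Finset S → ℝ := fun e => if e ∈ E then p' else 0 with hpdef
  set d := (face r V x₀).card with hddef
  have hdR : (1000 : ℝ) ≤ (d : ℝ) := by exact_mod_cast hd
  have hdV : d ≤ V.card := Finset.card_le_card (Finset.filter_subset _ _)
  have hVR : (1000 : ℝ) ≤ (V.card : ℝ) := by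
    have : (d : ℝ) ≤ (V.card : ℝ) := by exact_mod_cast hdV
    linarith
  have hp0 : 0 ≤ p' := by rw [hp]; positivity
  have hpnn : ∀ e, 0 ≤ p e := by
    intro e
    simp only [hpdef]
    split_ifs
    · exact hp0
    · exact le_refl _
  have hple : ∀ e, p e ≤ 1 := by
    intro e
    simp only [hpdef]
    split_ifs
    · exact hp1
    · exact zero_le_one
  have hwnn : ∀ e ∈ V.powersetCard 2, 0 ≤ w e := by
    intro e he
    have := (hw e he).1
    linarith
  have hvnn : ∀ e ∈ V.powersetCard 2, 0 ≤ (1 - p e) * w e := by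
    intro e he
    exact mul_nonneg (by linarith [hple e]) (hwnn e he)
  set mass : Finset (Finset S) → ℝ := fun F =>
    wt p F * wt w F * Z (V \ cov F) (fun e => (1 - p e) * w e) with hmass
  have hmnn : ∀ F ∈ PMat V, 0 ≤ mass F := by
    intro F hF
    have hF' := (mem_PMat.1 hF).1
    simp only [hmass]
    refine mul_nonneg (mul_nonneg ?_ ?_) ?_
    · unfold wt
      exact Finset.prod_nonneg fun e _ => hpnn e
    · exact cp_wt_nonneg hwnn hF'
    · exact cp_Z_nonneg Finset.sdiff_subset hvnn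
  have hmsum : ∑ F ∈ PMat V, mass F = Z V w := Z_thin V p w
  have hm0 : ∀ F, ¬ F ⊆ E → mass F = 0 := by
    intro F hF
    obtain ⟨e, heF, heE⟩ := Finset.not_subset.1 hF
    have : wt p F = 0 := by
      unfold wt
      refine Finset.prod_eq_zero heF ?_
      simp only [hpdef]
      rw [if_neg heE]
    simp only [hmass]
    rw [this]
    ring
  have hZnn : 0 ≤ Z V w := cp_Z_nonneg (Finset.Subset.refl _) hwnn
  -- the sets `T e`
  have hT : ∀ e ∈ E, ∃ T ⊆ E, d ^ 2 ≤ 100 * T.card ∧
      ∀ c ∈ T, ∀ u v, c = {u, v} → ¬ Same (glue r u v) e := fun e he =>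
    sep_many hfix hx hd he
  choose! T hTE hTc hTs using hT
  set ind : Finset (Finset S) → Finset S → ℝ := fun F e =>
    if ∃ c ∈ T e, F = {c} then 1 else 0 with hind
  have hind0 : ∀ F e, 0 ≤ ind F e := by
    intro F e
    simp only [hind]
    split_ifs
    · exact zero_le_one
    · exact le_refl _
  have hind1 : ∀ F e, ind F e ≤ 1 := by
    intro F e
    simp only [hind]
    split_ifs
    · exact le_refl _
    · exact zero_le_one
  set b : Finset (Finset S) → Finset S → ℝ := fun F e =>
    if e ∈ E then Real.exp θ * Real.exp (θ * K e) * (2 - ind F e)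
    else Real.exp (θ * K e) * (1 + if Same r e then 1 else 0) with hb
  have hbnn : ∀ F e, 0 ≤ b F e := by
    intro F e
    simp only [hb]
    split_ifs
    · have := hind1 F e
      exact mul_nonneg (by positivity) (by linarith)
    · positivity
    · positivity
  have hPsi : ∀ F ∈ PMat V, F ⊆ E →
      Psi θ (ρ F) (V \ cov F) (fun e => K e + if e ∈ E then 1 else 0) ≤
        ∑ e ∈ V.powersetCard 2, b F e := by
    intro F hF hFE
    unfold Psi
    have hsub : (V \ cov F).powersetCard 2 ⊆ V.powersetCard 2 :=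
      Finset.powersetCard_mono Finset.sdiff_subset
    refine le_trans (Finset.sum_le_sum ?_)
      (Finset.sum_le_sum_of_subset_of_nonneg hsub fun e _ _ => hbnn F e)
    intro e he
    simp only [hb]
    by_cases heE : e ∈ E
    · rw [if_pos heE, if_pos heE]
      have hexp : Real.exp (θ * ((K e + 1 : ℕ) : ℝ)) = Real.exp θ * Real.exp (θ * K e) := by
        rw [← Real.exp_add]
        congr 1
        push_cast
        ring
      rw [hexp]
      refine mul_le_mul_of_nonneg_left ?_ (by positivity)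
      simp only [hind]
      by_cases hc : ∃ c ∈ T e, F = {c}
      · rw [if_pos hc]
        obtain ⟨c, hcT, rfl⟩ := hc
        obtain ⟨u, v, huv, hρ⟩ := h2 c (hTE e heE hcT)
        have hns : ¬ Same (ρ {c}) e := by
          rw [hρ]
          exact hTs e heE c hcT u v huv
        rw [if_neg hns]
        norm_num
      · rw [if_neg hc]
        split_ifs <;> norm_num
    · rw [if_neg heE, if_neg heE, Nat.add_zero]
      refine mul_le_mul_of_nonneg_left ?_ (by positivity)
      by_cases hs : Same (ρ F) e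
      · have hs' : Same r e := fun a ha c hc => h1 F hF hFE a c (hs a ha c hc)
        rw [if_pos hs, if_pos hs']
      · rw [if_neg hs]
        split_ifs <;> norm_num
  have hcard2 : 2 * E.card ≤ d ^ 2 := bal_card r V x₀
  have hcard2R : 2 * (E.card : ℝ) ≤ (d : ℝ) ^ 2 := by exact_mod_cast hcard2
  have hd2 : (0 : ℝ) < (d : ℝ) ^ 2 := by positivity
  have hpd : 32 * p' * (d : ℝ) ^ 2 = (V.card : ℝ) := by
    rw [hp]
    field_simp
  have hpE : 32 * p' * E.card ≤ (V.card : ℝ) - 3 := by
    have h3 : 32 * p' * (2 * (E.card : ℝ)) ≤ 32 * p' * (d : ℝ) ^ 2 :=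
      mul_le_mul_of_nonneg_left hcard2R (by positivity)
    nlinarith
  have hV6 : 6 ≤ V.card := by omega
  have hsm : ∀ c ∈ E, p' * Z V w ≤ 32 * ((V.card : ℝ) - 1) * mass {c} := by
    intro c hc
    have h4 := single_mass hκ hw (bal_sub r V x₀) hp0 hp1 hV6 hpE hc
    have h5 : mass {c} = p' * w c * Z (V \ c) (fun e => (1 - (if e ∈ E then p' else 0)) * w e) := by
      simp only [hmass, cov_single]
      unfold wt
      rw [Finset.prod_singleton, Finset.prod_singleton]
      simp only [hpdef]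
      rw [if_pos hc]
    rw [h5]
    exact h4
  have hkey : ∀ e ∈ E, Z V w ≤ 102400 * ∑ F ∈ PMat V, mass F * ind F e := by
    intro e he
    have h6 : ∑ c ∈ T e, mass {c} ≤ ∑ F ∈ PMat V, mass F * ind F e := by
      have h7 : ∑ c ∈ T e, mass {c} = ∑ F ∈ (T e).image (fun c => ({c} : Finset (Finset S))),
          mass F * ind F e := by
        rw [Finset.sum_image (fun a _ c _ h => Finset.singleton_injective h)]
        refine Finset.sum_congr rfl fun c hc => ?_
        have : ind {c} e = 1 := by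
          simp only [hind]
          rw [if_pos ⟨c, hc, rfl⟩]
        rw [this, mul_one]
      rw [h7]
      refine Finset.sum_le_sum_of_subset_of_nonneg ?_ ?_
      · intro F hF
        obtain ⟨c, hc, rfl⟩ := Finset.mem_image.1 hF
        exact single_mem (bal_sub r V x₀ (hTE e he hc))
      · intro F hF _
        exact mul_nonneg (hmnn F hF) (hind0 F e)
    have h8 : (T e).card * (p' * Z V w) ≤ 32 * ((V.card : ℝ) - 1) * ∑ c ∈ T e, mass {c} := by
      rw [Finset.mul_sum, ← nsmul_eq_mul]
      exact Finset.card_nsmul_le_sum _ _ _ fun c hc => hsm c (hTE e he hc)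
    have h9 : (d : ℝ) ^ 2 ≤ 100 * ((T e).card : ℝ) := by exact_mod_cast hTc e he
    have hS0 : 0 ≤ ∑ c ∈ T e, mass {c} := Finset.sum_nonneg fun c hc =>
      hmnn _ (single_mem (bal_sub r V x₀ (hTE e he hc)))
    have h10 : (d : ℝ) ^ 2 * (p' * Z V w) ≤ 100 * ((T e).card * (p' * Z V w)) := by
      have := mul_le_mul_of_nonneg_right h9 (mul_nonneg hp0 hZnn)
      linarith
    have h11 : (V.card : ℝ) * Z V w ≤ 3200 * ((T e).card * (p' * Z V w)) := by
      have : (V.card : ℝ) * Z V w = 32 * ((d : ℝ) ^ 2 * (p' * Z V w)) := by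
        rw [← hpd]; ring
      rw [this]
      linarith
    have h12 : 3200 * ((T e).card * (p' * Z V w)) ≤
        (V.card : ℝ) * (102400 * ∑ c ∈ T e, mass {c}) := by
      nlinarith
    have h13 : (V.card : ℝ) * Z V w ≤ (V.card : ℝ) * (102400 * ∑ c ∈ T e, mass {c}) :=
      h11.trans h12
    have h14 : Z V w ≤ 102400 * ∑ c ∈ T e, mass {c} :=
      le_of_mul_le_mul_left h13 (by linarith)
    linarith
  have hper : ∀ e ∈ V.powersetCard 2, ∑ F ∈ PMat V, mass F * b F e ≤
      Real.exp (θ * K e) * (1 + if Same r e then 1 else 0) * Z V w := by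
    intro e _
    by_cases heE : e ∈ E
    · have hsame : Same r e := bal_same r V x₀ e heE
      rw [if_pos hsame]
      have h15 : ∑ F ∈ PMat V, mass F * b F e = Real.exp θ * Real.exp (θ * K e) *
          (2 * Z V w - ∑ F ∈ PMat V, mass F * ind F e) := by
        rw [← hmsum, Finset.mul_sum, ← Finset.sum_sub_distrib, Finset.mul_sum]
        refine Finset.sum_congr rfl fun F _ => ?_
        simp only [hb]
        rw [if_pos heE]
        ring
      rw [h15]
      have h16 := hkey e heE
      have h17 : 2 * Z V w - ∑ F ∈ PMat V, mass F * ind F e ≤ 2 * (1 - 1 / 204800) * Z V w := by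
        linarith
      have h18 : Real.exp θ * Real.exp (θ * K e) *
          (2 * Z V w - ∑ F ∈ PMat V, mass F * ind F e) ≤
          Real.exp θ * Real.exp (θ * K e) * (2 * (1 - 1 / 204800) * Z V w) :=
        mul_le_mul_of_nonneg_left h17 (by positivity)
      refine h18.trans ?_
      have h19 : Real.exp θ * Real.exp (θ * K e) * (2 * (1 - 1 / 204800) * Z V w) =
          (Real.exp θ * (1 - 1 / 204800)) * (Real.exp (θ * K e) * 2 * Z V w) := by ring
      rw [h19]
      have h20 : 0 ≤ Real.exp (θ * K e) * 2 * Z V w :=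
        mul_nonneg (by positivity) hZnn
      calc (Real.exp θ * (1 - 1 / 204800)) * (Real.exp (θ * K e) * 2 * Z V w)
          ≤ 1 * (Real.exp (θ * K e) * 2 * Z V w) := mul_le_mul_of_nonneg_right hθ h20
        _ = Real.exp (θ * K e) * (1 + 1) * Z V w := by ring
    · have h21 : ∑ F ∈ PMat V, mass F * b F e =
          Real.exp (θ * K e) * (1 + if Same r e then 1 else 0) * Z V w := by
        rw [← hmsum, Finset.mul_sum]
        refine Finset.sum_congr rfl fun F _ => ?_
        simp only [hb]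
        rw [if_neg heE]
        ring
      exact h21.le
  calc ∑ F ∈ PMat V, wt p F * wt w F *
        (Psi θ (ρ F) (V \ cov F) (fun e => K e + if e ∈ E then 1 else 0) *
          Z (V \ cov F) (fun e => (1 - (if e ∈ E then p' else 0)) * w e))
      = ∑ F ∈ PMat V, mass F *
        Psi θ (ρ F) (V \ cov F) (fun e => K e + if e ∈ E then 1 else 0) := by
        refine Finset.sum_congr rfl fun F _ => ?_
        simp only [hmass, hpdef]
        ring
    _ ≤ ∑ F ∈ PMat V, mass F * ∑ e ∈ V.powersetCard 2, b F e := by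
        refine Finset.sum_le_sum fun F hF => ?_
        by_cases hFE : F ⊆ E
        · exact mul_le_mul_of_nonneg_left (hPsi F hF hFE) (hmnn F hF)
        · rw [hm0 F hFE, zero_mul, zero_mul]
    _ = ∑ e ∈ V.powersetCard 2, ∑ F ∈ PMat V, mass F * b F e := by
        rw [Finset.sum_comm]
        refine Finset.sum_congr rfl fun F _ => ?_
        rw [Finset.mul_sum]
    _ ≤ ∑ e ∈ V.powersetCard 2,
        Real.exp (θ * K e) * (1 + if Same r e then 1 else 0) * Z V w :=
        Finset.sum_le_sum hper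
    _ = Psi θ r V K * Z V w := by
        unfold Psi
        rw [Finset.sum_mul]

end Pool.Agent.RSW
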