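import Mathlib

/-!
# Random surfaces: definitions (helper13)

State: `S` the set of all sides, `V` the set of the sides which are not glued yet, `r : Perm S` the next side
in the same boundary component (`r x = x` for `x ∉ V`).  Gluing `x` and `y` (orientation reversing): the side
before `x` is followed by the side after `y` and the side before `y` by the side after `x`, that is `r` is
replaced by `r * swap x y` and then `x`, `y` are removed from their cycles.

Matchings are sets of 2-element sets.  `PM V`: perfect matchings of `V`; `PMat V`: partial matchings of `V`.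
`Z V w`: the weighted number of perfect matchings.  `B L r V w`: the weighted number of the perfect matchings
which cannot be swept with all boundary components of at most `L` sides.
`Pt V w = ∑_M w(M) ∑_{e ∈ M} 1/w(e)`.
-/

namespace Pool.Agent.RSW

open Equiv Finset
open scoped BigOperators

variable {S : Type*} [Fintype S] [DecidableEq S]

/-- the element `x` is removed from its cycle. -/
def rem (x : S) (ψ : Perm S) : Perm S := swap x (ψ x) * ψ

/-- the sides `x` and `y` are glued. -/
def glue (r : Perm S) (x y : S) : Perm S := rem y (rem x (r * swap x y))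

/-- the unglued sides of the boundary component of `x`. -/
def face (r : Perm S) (V : Finset S) (x : S) : Finset S := V.filter fun y => r.SameCycle x y

/-- all pairs of the matching `M` of `V` can be glued one after the other such that at every moment all
boundary components have at most `L` sides. -/
inductive Sweep (L : ℕ) : Perm S → Finset S → Finset (Finset S) → Prop
  | done (r : Perm S) : Sweep L r ∅ ∅
  | step (r : Perm S) (V : Finset S) (M : Finset (Finset S)) (x y : S)
      (hL : ∀ z ∈ V, (face r V z).card ≤ L) (hx : x ∈ V) (hy : y ∈ V) (hxy : x ≠ y)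
      (hM : {x, y} ∈ M) (h : Sweep L (glue r x y) (V \ {x, y}) (M.erase {x, y})) : Sweep L r V M

/-- perfect matchings of `V`. -/
def PM (V : Finset S) : Finset (Finset (Finset S)) :=
  (V.powersetCard 2).powerset.filter fun M => ∀ x ∈ V, (M.filter fun e => x ∈ e).card = 1

/-- partial matchings of `V`. -/
def PMat (V : Finset S) : Finset (Finset (Finset S)) :=
  (V.powersetCard 2).powerset.filter fun F => ∀ x ∈ V, (F.filter fun e => x ∈ e).card ≤ 1

/-- the elements covered by `F`. -/
def cov (F : Finset (Finset S)) : Finset S := F.biUnion id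

omit [Fintype S] [DecidableEq S] in
/-- weight of a set of pairs. -/
def wt (w : Finset S → ℝ) (F : Finset (Finset S)) : ℝ := ∏ e ∈ F, w e

/-- weighted number of perfect matchings. -/
noncomputable def Z (V : Finset S) (w : Finset S → ℝ) : ℝ := ∑ M ∈ PM V, wt w M

/-- the potential which counts the remaining pairs. -/
noncomputable def Pt (V : Finset S) (w : Finset S → ℝ) : ℝ :=
  ∑ M ∈ PM V, wt w M * ∑ e ∈ M, (w e)⁻¹

open Classical in
/-- weighted number of the perfect matchings which cannot be swept. -/
noncomputable def B (L : ℕ) (r : Perm S) (V : Finset S) (w : Finset S → ℝ) : ℝ :=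
  ∑ M ∈ (PM V).filter (fun M => ¬ Sweep L r V M), wt w M

/-- the pair `e` lies in one boundary component. -/
def Same (r : Perm S) (e : Finset S) : Prop := ∀ x ∈ e, ∀ y ∈ e, r.SameCycle x y

instance (r : Perm S) (e : Finset S) : Decidable (Same r e) := by
  unfold Same; infer_instance

/-- the potential of the counters `K`. -/
noncomputable def Psi (θ : ℝ) (r : Perm S) (V : Finset S) (K : Finset S → ℕ) : ℝ :=
  ∑ e ∈ V.powersetCard 2, Real.exp (θ * K e) * (1 + if Same r e then 1 else 0)

/-- admissible states: `κ` is the weight level, `U` the set of the pairs which have not met yet in this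
phase, `K e` the number of cut steps in which `e` took part. -/
structure Inv (n G : ℕ) (pm κ : ℝ) (r : Perm S) (V : Finset S) (w : Finset S → ℝ)
    (K : Finset S → ℕ) (U : Finset (Finset S)) : Prop where
  fix : ∀ x, x ∉ V → r x = x
  card : V.card ≤ 2 * n
  sub : U ⊆ V.powersetCard 2
  unmet : ∀ e ∈ U, κ * (1 - pm) ^ (K e) ≤ w e ∧ w e ≤ κ
  met : ∀ e ∈ V.powersetCard 2, e ∉ U → κ / 2 * (1 - pm) ^ (K e) ≤ w e ∧ w e ≤ κ / 2
  small : ∀ x ∈ V, (face r V x).card ≤ G

/-- the bound for `B`. -/
noncomputable def Bd (θ μ ν ρ lam : ℝ) (r : Perm S) (V : Finset S) (w : Finset S → ℝ)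
    (K : Finset S → ℕ) (U : Finset (Finset S)) : ℝ :=
  (μ * Psi θ r V K + ν * U.card + ρ) * Z V w + lam * Pt V w

/-- the bound holds for all admissible states with faces of at most `F` sides. -/
def Good (S : Type*) [Fintype S] [DecidableEq S] (n G F : ℕ) (pm θ κ μ ν ρ lam : ℝ) : Prop :=
  ∀ (r : Perm S) (V : Finset S) (w : Finset S → ℝ) (K : Finset S → ℕ) (U : Finset (Finset S)),
    Inv n G pm κ r V w K U → (∀ x ∈ V, (face r V x).card ≤ F) →
      B G r V w ≤ Bd θ μ ν ρ lam r V w K U

/-- the balanced pairs of the face of `x₀`. -/
def bal (r : Perm S) (V : Finset S) (x₀ : S) : Finset (Finset S) :=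
  ((face r V x₀).powersetCard 2).filter fun e => ∃ x ∈ e, ∃ y ∈ e, ∃ k ∈ range (face r V x₀).card,
    (r ^ k) x = y ∧ (face r V x₀).card ≤ 4 * k ∧ 4 * k ≤ 3 * (face r V x₀).card

/-- a representative of the cycle of `x`. -/
noncomputable def rep (r : Perm S) (x : S) : S := (Quotient.mk (Perm.SameCycle.setoid r) x).out

/-- the faces are distributed to the slots `Fin Q` by `χ`; `met` is the set of the pairs of sides which are
in the same slot of at most `G` sides. -/
noncomputable def slotPairs (G : ℕ) {Q : ℕ} (r : Perm S) (V : Finset S) (χ : S → Fin Q) :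
    Finset (Finset S) :=
  (V.powersetCard 2).filter fun e => ∃ q : Fin Q, (V.filter fun z => χ (rep r z) = q).card ≤ G ∧
    ∀ x ∈ e, χ (rep r x) = q

end Pool.Agent.RSW
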