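import Pool.Agent.RSW.Mat

/-!
# Gluing and equivalence relations (helper13)

`glue_fix`: `rem x ψ x = x`; if `ψ z = z` and `z ≠ x` then `rem x ψ z = z`.  With `r z = z` for `z ∉ V` and
`x, y ∈ V`, `x ≠ y`, the permutation `glue r x y` fixes all `z ∉ V \ {x, y}`.
`glue_rel`: let `R` be an equivalence relation with `R z (r z)` for all `z` (equivalently `SameCycle` implies
`R`), and `R x y`.  Then `R z ((r * swap x y) z)`, and if `R z (ψ z)` for all `z` then `R z (rem x ψ z)`:
`rem x ψ z` is `ψ z`, or `x` (when `z = x`), or `ψ x` (when `ψ z = x`).  An induction over powers gives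
`SameCycle (glue r x y) a b → R a b`.
`sweep_mono`, `sweep_small`: induction (all faces have at most `|V| ≤ L` sides).
`exists_glueAll`: induction over `F` (remove one pair `{x, y}`, `R x y`, `x ≠ y`; `glue r x y` fixes everything
outside `V \ {x, y}` and has `R`; `F.erase {x, y} ∈ PMat (V \ {x, y})`, `V \ cov F = (V \ {x,y}) \ cov (F.erase {x,y})`;
the faces of all permutations which occur lie in classes of `R`, so they have at most `L` sides of the
remaining set), and use `Sweep.step`.
-/

namespace Pool.Agent.RSW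

open Equiv Finset
open scoped BigOperators

variable {S : Type*} [Fintype S] [DecidableEq S]

omit [Fintype S] in
private theorem rem_apply (x : S) (ψ : Perm S) (z : S) : rem x ψ z = swap x (ψ x) (ψ z) := rfl

omit [Fintype S] in
private theorem rem_self (x : S) (ψ : Perm S) : rem x ψ x = x := by
  rw [rem_apply, swap_apply_right]

omit [Fintype S] in
private theorem rem_of_fix (x : S) {ψ : Perm S} {z : S} (h : ψ z = z) : rem x ψ z = z := by
  by_cases hz : z = x
  · subst hz
    exact rem_self _ _
  · rw [rem_apply, h, swap_apply_of_ne_of_ne hz]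
    intro h1
    exact hz (ψ.injective (h.trans h1))

omit [Fintype S] in
private theorem rem_rel {R : S → S → Prop} (hR : Equivalence R) (x : S) {ψ : Perm S}
    (h : ∀ z, R z (ψ z)) : ∀ z, R z (rem x ψ z) := by
  intro z
  rw [rem_apply]
  by_cases h1 : ψ z = x
  · rw [h1, swap_apply_left]
    exact hR.trans (h1 ▸ h z) (h x)
  · by_cases h2 : ψ z = ψ x
    · rw [h2, swap_apply_right, ψ.injective h2]
      exact hR.refl x
    · rw [swap_apply_of_ne_of_ne h1 h2]
      exact h z

omit [Fintype S] in
private theorem swap_rel {R : S → S → Prop} (hR : Equivalence R) {r : Perm S}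
    (h : ∀ z, R z (r z)) {x y : S} (hxy : R x y) : ∀ z, R z ((r * swap x y) z) := by
  intro z
  rw [Perm.mul_apply]
  by_cases h1 : z = x
  · subst h1
    rw [swap_apply_left]
    exact hR.trans hxy (h y)
  · by_cases h2 : z = y
    · subst h2
      rw [swap_apply_right]
      exact hR.trans (hR.symm hxy) (h x)
    · rw [swap_apply_of_ne_of_ne h1 h2]
      exact h z

omit [Fintype S] [DecidableEq S] in
private theorem rel_same {R : S → S → Prop} (hR : Equivalence R) {ψ : Perm S}
    (h : ∀ z, R z (ψ z)) : ∀ a b, ψ.SameCycle a b → R a b := by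
  have hpow : ∀ (n : ℕ) (a : S), R a ((ψ ^ n) a) := by
    intro n
    induction n with
    | zero => intro a; exact hR.refl a
    | succ n ih =>
      intro a
      rw [pow_succ, Perm.mul_apply]
      exact hR.trans (h a) (ih (ψ a))
  rintro a b ⟨i, hi⟩
  obtain ⟨n, rfl | rfl⟩ := Int.eq_nat_or_neg i
  · rw [zpow_natCast] at hi
    rw [← hi]
    exact hpow n a
  · have h2 : (ψ ^ n) b = a := by
      rw [← hi, ← zpow_natCast, ← Perm.mul_apply, ← zpow_add]
      simp
    rw [← h2]
    exact hR.symm (hpow n b)

theorem glue_fix {r : Perm S} {V : Finset S} (hfix : ∀ z, z ∉ V → r z = z) {x y : S}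
    (hx : x ∈ V) (hy : y ∈ V) (hxy : x ≠ y) : ∀ z, z ∉ V \ {x, y} → glue r x y z = z := by
  intro z hz
  unfold glue
  by_cases h1 : z = y
  · subst h1
    exact rem_self _ _
  apply rem_of_fix
  by_cases h2 : z = x
  · subst h2
    exact rem_self _ _
  apply rem_of_fix
  rw [Perm.mul_apply, swap_apply_of_ne_of_ne h2 h1]
  apply hfix
  intro h3
  apply hz
  simp [h1, h2, h3]

theorem glue_rel {r : Perm S} {R : S → S → Prop} (hR : Equivalence R)
    (hrR : ∀ a b, r.SameCycle a b → R a b) {x y : S} (hxy : R x y) :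
    ∀ a b, (glue r x y).SameCycle a b → R a b := by
  apply rel_same hR
  apply rem_rel hR
  apply rem_rel hR
  apply swap_rel hR _ hxy
  intro z
  exact hrR _ _ ⟨1, by simp⟩

theorem sweep_mono {L L' : ℕ} (hL : L ≤ L') {r : Perm S} {V : Finset S} {M : Finset (Finset S)}
    (h : Sweep L r V M) : Sweep L' r V M := by
  induction h with
  | done r => exact Sweep.done r
  | step r V M x y hl hx hy hxy hM _ ih =>
    exact Sweep.step r V M x y (fun z hz => (hl z hz).trans hL) hx hy hxy hM ih

theorem sweep_small {L : ℕ} (r : Perm S) {V : Finset S} (hV : V.card ≤ L)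
    {M : Finset (Finset S)} (hM : M ∈ PM V) : Sweep L r V M := by
  induction V using Finset.strongInduction generalizing r M with
  | H V ih =>
    rcases V.eq_empty_or_nonempty with h0 | ⟨x, hx⟩
    · subst h0
      rw [PM_empty, mem_singleton] at hM
      subst hM
      exact Sweep.done r
    · obtain ⟨e, he, hxe, _⟩ := (mem_PM.1 hM).2 x hx
      obtain ⟨heV, hec⟩ := (mem_PM.1 hM).1 e he
      obtain ⟨y, hy⟩ : ∃ y, y ∈ e.erase x := by
        rw [← Finset.Nonempty, ← card_pos, card_erase_of_mem hxe]
        omega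
      have hyx : y ≠ x := ne_of_mem_erase hy
      have hye : y ∈ e := mem_of_mem_erase hy
      have hexy : e = {x, y} := by
        symm
        apply eq_of_subset_of_card_le
        · intro z hz
          rcases mem_insert.1 hz with h | h
          · rw [h]; exact hxe
          · rw [mem_singleton.1 h]; exact hye
        · rw [hec, card_pair hyx.symm]
      subst hexy
      refine Sweep.step r V M x y (fun z _ => (card_le_card (filter_subset _ _)).trans hV) hx
        (heV hye) hyx.symm he ?_
      refine ih (V \ {x, y}) ?_ _ ?_ (erase_mem hM he)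
      · refine ⟨sdiff_subset, fun h => ?_⟩
        have := h hx
        simp at this
      · exact (card_le_card sdiff_subset).trans hV

open Classical in
/-- one pair. -/
theorem sweep_one {L : ℕ} {r : Perm S} {V : Finset S} (R : S → S → Prop) (hR : Equivalence R)
    (hrR : ∀ a b, r.SameCycle a b → R a b) (hcard : ∀ x ∈ V, (V.filter (R x)).card ≤ L)
    {x y : S} (hx : x ∈ V) (hy : y ∈ V) (hxy : x ≠ y) {M' : Finset (Finset S)}
    (hM : M' ∈ PM (V \ {x, y})) (h : Sweep L (glue r x y) (V \ {x, y}) M') :
    Sweep L r V ({{x, y}} ∪ M') := by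
  refine Sweep.step r V _ x y (fun z hz => ?_) hx hy hxy (by simp) ?_
  · refine (card_le_card ?_).trans (hcard z hz)
    intro a ha
    unfold face at ha
    rw [mem_filter] at ha ⊢
    exact ⟨ha.1, hrR _ _ ha.2⟩
  · have h1 : ({x, y} : Finset S) ∉ M' := by
      intro h2
      have h3 := ((mem_PM.1 hM).1 _ h2).1 (mem_insert_self x {y})
      simp at h3
    have h2 : (({{x, y}} ∪ M') : Finset (Finset S)).erase {x, y} = M' := by
      rw [← insert_eq, erase_insert h1]
    rw [h2]
    exact h

open Classical in
theorem exists_glueAll {L : ℕ} {r : Perm S} {V : Finset S} (hfix : ∀ z, z ∉ V → r z = z)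
    (R : S → S → Prop) (hR : Equivalence R) (hrR : ∀ a b, r.SameCycle a b → R a b)
    (hcard : ∀ x ∈ V, (V.filter (R x)).card ≤ L) {F : Finset (Finset S)} (hF : F ∈ PMat V)
    (hFR : ∀ e ∈ F, ∀ x ∈ e, ∀ y ∈ e, R x y) :
    ∃ r' : Perm S, (∀ z, z ∉ V \ cov F → r' z = z) ∧ (∀ a b, r'.SameCycle a b → R a b) ∧
      ∀ M' ∈ PM (V \ cov F), Sweep L r' (V \ cov F) M' → Sweep L r V (F ∪ M') := by
  induction F using Finset.strongInduction generalizing r V with
  | H F ih =>
    rcases F.eq_empty_or_nonempty with h0 | ⟨e, he⟩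
    · subst h0
      have hc : cov (∅ : Finset (Finset S)) = ∅ := rfl
      rw [hc, sdiff_empty]
      refine ⟨r, hfix, hrR, fun M' _ h => ?_⟩
      rw [empty_union]
      exact h
    · obtain ⟨heV, hec⟩ := (mem_PMat.1 hF).1 e he
      obtain ⟨x, y, hxy, hexy⟩ := card_eq_two.1 hec
      have hxe : x ∈ e := by rw [hexy]; simp
      have hye : y ∈ e := by rw [hexy]; simp
      have hx : x ∈ V := heV hxe
      have hy : y ∈ V := heV hye
      have hRxy : R x y := hFR e he x hxe y hye
      subst hexy
      have hcov : (V \ {x, y}) \ cov (F.erase {x, y}) = V \ cov F := by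
        rw [sdiff_sdiff_left]
        congr 1
        unfold cov
        ext z
        simp only [sup_eq_union, mem_union, mem_biUnion, id, mem_erase]
        constructor
        · rintro (ha | ⟨a, ⟨_, ha⟩, hz⟩)
          · exact ⟨_, he, ha⟩
          · exact ⟨a, ha, hz⟩
        · rintro ⟨a, ha, hz⟩
          by_cases h : a = {x, y}
          · exact Or.inl (h ▸ hz)
          · exact Or.inr ⟨a, ⟨h, ha⟩, hz⟩
      have hF1 : F.erase {x, y} ∈ PMat (V \ {x, y}) := by
        rw [mem_PMat] at hF ⊢
        refine ⟨fun a ha => ⟨?_, (hF.1 a (mem_of_mem_erase ha)).2⟩, fun a ha b hb =>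
          hF.2 a (mem_of_mem_erase ha) b (mem_of_mem_erase hb)⟩
        intro z hz
        rw [mem_sdiff]
        refine ⟨(hF.1 a (mem_of_mem_erase ha)).1 hz, fun h => ?_⟩
        exact ne_of_mem_erase ha (hF.2 a (mem_of_mem_erase ha) _ he z hz h)
      obtain ⟨r', h1, h2, h3⟩ := ih (F.erase {x, y}) (erase_ssubset he)
        (r := glue r x y) (V := V \ {x, y}) (glue_fix hfix hx hy hxy) (glue_rel hR hrR hRxy)
        (fun z hz => (card_le_card (filter_subset_filter _ sdiff_subset)).trans
          (hcard z (mem_sdiff.1 hz).1)) hF1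
        (fun a ha => hFR a (mem_of_mem_erase ha))
      rw [hcov] at h1 h3
      refine ⟨r', h1, h2, fun M' hM' hS => ?_⟩
      have h4 := h3 M' hM' hS
      have h5 : F.erase {x, y} ∪ M' ∈ PM (V \ {x, y}) := by
        refine (union_mem hF1 ?_).1
        rw [hcov]
        exact hM'
      have h6 := sweep_one R hR hrR hcard hx hy hxy h5 h4
      have h7 : (({{x, y}} : Finset (Finset S)) ∪ (F.erase {x, y} ∪ M')) = F ∪ M' := by
        rw [← union_assoc, ← insert_eq, insert_erase he]
      rw [h7] at h6
      exact h6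

end Pool.Agent.RSW
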