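import Pool.Agent.RSW.Mat

/-!
# Recursion for `Z` (helper13)

`sum_mem`: `M ↦ M.erase e` is a bijection from the `M ∈ PM V` which contain `e` to `PM (V \ e)`, inverse
`M' ↦ insert e M'`, and `wt w M = w e * wt w (M.erase e)`.
`Z_rec`: every `M ∈ PM V` contains exactly one pair `{x, y}` with `y ∈ V.erase x`; apply `sum_mem` to each.
-/

namespace Pool.Agent.RSW

open Equiv Finset
open scoped BigOperators

variable {S : Type*} [Fintype S] [DecidableEq S]

private theorem Rec_sub {V : Finset S} {M : Finset (Finset S)} (hM : M ∈ PM V) {e : Finset S}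
    (he : e ∈ M) : e ∈ V.powersetCard 2 := by
  rw [mem_powersetCard]
  exact (mem_PM.1 hM).1 e he

private theorem Rec_filter_sum {V : Finset S} (w : Finset S → ℝ) (T : Finset (Finset S)) :
    ∑ M ∈ PM V, ∑ e ∈ T, (if e ∈ M then wt w M else 0) =
      ∑ e ∈ T, ∑ M ∈ (PM V).filter (fun M => e ∈ M), wt w M := by
  rw [sum_comm]
  refine sum_congr rfl fun e _ => ?_
  rw [sum_filter]

theorem sum_mem {V : Finset S} (w : Finset S → ℝ) {e : Finset S} (he : e ∈ V.powersetCard 2) :
    ∑ M ∈ (PM V).filter (fun M => e ∈ M), wt w M = w e * Z (V \ e) w := by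
  unfold Z
  rw [mul_sum]
  refine sum_nbij' (fun M => M.erase e) (fun M' => insert e M') ?_ ?_ ?_ ?_ ?_
  · intro M hM
    rw [mem_filter] at hM
    exact erase_mem hM.1 hM.2
  · intro M' hM'
    rw [← cov_single e] at hM'
    have h := union_mem (single_mem he) hM'
    rw [mem_filter, insert_eq]
    exact ⟨h.1, mem_union_left _ (mem_singleton_self e)⟩
  · intro M hM
    rw [mem_filter] at hM
    exact insert_erase hM.2
  · intro M' hM'
    rw [← cov_single e] at hM'
    have h := union_mem (single_mem he) hM'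
    refine erase_insert fun h1 => ?_
    exact disjoint_left.1 h.2 (mem_singleton_self e) h1
  · intro M hM
    rw [mem_filter] at hM
    exact (mul_prod_erase M w hM.2).symm

theorem Z_rec {V : Finset S} (w : Finset S → ℝ) {x : S} (hx : x ∈ V) :
    Z V w = ∑ y ∈ V.erase x, w {x, y} * Z (V \ {x, y}) w := by
  have h1 : ∀ M ∈ PM V, wt w M = ∑ y ∈ V.erase x, if {x, y} ∈ M then wt w M else 0 := by
    intro M hM
    obtain ⟨hsub, hex⟩ := mem_PM.1 hM
    obtain ⟨e, he, hxe, huniq⟩ := hex x hx
    obtain ⟨y, hyx, hey⟩ : ∃ y, y ≠ x ∧ e = {x, y} := by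
      obtain ⟨a, b, hab, rfl⟩ := card_eq_two.1 (hsub e he).2
      rcases mem_insert.1 hxe with h | h
      · subst h
        exact ⟨b, hab.symm, rfl⟩
      · rw [mem_singleton] at h
        subst h
        exact ⟨a, hab, pair_comm _ _⟩
    have hyV : y ∈ V := (hsub e he).1 (by rw [hey]; exact mem_insert_of_mem (mem_singleton_self y))
    rw [sum_eq_single y]
    · rw [if_pos (hey ▸ he)]
    · intro y' hy' hne
      rw [if_neg]
      intro h
      have h2 := huniq _ h (mem_insert_self _ _)
      rw [hey] at h2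
      have h3 : y' ∈ ({x, y} : Finset S) := by
        rw [← h2]
        exact mem_insert_of_mem (mem_singleton_self y')
      rcases mem_insert.1 h3 with h4 | h4
      · exact (mem_erase.1 hy').1 h4
      · exact hne (mem_singleton.1 h4)
    · intro h
      exact absurd (mem_erase.2 ⟨hyx, hyV⟩) h
  have h2 : Z V w = ∑ M ∈ PM V, ∑ y ∈ V.erase x, if {x, y} ∈ M then wt w M else 0 :=
    sum_congr rfl h1
  rw [h2, sum_comm]
  refine sum_congr rfl fun y hy => ?_
  rw [← sum_filter]
  refine sum_mem w ?_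
  rw [mem_powersetCard]
  rw [mem_erase] at hy
  refine ⟨?_, card_pair hy.1.symm⟩
  intro z hz
  rcases mem_insert.1 hz with h | h
  · rw [h]
    exact hx
  · rw [mem_singleton.1 h]
    exact hy.2

/-- the expected number of pairs in `E`. -/
theorem sum_card_inter {V : Finset S} (w : Finset S → ℝ) (E : Finset (Finset S)) :
    ∑ M ∈ PM V, wt w M * ((M.filter fun e => e ∈ E).card : ℝ) =
      ∑ e ∈ (V.powersetCard 2).filter (fun e => e ∈ E), w e * Z (V \ e) w := by
  have h1 : ∀ M ∈ PM V, wt w M * ((M.filter fun e => e ∈ E).card : ℝ) =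
      ∑ e ∈ (V.powersetCard 2).filter (fun e => e ∈ E), if e ∈ M then wt w M else 0 := by
    intro M hM
    have h2 : M.filter (fun e => e ∈ E) =
        ((V.powersetCard 2).filter (fun e => e ∈ E)).filter (fun e => e ∈ M) := by
      ext e
      rw [mem_filter, mem_filter, mem_filter]
      constructor
      · rintro ⟨h3, h4⟩
        exact ⟨⟨Rec_sub hM h3, h4⟩, h3⟩
      · rintro ⟨⟨h3, h4⟩, h5⟩
        exact ⟨h5, h4⟩
    rw [h2, card_filter, Nat.cast_sum, mul_sum]
    refine sum_congr rfl fun e _ => ?_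
    split_ifs
    · rw [Nat.cast_one, mul_one]
    · rw [Nat.cast_zero, mul_zero]
  rw [sum_congr rfl h1, Rec_filter_sum]
  refine sum_congr rfl fun e he => ?_
  exact sum_mem w (mem_filter.1 he).1

theorem Z_nonneg {V : Finset S} {w : Finset S → ℝ} (hw : ∀ e ∈ V.powersetCard 2, 0 ≤ w e) :
    0 ≤ Z V w := by
  exact sum_nonneg fun M hM => prod_nonneg fun e he => hw e (Rec_sub hM he)

end Pool.Agent.RSW
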