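import Pool.Agent.RSW.Avg
import Pool.Agent.RSW.Thin
import Pool.Agent.RSW.Glue
import Pool.Agent.RSW.Rec

/-!
# The main step: all unmet pairs inside the slots meet (helper13)

State with `Inv` and all faces of at most `f` sides.  Take `χ` from `exists_slots`, `A = slotPairs G r V χ`,
`R a b := r.SameCycle a b ∨ ∃ q, (slot q has at most G elements of V) ∧ χ (rep r a) = q ∧ χ (rep r b) = q`:
an equivalence relation (`SameCycle` gives the same `rep`, hence the same slot); the class of `x ∈ V` has at most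
`G` elements of `V`: it is the slot of `x` if that is small, otherwise the face of `x` (`f ≤ G`).
`p e = 1/2` for `e ∈ A ∩ U`, `0` elsewhere; `w' = (1-p) w`; for `F ⊆ A ∩ U`, `F ∈ PMat V` let `ρ F` be the
permutation of `exists_glueAll` for `R`.  `B_thin`: `B ≤ ∑_F wt p F * wt w F * B (ρ F) (V \ cov F) w'`.
The new state (`K` unchanged, `U' = (U \ A) ∩ (V \ cov F).powersetCard 2`) satisfies `Inv` with the same `κ`:
for `e ∈ A ∩ U` we have `κ/2 (1-pm)^(K e) ≤ w e / 2 ≤ κ/2` and `e` is met now; the faces are contained in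
classes of `R`.  `Psi θ (ρ F) (V \ cov F) K ≤ ∑_{e ∈ V.powersetCard 2} exp (θ K e) (1 + [Same r e ∨ e ∈ A])`
(if `Same (ρ F) e` then the elements of `e` are `R`-related, so `Same r e` or `e ∈ A`), `|U'| ≤ |U \ A|`.
So `H` gives `B (ρ F) … ≤ (μ Ψ_A + ν |U \ A| + ρ) Z (V \ cov F) w' + lam Pt (V \ cov F) w'` with `Ψ_A` independent of
`F`; sum with `Z_thin`, `Pt_thin` and use the choice of `χ` (`Z ≥ 0`).
-/

namespace Pool.Agent.RSW

open Equiv Finset
open scoped BigOperators

variable {S : Type*} [Fintype S] [DecidableEq S]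

/-- the relation of being in one face or in one small slot. -/
private def RR (G : ℕ) {Q : ℕ} (r : Perm S) (V : Finset S) (χ : S → Fin Q) (a b : S) : Prop :=
  r.SameCycle a b ∨ ∃ q : Fin Q, (V.filter fun z => χ (rep r z) = q).card ≤ G ∧
    χ (rep r a) = q ∧ χ (rep r b) = q

private theorem RR_slot {G Q : ℕ} {r : Perm S} {V : Finset S} {χ : S → Fin Q} {a b : S}
    (h : RR G r V χ a b) : χ (rep r a) = χ (rep r b) := by
  rcases h with h | ⟨q, -, h1, h2⟩
  · rw [(rep_eq_iff r a b).mpr h]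
  · rw [h1, h2]

private theorem RR_equiv {G Q : ℕ} {r : Perm S} {V : Finset S} {χ : S → Fin Q} :
    Equivalence (RR G r V χ) := by
  refine ⟨fun a => Or.inl (Perm.SameCycle.refl r a), ?_, ?_⟩
  · intro a b h
    rcases h with h | ⟨q, hq, h1, h2⟩
    · exact Or.inl h.symm
    · exact Or.inr ⟨q, hq, h2, h1⟩
  · intro a b c h h'
    have e1 := RR_slot h
    have e2 := RR_slot h'
    rcases h with h | ⟨q, hq, h1, h2⟩
    · rcases h' with h' | ⟨q, hq, h1, h2⟩
      · exact Or.inl (h.trans h')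
      · exact Or.inr ⟨q, hq, by rw [e1, h1], h2⟩
    · exact Or.inr ⟨q, hq, h1, by rw [← e2, h2]⟩

private theorem RR_card {G f Q : ℕ} {r : Perm S} {V : Finset S} {χ : S → Fin Q} (hfG : f ≤ G)
    (T : Finset S) {x : S} (hT : ∀ y ∈ T, y ∈ V ∧ RR G r V χ x y)
    (hf : (face r V x).card ≤ f) : T.card ≤ G := by
  by_cases hs : (V.filter fun z => χ (rep r z) = χ (rep r x)).card ≤ G
  · refine le_trans (card_le_card ?_) hs
    intro y hy
    rw [mem_filter]
    exact ⟨(hT y hy).1, (RR_slot (hT y hy).2).symm⟩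
  · refine le_trans (card_le_card ?_) (hf.trans hfG)
    intro y hy
    rw [face, mem_filter]
    refine ⟨(hT y hy).1, ?_⟩
    rcases (hT y hy).2 with h | ⟨q, hq, h1, h2⟩
    · exact h
    · exfalso
      apply hs
      rw [h1]
      exact hq

private theorem RR_same {G Q : ℕ} {r : Perm S} {V : Finset S} {χ : S → Fin Q} {e : Finset S}
    (he : e ∈ V.powersetCard 2) (h : ∀ x ∈ e, ∀ y ∈ e, RR G r V χ x y) :
    Same r e ∨ e ∈ slotPairs G r V χ := by
  obtain ⟨heV, hc⟩ := mem_powersetCard.mp he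
  obtain ⟨x, y, hxy, rfl⟩ := card_eq_two.mp hc
  rcases h x (by simp) y (by simp) with h1 | ⟨q, hq, h1, h2⟩
  · left
    intro a ha b hb
    simp only [mem_insert, mem_singleton] at ha hb
    rcases ha with rfl | rfl <;> rcases hb with rfl | rfl
    · exact Perm.SameCycle.refl _ _
    · exact h1
    · exact h1.symm
    · exact Perm.SameCycle.refl _ _
  · right
    rw [slotPairs, mem_filter]
    refine ⟨he, q, hq, ?_⟩
    intro a ha
    simp only [mem_insert, mem_singleton] at ha
    rcases ha with rfl | rfl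
    · exact h1
    · exact h2

private theorem slot_RR {G Q : ℕ} {r : Perm S} {V : Finset S} {χ : S → Fin Q} {e : Finset S}
    (he : e ∈ slotPairs G r V χ) : ∀ x ∈ e, ∀ y ∈ e, RR G r V χ x y := by
  rw [slotPairs, mem_filter] at he
  obtain ⟨-, q, hq, h⟩ := he
  intro x hx y hy
  exact Or.inr ⟨q, hq, h x hx, h y hy⟩

theorem main_step {n G f Q : ℕ} {pm θ κ μ ν ρ lam : ℝ} (hκ : 0 < κ) (hf : 0 < f)
    (hG : 16 * f ≤ G) (hQ : 0 < Q) (hQG : 16 * n ≤ Q * G) (hpm0 : 0 ≤ pm) (hpm1 : pm ≤ 1 / 2)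
    (hμ0 : 0 ≤ μ) (hν : 0 ≤ ν) (hρ : 0 ≤ ρ) (hlam : 0 ≤ lam)
    (H : Good S n G G pm θ κ μ ν ρ lam) :
    Good S n G f pm θ κ (μ * (1 + 1 / (Q : ℝ))) (ν * (1 - 3 / (4 * (Q : ℝ)))) ρ lam := by
  classical
  intro r V w K U hI hface
  obtain ⟨χ, hχ⟩ := exists_slots hQ hG (by omega) hQG hI.card hface θ K hI.sub hμ0 hν
  set A := slotPairs G r V χ with hA
  have hfG : f ≤ G := by omega
  -- positivity of the weights
  have hpmpos : ∀ k : ℕ, 0 < (1 - pm) ^ k := fun k => pow_pos (by linarith) k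
  have hwpos : ∀ e ∈ V.powersetCard 2, 0 < w e := by
    intro e he
    by_cases heU : e ∈ U
    · exact lt_of_lt_of_le (mul_pos hκ (hpmpos _)) (hI.unmet e heU).1
    · exact lt_of_lt_of_le (mul_pos (by linarith) (hpmpos _)) (hI.met e he heU).1
  set p : Finset S → ℝ := fun e => if e ∈ A ∧ e ∈ U then 1 / 2 else 0 with hp
  have hp0 : ∀ e, 0 ≤ p e := by
    intro e
    simp only [hp]
    split_ifs <;> norm_num
  have hp1 : ∀ e, p e ≤ 1 / 2 := by
    intro e
    simp only [hp]
    split_ifs <;> norm_num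
  have hpA : ∀ e, p e ≠ 0 → e ∈ A := by
    intro e he
    by_contra h
    apply he
    simp only [hp]
    rw [if_neg (fun h' => h h'.1)]
  set w' : Finset S → ℝ := fun e => (1 - p e) * w e with hw'
  have hcard : ∀ x ∈ V, (V.filter (RR G r V χ x)).card ≤ G := by
    intro x hx
    exact RR_card hfG _ (fun y hy => mem_filter.mp hy) (hface x hx)
  have hex : ∀ F : Finset (Finset S), ∃ r' : Perm S, F ∈ PMat V → (∀ e ∈ F, p e ≠ 0) →
      (∀ z, z ∉ V \ cov F → r' z = z) ∧ (∀ a b, r'.SameCycle a b → RR G r V χ a b) ∧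
      ∀ M' ∈ PM (V \ cov F), Sweep G r' (V \ cov F) M' → Sweep G r V (F ∪ M') := by
    intro F
    by_cases hF : F ∈ PMat V ∧ ∀ e ∈ F, p e ≠ 0
    · obtain ⟨r', h1, h2, h3⟩ := exists_glueAll (L := G) hI.fix (RR G r V χ) RR_equiv
        (fun a b h => Or.inl h) (fun x hx => by convert hcard x hx) hF.1
        (fun e he x hx y hy => slot_RR (hpA e (hF.2 e he)) x hx y hy)
      exact ⟨r', fun _ _ => ⟨h1, h2, h3⟩⟩
    · exact ⟨r, fun h1 h2 => absurd ⟨h1, h2⟩ hF⟩
  choose rr hrr using hex
  have hB := B_thin (L := G) (r := r) (V := V) (p := p) (w := w) (fun e he => (hwpos e he).le)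
    (fun e _ => ⟨hp0 e, (hp1 e).trans (by norm_num)⟩) rr
    (fun F hF hF' M' hM' hS => (hrr F hF hF').2.2 M' hM' hS)
  set ΨA : ℝ := ∑ e ∈ V.powersetCard 2, Real.exp (θ * K e) *
          (1 + if Same r e ∨ e ∈ A then 1 else 0) with hΨA
  set C : ℝ := μ * ΨA + ν * ((U \ A).card : ℝ) + ρ with hC
  have hw'nn : ∀ F, ∀ e ∈ (V \ cov F).powersetCard 2, 0 ≤ w' e := by
    intro F e he
    have heV : e ∈ V.powersetCard 2 := powersetCard_mono sdiff_subset he
    exact mul_nonneg (by linarith [hp1 e]) (hwpos e heV).le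
  -- the bound for one F
  have hone : ∀ F ∈ PMat V, (∀ e ∈ F, p e ≠ 0) →
      B G (rr F) (V \ cov F) w' ≤ C * Z (V \ cov F) w' + lam * Pt (V \ cov F) w' := by
    intro F hF hF'
    obtain ⟨h1, h2, h3⟩ := hrr F hF hF'
    have hsm : ∀ x ∈ V \ cov F, (face (rr F) (V \ cov F) x).card ≤ G := by
      intro x hx
      have hxV : x ∈ V := (mem_sdiff.mp hx).1
      refine RR_card (χ := χ) hfG _ (fun y hy => ?_) (hface x hxV)
      rw [face, mem_filter] at hy
      exact ⟨(mem_sdiff.mp hy.1).1, h2 _ _ hy.2⟩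
    have hInv : Inv n G pm κ (rr F) (V \ cov F) w' K
        ((U \ A) ∩ (V \ cov F).powersetCard 2) := by
      refine ⟨h1, (card_le_card sdiff_subset).trans hI.card, inter_subset_right, ?_, ?_, hsm⟩
      · intro e he
        rw [mem_inter, mem_sdiff] at he
        have hpe : p e = 0 := by
          simp only [hp]
          rw [if_neg (fun h => he.1.2 h.1)]
        simp only [hw', hpe, sub_zero, one_mul]
        exact hI.unmet e he.1.1
      · intro e he heU
        have heV : e ∈ V.powersetCard 2 := powersetCard_mono sdiff_subset he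
        have hn : ¬ (e ∈ U ∧ e ∉ A) := fun h =>
          heU (mem_inter.mpr ⟨mem_sdiff.mpr h, he⟩)
        by_cases hU : e ∈ U
        · have heA : e ∈ A := by
            by_contra h
            exact hn ⟨hU, h⟩
          have hpe : p e = 1 / 2 := by
            simp only [hp]
            rw [if_pos ⟨heA, hU⟩]
          obtain ⟨u1, u2⟩ := hI.unmet e hU
          simp only [hw', hpe]
          constructor <;> linarith
        · have hpe : p e = 0 := by
            simp only [hp]
            rw [if_neg (fun h => hU h.2)]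
          simp only [hw', hpe, sub_zero, one_mul]
          exact hI.met e heV hU
    have hH := H (rr F) (V \ cov F) w' K _ hInv hsm
    rw [Bd] at hH
    have hPsi : Psi θ (rr F) (V \ cov F) K ≤ ΨA := by
      rw [Psi, hΨA]
      calc ∑ e ∈ (V \ cov F).powersetCard 2, Real.exp (θ * K e) *
            (1 + if Same (rr F) e then 1 else 0)
          ≤ ∑ e ∈ (V \ cov F).powersetCard 2, Real.exp (θ * K e) *
            (1 + if Same r e ∨ e ∈ A then 1 else 0) := by
            apply sum_le_sum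
            intro e he
            have heV : e ∈ V.powersetCard 2 := powersetCard_mono sdiff_subset he
            apply mul_le_mul_of_nonneg_left _ (Real.exp_pos _).le
            by_cases hs : Same (rr F) e
            · have : Same r e ∨ e ∈ A := RR_same heV (fun x hx y hy => h2 _ _ (hs x hx y hy))
              rw [if_pos hs, if_pos this]
            · rw [if_neg hs]
              split_ifs <;> norm_num
        _ ≤ _ := by
            apply sum_le_sum_of_subset_of_nonneg (powersetCard_mono sdiff_subset)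
            intro e _ _
            apply mul_nonneg (Real.exp_pos _).le
            split_ifs <;> norm_num
    have hUc : (((U \ A) ∩ (V \ cov F).powersetCard 2).card : ℝ) ≤ ((U \ A).card : ℝ) := by
      exact_mod_cast card_le_card inter_subset_left
    have hZ : 0 ≤ Z (V \ cov F) w' := Z_nonneg (hw'nn F)
    have hc : μ * Psi θ (rr F) (V \ cov F) K +
        ν * (((U \ A) ∩ (V \ cov F).powersetCard 2).card : ℝ) + ρ ≤ C := by
      rw [hC]
      have i1 := mul_le_mul_of_nonneg_left hPsi hμ0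
      have i2 := mul_le_mul_of_nonneg_left hUc hν
      linarith
    have := mul_le_mul_of_nonneg_right hc hZ
    linarith
  have hwtp : ∀ F, 0 ≤ wt p F := fun F => prod_nonneg (fun e _ => hp0 e)
  have hwtw : ∀ F ∈ PMat V, 0 ≤ wt w F := by
    intro F hF
    apply prod_nonneg
    intro e he
    have := (mem_PMat.mp hF).1 e he
    exact (hwpos e (mem_powersetCard.mpr this)).le
  have hsum : ∑ F ∈ PMat V, wt p F * wt w F * B G (rr F) (V \ cov F) w' ≤
      ∑ F ∈ PMat V, wt p F * wt w F * (C * Z (V \ cov F) w' + lam * Pt (V \ cov F) w') := by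
    apply sum_le_sum
    intro F hF
    by_cases hF' : ∀ e ∈ F, p e ≠ 0
    · exact mul_le_mul_of_nonneg_left (hone F hF hF') (mul_nonneg (hwtp F) (hwtw F hF))
    · push Not at hF'
      obtain ⟨e, he, hpe⟩ := hF'
      have : wt p F = 0 := prod_eq_zero he hpe
      rw [this]
      simp
  have hZt := Z_thin V p w
  have hPt := Pt_thin V p w hwpos (fun e _ => lt_of_le_of_lt (hp1 e) (by norm_num))
  have hsum2 : ∑ F ∈ PMat V, wt p F * wt w F *
      (C * Z (V \ cov F) w' + lam * Pt (V \ cov F) w') = C * Z V w + lam * Pt V w := by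
    rw [← hZt, ← hPt, mul_sum, mul_sum, ← sum_add_distrib]
    apply sum_congr rfl
    intro F _
    simp only [hw']
    ring
  have hZ0 : 0 ≤ Z V w := Z_nonneg (fun e he => (hwpos e he).le)
  have hCle : C ≤ μ * (1 + 1 / (Q : ℝ)) * Psi θ r V K +
      ν * (1 - 3 / (4 * (Q : ℝ))) * (U.card : ℝ) + ρ := by
    rw [hC]
    linarith
  calc B G r V w ≤ ∑ F ∈ PMat V, wt p F * wt w F * B G (rr F) (V \ cov F) w' := hB
    _ ≤ _ := hsum
    _ = C * Z V w + lam * Pt V w := hsum2
    _ ≤ (μ * (1 + 1 / (Q : ℝ)) * Psi θ r V K +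
      ν * (1 - 3 / (4 * (Q : ℝ))) * (U.card : ℝ) + ρ) * Z V w + lam * Pt V w := by
        have := mul_le_mul_of_nonneg_right hCle hZ0
        linarith
    _ = Bd θ (μ * (1 + 1 / (Q : ℝ))) (ν * (1 - 3 / (4 * (Q : ℝ)))) ρ lam r V w K U := by
        rw [Bd]

end Pool.Agent.RSW
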