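import Pool.Agent.RSW.Rec
import Pool.Agent.RSW.Glue

/-!
# Change of the phase, and the end (helper13)

`phase_step`: if `U` is nonempty then `Bd ≥ 1 * |U| * Z ≥ Z ≥ B`.  If `U = ∅` then all pairs are met and the state
with `U' = V.powersetCard 2` satisfies `Inv` for `κ/2` (`κ/2 (1-pm)^(K e) ≤ w e ≤ κ/2`), so
`B ≤ (μ Psi + ν₀ |V.powersetCard 2| + ρ) Z + lam Pt`, and `|V.powersetCard 2| = |V| (|V|-1)/2 ≤ 2 n²`.
`end_step`: `w e ≤ κ` for all pairs.  If `|V| ≤ G` then `B = 0` (`sweep_small`).  Otherwise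
`Pt V w = ∑_M wt w M ∑_{e ∈ M} 1 / w e ≥ ∑_M wt w M * (|V|/2) / κ ≥ (G / (2 κ)) Z ≥ Z / lam` (`two_mul_card`), so
`B ≤ Z ≤ lam Pt ≤ Bd`.
-/

namespace Pool.Agent.RSW

open Equiv Finset
open scoped BigOperators

variable {S : Type*} [Fintype S] [DecidableEq S]

private theorem Phase_mem {V : Finset S} {M : Finset (Finset S)} (hM : M ∈ PM V) {e : Finset S}
    (he : e ∈ M) : e ∈ V.powersetCard 2 := by
  rw [mem_powersetCard]
  exact (mem_PM.1 hM).1 e he

private theorem Phase_wt {V : Finset S} {w : Finset S → ℝ}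
    (hw : ∀ e ∈ V.powersetCard 2, 0 ≤ w e) {M : Finset (Finset S)} (hM : M ∈ PM V) :
    0 ≤ wt w M :=
  prod_nonneg fun e he => hw e (Phase_mem hM he)

theorem B_le_Z {L : ℕ} {r : Perm S} {V : Finset S} {w : Finset S → ℝ}
    (hw : ∀ e ∈ V.powersetCard 2, 0 ≤ w e) : B L r V w ≤ Z V w := by
  classical
  unfold B Z
  exact sum_le_sum_of_subset_of_nonneg (filter_subset _ _) fun M hM _ => Phase_wt hw hM

theorem B_small {L : ℕ} {r : Perm S} {V : Finset S} (w : Finset S → ℝ) (hV : V.card ≤ L) :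
    B L r V w = 0 := by
  classical
  unfold B
  refine sum_eq_zero fun M hM => ?_
  rw [mem_filter] at hM
  exact absurd (sweep_small r hV hM.1) hM.2

private theorem Phase_Pt {V : Finset S} {w : Finset S → ℝ}
    (hw : ∀ e ∈ V.powersetCard 2, 0 ≤ w e) : 0 ≤ Pt V w :=
  sum_nonneg fun M hM => mul_nonneg (Phase_wt hw hM)
    (sum_nonneg fun e he => inv_nonneg.2 (hw e (Phase_mem hM he)))

private theorem Phase_Psi (θ : ℝ) (r : Perm S) (V : Finset S) (K : Finset S → ℕ) :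
    0 ≤ Psi θ r V K := by
  unfold Psi
  refine sum_nonneg fun e _ => mul_nonneg (Real.exp_pos _).le ?_
  split_ifs <;> norm_num

private theorem Phase_pos {n G : ℕ} {pm κ : ℝ} {r : Perm S} {V : Finset S} {w : Finset S → ℝ}
    {K : Finset S → ℕ} {U : Finset (Finset S)} (hκ : 0 < κ) (hpm1 : pm ≤ 1 / 2)
    (h : Inv n G pm κ r V w K U) {e : Finset S} (he : e ∈ V.powersetCard 2) :
    0 < w e ∧ w e ≤ κ := by
  have h1 : 0 < (1 - pm) ^ (K e) := pow_pos (by linarith) _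
  by_cases hU : e ∈ U
  · obtain ⟨h2, h3⟩ := h.unmet e hU
    exact ⟨lt_of_lt_of_le (by positivity) h2, h3⟩
  · obtain ⟨h2, h3⟩ := h.met e he hU
    exact ⟨lt_of_lt_of_le (by positivity) h2, by linarith⟩

theorem phase_step {n G : ℕ} {pm θ κ μ ν₀ ρ lam : ℝ} (hκ : 0 < κ) (hpm0 : 0 ≤ pm)
    (hpm1 : pm ≤ 1 / 2) (hμ0 : 0 ≤ μ) (hν : 0 ≤ ν₀) (hρ : 0 ≤ ρ) (hlam : 0 ≤ lam)
    (H : Good S n G G pm θ (κ / 2) μ ν₀ ρ lam) :
    Good S n G G pm θ κ μ 1 (ρ + ν₀ * (2 * (n : ℝ) ^ 2)) lam := by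
  intro r V w K U hInv hF
  have hw : ∀ e ∈ V.powersetCard 2, 0 ≤ w e := fun e he => (Phase_pos hκ hpm1 hInv he).1.le
  have hZ := Z_nonneg hw
  have hPt := Phase_Pt hw
  have hPsi := Phase_Psi θ r V K
  unfold Bd
  rcases U.eq_empty_or_nonempty with hU | hU
  · subst hU
    have hInv' : Inv n G pm (κ / 2) r V w K (V.powersetCard 2) := by
      refine ⟨hInv.fix, hInv.card, subset_rfl, fun e he => hInv.met e he (notMem_empty e),
        fun e he he' => absurd he he', hInv.small⟩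
    have h1 := H r V w K (V.powersetCard 2) hInv' hF
    unfold Bd at h1
    have h2 : ((V.powersetCard 2).card : ℝ) ≤ 2 * (n : ℝ) ^ 2 := by
      rw [card_powersetCard, Nat.cast_choose_two]
      have h3 : (V.card : ℝ) ≤ 2 * n := by exact_mod_cast hInv.card
      have h4 : (0 : ℝ) ≤ V.card := Nat.cast_nonneg _
      nlinarith
    refine h1.trans ?_
    have h5 : ν₀ * ((V.powersetCard 2).card : ℝ) ≤ ν₀ * (2 * (n : ℝ) ^ 2) :=
      mul_le_mul_of_nonneg_left h2 hν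
    have h6 : (μ * Psi θ r V K + ν₀ * ((V.powersetCard 2).card : ℝ) + ρ) * Z V w ≤
        (μ * Psi θ r V K + 1 * ((∅ : Finset (Finset S)).card : ℝ) +
          (ρ + ν₀ * (2 * (n : ℝ) ^ 2))) * Z V w := by
      refine mul_le_mul_of_nonneg_right ?_ hZ
      rw [card_empty, Nat.cast_zero]
      linarith
    linarith
  · have h1 : (1 : ℝ) ≤ U.card := by exact_mod_cast hU.card_pos
    have h2 : 0 ≤ μ * Psi θ r V K := mul_nonneg hμ0 hPsi
    have h3 : 0 ≤ ν₀ * (2 * (n : ℝ) ^ 2) := by positivity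
    have h4 : 1 * Z V w ≤ (μ * Psi θ r V K + 1 * (U.card : ℝ) +
        (ρ + ν₀ * (2 * (n : ℝ) ^ 2))) * Z V w :=
      mul_le_mul_of_nonneg_right (by linarith) hZ
    have h5 : 0 ≤ lam * Pt V w := mul_nonneg hlam hPt
    have h6 : B G r V w ≤ Z V w := B_le_Z hw
    linarith

theorem end_step {n G : ℕ} {pm θ κ μ ν ρ lam : ℝ} (hκ : 0 < κ) (hpm0 : 0 ≤ pm)
    (hpm1 : pm ≤ 1 / 2) (hμ0 : 0 ≤ μ) (hν : 0 ≤ ν) (hρ : 0 ≤ ρ) (hlam : 2 * κ ≤ lam * G) :
    Good S n G G pm θ κ μ ν ρ lam := by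
  intro r V w K U hInv hF
  have hw : ∀ e ∈ V.powersetCard 2, 0 ≤ w e := fun e he => (Phase_pos hκ hpm1 hInv he).1.le
  have hZ := Z_nonneg hw
  have hPt := Phase_Pt hw
  have hPsi := Phase_Psi θ r V K
  have hG0 : (0 : ℝ) ≤ G := Nat.cast_nonneg _
  have hlam0 : 0 ≤ lam := by
    by_contra h
    push Not at h
    nlinarith
  unfold Bd
  have h2 : 0 ≤ (μ * Psi θ r V K + ν * (U.card : ℝ) + ρ) * Z V w := by positivity
  by_cases hV : V.card ≤ G
  · rw [B_small w hV]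
    have h5 : 0 ≤ lam * Pt V w := mul_nonneg hlam0 hPt
    linarith
  · have h3 : (G : ℝ) / 2 * κ⁻¹ * Z V w ≤ Pt V w := by
      unfold Z Pt
      rw [mul_sum]
      refine sum_le_sum fun M hM => ?_
      rw [mul_comm]
      refine mul_le_mul_of_nonneg_left ?_ (Phase_wt hw hM)
      have h4 : ∑ _e ∈ M, κ⁻¹ ≤ ∑ e ∈ M, (w e)⁻¹ := by
        refine sum_le_sum fun e he => ?_
        obtain ⟨h5, h6⟩ := Phase_pos hκ hpm1 hInv (Phase_mem hM he)
        exact inv_anti₀ h5 h6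
      rw [sum_const, nsmul_eq_mul] at h4
      refine le_trans (mul_le_mul_of_nonneg_right ?_ (inv_nonneg.2 hκ.le)) h4
      have h7 := two_mul_card hM
      have h8 : (G : ℝ) ≤ 2 * M.card := by
        have : G ≤ 2 * M.card := by omega
        exact_mod_cast this
      linarith
    have h6 : B G r V w ≤ Z V w := B_le_Z hw
    have h7 : Z V w ≤ lam * Pt V w := by
      have h8 := mul_le_mul_of_nonneg_left h3 hlam0
      have h9 : lam * ((G : ℝ) / 2 * κ⁻¹ * Z V w) = (lam * G) * (κ⁻¹ / 2 * Z V w) := by ring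
      have h10 : 2 * κ * (κ⁻¹ / 2 * Z V w) ≤ (lam * G) * (κ⁻¹ / 2 * Z V w) :=
        mul_le_mul_of_nonneg_right hlam (by positivity)
      have h11 : 2 * κ * (κ⁻¹ / 2 * Z V w) = Z V w := by field_simp
      linarith
    linarith

end Pool.Agent.RSW
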