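import Pool.Agent.RSW.Cut
import Pool.Agent.RSW.MainStep
import Pool.Agent.RSW.Phase

/-!
# All rounds and phases (helper13)

Put `g = 1 + 1/Q`, `h = 1 - 3/(4Q) ∈ [1/4, 1]`.
`rounds`: `main_step` followed by `cut_step`, `T` times (induction over `T`; `μ g^t ≥ μ` so `hμ` stays true).
`phases`: induction over `J`.  For `J = 0` this is `end_step` (`2 ≤ lam G` is used with `κ`).
Step: `Good` for `κ/2` with `μ g^(T J)`, `h^T`, `J h^T 2n²`; `phase_step` gives `Good` for `κ` with `ν = 1` and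
`ρ = (J+1) h^T 2n²`; `rounds` gives `μ g^(T (J+1))`, `ν = h^T`.
-/

namespace Pool.Agent.RSW

open Equiv Finset
open scoped BigOperators

variable {S : Type*} [Fintype S] [DecidableEq S]

private theorem Iter_g {Q : ℕ} : 1 ≤ 1 + 1 / (Q : ℝ) := by
  have : (0 : ℝ) ≤ 1 / (Q : ℝ) := by positivity
  linarith

private theorem Iter_h {Q : ℕ} (hQ : 0 < Q) : 0 ≤ 1 - 3 / (4 * (Q : ℝ)) := by
  have hQ1 : (1 : ℝ) ≤ Q := by exact_mod_cast hQ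
  have : 3 / (4 * (Q : ℝ)) ≤ 1 := by
    rw [div_le_one (by positivity)]
    linarith
  linarith

theorem rounds {n G f Q Km T : ℕ} {pm θ κ μ ν ρ lam : ℝ} (hκ : 0 < κ) (hf : 1000 ≤ f)
    (hG : 16 * f ≤ G) (hQ : 0 < Q) (hQG : 16 * n ≤ Q * G) (hpm0 : 0 ≤ pm) (hpm1 : pm ≤ 1 / 2)
    (hpm : (n : ℝ) ≤ 16 * (f : ℝ) ^ 2 * pm) (hKm : 1 / 2 ≤ (1 - pm) ^ Km) (hθ0 : 0 ≤ θ)
    (hθ : Real.exp θ * (1 - 1 / 204800) ≤ 1) (hμ0 : 0 ≤ μ)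
    (hμ : 1 ≤ μ * Real.exp (θ * (Km + 1))) (hν : 0 ≤ ν) (hρ : 0 ≤ ρ) (hlam : 0 ≤ lam)
    (H : Good S n G G pm θ κ μ ν ρ lam) :
    Good S n G G pm θ κ (μ * (1 + 1 / (Q : ℝ)) ^ T) (ν * (1 - 3 / (4 * (Q : ℝ))) ^ T) ρ lam := by
  have hg := Iter_g (Q := Q)
  have hh := Iter_h hQ
  have hg0 : (0 : ℝ) ≤ 1 + 1 / (Q : ℝ) := le_trans zero_le_one hg
  induction T with
  | zero =>
    rw [pow_zero, pow_zero, mul_one, mul_one]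
    exact H
  | succ T ih =>
    have hμT : 0 ≤ μ * (1 + 1 / (Q : ℝ)) ^ T := mul_nonneg hμ0 (pow_nonneg hg0 T)
    have hνT : 0 ≤ ν * (1 - 3 / (4 * (Q : ℝ))) ^ T := mul_nonneg hν (pow_nonneg hh T)
    have h1 := main_step hκ (by omega) hG hQ hQG hpm0 hpm1 hμT hνT hρ hlam ih
    have hμ' : μ ≤ μ * (1 + 1 / (Q : ℝ)) ^ T * (1 + 1 / (Q : ℝ)) := by
      rw [mul_assoc, ← pow_succ]
      exact le_mul_of_one_le_right hμ0 (one_le_pow₀ hg)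
    have h2 := cut_step hκ hf (by omega) hpm0 hpm1 hpm hKm hθ0 hθ (mul_nonneg hμT hg0)
      (hμ.trans (mul_le_mul_of_nonneg_right hμ' (Real.exp_pos _).le))
      (mul_nonneg hνT hh) hρ hlam h1
    rw [mul_assoc, ← pow_succ, mul_assoc, ← pow_succ] at h2
    exact h2

theorem phases {n G f Q Km T J : ℕ} {pm θ κ μ lam : ℝ} (hκ : 0 < κ) (hf : 1000 ≤ f)
    (hG : 16 * f ≤ G) (hQ : 0 < Q) (hQG : 16 * n ≤ Q * G) (hpm0 : 0 ≤ pm) (hpm1 : pm ≤ 1 / 2)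
    (hpm : (n : ℝ) ≤ 16 * (f : ℝ) ^ 2 * pm) (hKm : 1 / 2 ≤ (1 - pm) ^ Km) (hθ0 : 0 ≤ θ)
    (hθ : Real.exp θ * (1 - 1 / 204800) ≤ 1) (hμ0 : 0 ≤ μ)
    (hμ : 1 ≤ μ * Real.exp (θ * (Km + 1))) (hlam : 0 ≤ lam) (hlamJ : 2 * (κ / 2 ^ J) ≤ lam * G) :
    Good S n G G pm θ κ (μ * (1 + 1 / (Q : ℝ)) ^ (T * J)) ((1 - 3 / (4 * (Q : ℝ))) ^ T)
      (J * ((1 - 3 / (4 * (Q : ℝ))) ^ T * (2 * (n : ℝ) ^ 2))) lam := by
  have hg := Iter_g (Q := Q)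
  have hh := Iter_h hQ
  have hg0 : (0 : ℝ) ≤ 1 + 1 / (Q : ℝ) := le_trans zero_le_one hg
  have hhT : 0 ≤ (1 - 3 / (4 * (Q : ℝ))) ^ T := pow_nonneg hh T
  have hcc : 0 ≤ (1 - 3 / (4 * (Q : ℝ))) ^ T * (2 * (n : ℝ) ^ 2) := by positivity
  induction J generalizing κ with
  | zero =>
    have hl : 2 * κ ≤ lam * G := by
      rw [pow_zero, div_one] at hlamJ
      exact hlamJ
    exact end_step hκ hpm0 hpm1 (mul_nonneg hμ0 (pow_nonneg hg0 _)) hhT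
      (mul_nonneg (Nat.cast_nonneg _) hcc) hl
  | succ J ih =>
    have hl : 2 * (κ / 2 / 2 ^ J) ≤ lam * G := by
      have h1 : κ / 2 / 2 ^ J = κ / 2 ^ (J + 1) := by
        rw [div_div, pow_succ, mul_comm (2 : ℝ)]
      rw [h1]
      exact hlamJ
    have h1 := ih (κ := κ / 2) (by linarith) hl
    have hμJ : 0 ≤ μ * (1 + 1 / (Q : ℝ)) ^ (T * J) := mul_nonneg hμ0 (pow_nonneg hg0 _)
    have hρJ : 0 ≤ (J : ℝ) * ((1 - 3 / (4 * (Q : ℝ))) ^ T * (2 * (n : ℝ) ^ 2)) :=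
      mul_nonneg (Nat.cast_nonneg _) hcc
    have h2 := phase_step hκ hpm0 hpm1 hμJ hhT hρJ hlam h1
    have hμ' : μ ≤ μ * (1 + 1 / (Q : ℝ)) ^ (T * J) :=
      le_mul_of_one_le_right hμ0 (one_le_pow₀ hg)
    have h3 := rounds (T := T) hκ hf hG hQ hQG hpm0 hpm1 hpm hKm hθ0 hθ hμJ
      (hμ.trans (mul_le_mul_of_nonneg_right hμ' (Real.exp_pos _).le)) zero_le_one
      (add_nonneg hρJ hcc) hlam h2
    rw [mul_assoc μ, ← pow_add, one_mul] at h3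
    have e1 : T * (J + 1) = T * J + T := by ring
    have e2 : ((J + 1 : ℕ) : ℝ) * ((1 - 3 / (4 * (Q : ℝ))) ^ T * (2 * (n : ℝ) ^ 2)) =
        (J : ℝ) * ((1 - 3 / (4 * (Q : ℝ))) ^ T * (2 * (n : ℝ) ^ 2)) +
        (1 - 3 / (4 * (Q : ℝ))) ^ T * (2 * (n : ℝ) ^ 2) := by
      push_cast
      ring
    rw [e1, e2]
    exact h3

end Pool.Agent.RSW
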