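import Mathlib

/-!
# Choice of the parameters (helper13)

`θ = 1/204800`; `exp θ ≤ 1/(1-θ)`.  Write `ℓ = log n > 0`.  `C = 100000`.  If `2n ≤ C √n ℓ` take the first
alternative.  Otherwise `√n > 50000 ℓ`; in particular `n` is large (`√n ≥ 50000 log 2 ≥ 34000`, so `n ≥ 10^9`,
`ℓ ≥ 20`).  Take `f = ⌈5000 √n ℓ⌉`, `G = 16 f ≤ 16 (5000 √n ℓ + 1) ≤ C √n ℓ`, `Q = ⌈16 n / G⌉` (so
`16 n ≤ Q G`, `Q ≥ 1`), `T = ⌈8 Q ℓ⌉ ≤ 9 Q ℓ`, `J = ⌈4 ℓ⌉ ≤ 5 ℓ`, `m = exp (-50 ℓ²)`, `Km = ⌈204800 * 50 ℓ²⌉`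
(so `m exp (θ (Km + 1)) ≥ 1`), `pm = n / (16 f²) ≤ 1 / (16 * 25000000 ℓ²)`, hence `Km * pm ≤
(204800 * 50 ℓ² + 1) / (400000000 ℓ²) ≤ 1/2` and `(1 - pm)^Km ≥ 1 - Km pm ≥ 1/2` (`one_add_mul_le_pow`),
`pm ≤ 1/2`; `lam = 2 (1/2)^J / G`.
Final inequality: `(1 + 1/Q)^(T J) ≤ exp (T J / Q) ≤ exp (45 ℓ²)`, so the first term is at most
`exp (-5 ℓ²) 4 n² = 4 exp (2 ℓ - 5 ℓ²) ≤ 1/(4n)`;
`(1 - 3/(4Q))^T ≤ exp (-3T/(4Q)) ≤ exp (-6 ℓ) = n^(-6)`, so the second and third terms are at most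
`2 n^(-4) (1 + J) ≤ 1/(4n)` each; `lam * n ≤ 2 n (1/2)^J ≤ 2 n exp (-4 ℓ log 2) ≤ 2 n exp (-2.7 ℓ) ≤ 1/(4n)`
(`(1/2)^J ≤ exp (-J log 2)`, `log 2 > 0.69`, and `n^{0.7} ≥ 8`).
(Other constants may be used: only the statement counts.)
-/

namespace Pool.Agent.RSW

private theorem Param_log_ge {x : ℝ} (hx : 34000 ^ 2 ≤ x) : 20 ≤ Real.log x := by
  have hx0 : (0 : ℝ) < x := lt_of_lt_of_le (by norm_num) hx
  rw [Real.le_log_iff_exp_le hx0]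
  have h1 : Real.exp 20 = Real.exp 1 ^ 20 := by
    rw [← Real.exp_nat_mul]; norm_num
  rw [h1]
  have h2 : Real.exp 1 ^ 20 ≤ 2.7182818286 ^ 20 :=
    pow_le_pow_left₀ (Real.exp_pos 1).le Real.exp_one_lt_d9.le 20
  refine h2.trans (le_trans ?_ hx)
  norm_num

private theorem Param_large {n : ℕ} (hn : 2 ≤ n) (h : 50000 * Real.log n < √(n : ℝ)) :
    20 ≤ Real.log n := by
  have hl2 : Real.log 2 ≤ Real.log n :=
    Real.log_le_log (by norm_num) (by exact_mod_cast hn)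
  have h1 := Real.log_two_gt_d9
  have h2 : (34000 : ℝ) ≤ √(n : ℝ) := by nlinarith
  apply Param_log_ge
  have h3 : √(n : ℝ) ^ 2 = n := Real.sq_sqrt (Nat.cast_nonneg n)
  rw [← h3]
  exact pow_le_pow_left₀ (by norm_num) h2 2

private theorem Param_exp {θ : ℝ} : Real.exp θ * (1 - θ) ≤ 1 := by
  have h1 : 1 - θ ≤ Real.exp (-θ) := by
    have := Real.add_one_le_exp (-θ)
    linarith
  calc Real.exp θ * (1 - θ) ≤ Real.exp θ * Real.exp (-θ) :=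
        mul_le_mul_of_nonneg_left h1 (Real.exp_pos _).le
    _ = 1 := by rw [← Real.exp_add]; simp

private theorem Param_pow_le {x : ℝ} {k : ℕ} : (0 ≤ 1 + x) → (1 + x) ^ k ≤ Real.exp (x * k) := by
  intro h
  have h1 : 1 + x ≤ Real.exp x := by
    have := Real.add_one_le_exp x
    linarith
  calc (1 + x) ^ k ≤ Real.exp x ^ k := pow_le_pow_left₀ h h1 k
    _ = Real.exp (x * k) := by rw [← Real.exp_nat_mul, mul_comm]

/-- `exp (-c) ≤ 1 / K` type estimate: `K ≤ exp c`. -/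
private theorem Param_le_exp {K c : ℝ} (h : K ≤ c + 1) : K ≤ Real.exp c :=
  h.trans (Real.add_one_le_exp c)

private theorem Param_t1 {N Q l : ℝ} {T J : ℕ} (hQ0 : 0 < Q) (hl : 20 ≤ l)
    (hT3 : (T : ℝ) ≤ 9 * Q * l) (hJ3 : (J : ℝ) ≤ 5 * l) (hn2 : N ^ 2 = Real.exp (2 * l)) :
    Real.exp (-50 * l ^ 2) * (1 + 1 / Q) ^ (T * J) * (4 * N ^ 2) ≤ Real.exp (-l) / 4 := by
  have h1 : (1 + 1 / Q) ^ (T * J) ≤ Real.exp (45 * l ^ 2) := by
    refine (Param_pow_le (by positivity)).trans (Real.exp_le_exp.2 ?_)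
    push_cast
    have h2 : (T : ℝ) * J ≤ (9 * Q * l) * (5 * l) :=
      mul_le_mul hT3 hJ3 (Nat.cast_nonneg _) (by positivity)
    rw [one_div, ← div_eq_inv_mul, div_le_iff₀ hQ0]
    linarith
  calc Real.exp (-50 * l ^ 2) * (1 + 1 / Q) ^ (T * J) * (4 * N ^ 2)
      ≤ Real.exp (-50 * l ^ 2) * Real.exp (45 * l ^ 2) * (4 * N ^ 2) := by gcongr
    _ = 4 * Real.exp (-l) * Real.exp (3 * l - 5 * l ^ 2) := by
        rw [hn2, mul_assoc, mul_assoc, mul_left_comm (Real.exp (45 * l ^ 2)) 4,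
          mul_left_comm _ (4 : ℝ), ← Real.exp_add, ← Real.exp_add, ← Real.exp_add]
        ring_nf
    _ ≤ 4 * Real.exp (-l) * (1 / 16) := by
        gcongr
        have h3 : (16 : ℝ) ≤ Real.exp (5 * l ^ 2 - 3 * l) := Param_le_exp (by nlinarith)
        rw [show 3 * l - 5 * l ^ 2 = -(5 * l ^ 2 - 3 * l) by ring, Real.exp_neg, one_div]
        exact inv_anti₀ (by norm_num) h3
    _ = Real.exp (-l) / 4 := by ring

private theorem Param_hb {Q l : ℝ} {T : ℕ} (hQ1 : 1 ≤ Q) (hT1 : 8 * Q * l ≤ T) :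
    (1 - 3 / (4 * Q)) ^ T ≤ Real.exp (-6 * l) := by
  have hQ0 : 0 < Q := by linarith
  have h0 : 3 / (4 * Q) ≤ 1 := by
    rw [div_le_one (by positivity)]; linarith
  have h1 := Param_pow_le (x := -(3 / (4 * Q))) (k := T) (by linarith)
  rw [← sub_eq_add_neg] at h1
  refine h1.trans (Real.exp_le_exp.2 ?_)
  have h2 : 3 / (4 * Q) * (8 * Q * l) ≤ 3 / (4 * Q) * T :=
    mul_le_mul_of_nonneg_left hT1 (by positivity)
  have h3 : 3 / (4 * Q) * (8 * Q * l) = 6 * l := by field_simp; ring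
  linarith

private theorem Param_hb2 {N Q l : ℝ} {T : ℕ} (hb : (1 - 3 / (4 * Q)) ^ T ≤ Real.exp (-6 * l))
    (hn2 : N ^ 2 = Real.exp (2 * l)) :
    (1 - 3 / (4 * Q)) ^ T * (2 * N ^ 2) ≤ 2 * Real.exp (-l) * Real.exp (-3 * l) := by
  calc (1 - 3 / (4 * Q)) ^ T * (2 * N ^ 2)
      ≤ Real.exp (-6 * l) * (2 * N ^ 2) := by gcongr
    _ = 2 * Real.exp (-l) * Real.exp (-3 * l) := by
        rw [hn2, mul_left_comm, mul_assoc, ← Real.exp_add, ← Real.exp_add]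
        ring_nf

private theorem Param_h3 {l : ℝ} (hl : 20 ≤ l) : Real.exp (-3 * l) * (40 * l) ≤ 1 := by
  have h3l : l + 1 ≤ Real.exp l := Real.add_one_le_exp l
  have h1 : Real.exp (-3 * l) = (Real.exp (3 * l))⁻¹ := by
    rw [← Real.exp_neg]; ring_nf
  rw [h1, inv_mul_le_iff₀ (Real.exp_pos _), mul_one]
  have h2 : Real.exp (3 * l) = Real.exp l * Real.exp (2 * l) := by
    rw [← Real.exp_add]; ring_nf
  have h4 : (40 : ℝ) ≤ Real.exp (2 * l) := Param_le_exp (by linarith)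
  rw [h2]
  nlinarith [Real.exp_pos l]

private theorem Param_t2 {x l : ℝ} (hl : 20 ≤ l) (hx : x ≤ 2 * Real.exp (-l) * Real.exp (-3 * l)) :
    x ≤ Real.exp (-l) / 4 := by
  have h := Param_h3 hl
  have hel : 0 < Real.exp (-l) := Real.exp_pos _
  have he3 : 0 < Real.exp (-3 * l) := Real.exp_pos _
  have h2 : Real.exp (-3 * l) ≤ 1 / 8 := by nlinarith
  refine hx.trans ?_
  nlinarith

private theorem Param_t3 {x l : ℝ} {J : ℕ} (hl : 20 ≤ l) (hJ3 : (J : ℝ) ≤ 5 * l)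
    (hx : x ≤ 2 * Real.exp (-l) * Real.exp (-3 * l)) : J * x ≤ Real.exp (-l) / 4 := by
  have h := Param_h3 hl
  have hel : 0 < Real.exp (-l) := Real.exp_pos _
  have he3 : 0 < Real.exp (-3 * l) := Real.exp_pos _
  calc J * x ≤ J * (2 * Real.exp (-l) * Real.exp (-3 * l)) := by gcongr
    _ ≤ (5 * l) * (2 * Real.exp (-l) * Real.exp (-3 * l)) := by gcongr
    _ = Real.exp (-l) / 4 * (Real.exp (-3 * l) * (40 * l)) := by ring
    _ ≤ Real.exp (-l) / 4 * 1 := by gcongr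
    _ = Real.exp (-l) / 4 := by ring

private theorem Param_hJp {l : ℝ} {J : ℕ} (hl : 20 ≤ l) (hJ1 : 4 * l ≤ J) :
    (1 : ℝ) / 2 ^ J ≤ Real.exp (-(27 / 10) * l) := by
  have h1 : Real.exp (-(27 / 10) * l) = 1 / Real.exp (27 / 10 * l) := by
    rw [one_div, ← Real.exp_neg]; ring_nf
  rw [h1]
  refine one_div_le_one_div_of_le (Real.exp_pos _) ?_
  have h2 : (2 : ℝ) ^ J = Real.exp (J * Real.log 2) := by
    rw [Real.exp_nat_mul, Real.exp_log (by norm_num)]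
  rw [h2]
  refine Real.exp_le_exp.2 ?_
  have h3 := Real.log_two_gt_d9
  have h4 : 4 * l * 0.69 ≤ J * Real.log 2 :=
    mul_le_mul hJ1 (by linarith) (by norm_num) (Nat.cast_nonneg _)
  linarith

private theorem Param_t4 {N G l : ℝ} {J : ℕ} (hl : 20 ≤ l) (hN : 0 < N) (hG1 : 1 ≤ G)
    (hexp : Real.exp l = N) (hJp : (1 : ℝ) / 2 ^ J ≤ Real.exp (-(27 / 10) * l)) :
    2 * (1 / 2 ^ J) / G * N ≤ Real.exp (-l) / 4 := by
  have hG0 : 0 < G := by linarith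
  calc 2 * (1 / 2 ^ J) / G * N ≤ 2 * (1 / 2 ^ J) / 1 * N := by gcongr
    _ = 2 * N * (1 / 2 ^ J) := by ring
    _ ≤ 2 * N * Real.exp (-(27 / 10) * l) := by gcongr
    _ = Real.exp (-l) / 4 * (8 * Real.exp (-(7 / 10) * l)) := by
        rw [← hexp]
        have h5 : Real.exp (-(27 / 10) * l) =
            Real.exp (-l) * Real.exp (-l) * Real.exp (-(7 / 10) * l) := by
          rw [← Real.exp_add, ← Real.exp_add]; ring_nf
        have h6 : Real.exp l * Real.exp (-l) = 1 := by rw [← Real.exp_add]; simp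
        rw [h5]
        linear_combination (2 * Real.exp (-l) * Real.exp (-(7 / 10) * l)) * h6
    _ ≤ Real.exp (-l) / 4 * 1 := by
        gcongr
        have h7 : (8 : ℝ) ≤ Real.exp (7 / 10 * l) := Param_le_exp (by linarith)
        have h8 : Real.exp (-(7 / 10) * l) = (Real.exp (7 / 10 * l))⁻¹ := by
          rw [← Real.exp_neg]; ring_nf
        rw [h8, ← div_eq_mul_inv, div_le_one (Real.exp_pos _)]
        exact h7
    _ = Real.exp (-l) / 4 := by ring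

/-- the choice of `f`, `pm`, `Km`. -/
private theorem Param_pm {n s l f : ℝ} {Km : ℕ} (hss : s * s = n) (hs0 : 0 < s) (hl : 20 ≤ l)
    (hf0 : 0 < f) (hf1 : 5000 * (s * l) ≤ f) (hK2 : (Km : ℝ) < 10240000 * l ^ 2 + 1) :
    0 ≤ n / (16 * f ^ 2) ∧ n / (16 * f ^ 2) ≤ 1 / 2 ∧ 1 / 2 ≤ (1 - n / (16 * f ^ 2)) ^ Km := by
  have hn0 : 0 < n := by rw [← hss]; positivity
  have hl2 : 1 ≤ l ^ 2 := by nlinarith
  have hpm0 : 0 ≤ n / (16 * f ^ 2) := by positivity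
  have hf3 : 25000000 * (n * l ^ 2) ≤ f ^ 2 := by
    have h1 : (5000 * (s * l)) ^ 2 ≤ f ^ 2 := pow_le_pow_left₀ (by positivity) hf1 2
    have h2 : (5000 * (s * l)) ^ 2 = 25000000 * (n * l ^ 2) := by rw [← hss]; ring
    linarith
  have hpm1 : n / (16 * f ^ 2) * (400000000 * l ^ 2) ≤ 1 := by
    rw [div_mul_eq_mul_div, div_le_one (by positivity)]
    linarith
  generalize n / (16 * f ^ 2) = pm at hpm0 hpm1 ⊢
  have hKpm : Km * pm ≤ 1 / 2 := by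
    have h1 : (Km : ℝ) * pm ≤ (10240001 * l ^ 2) * pm :=
      mul_le_mul_of_nonneg_right (by linarith) hpm0
    nlinarith
  have hpm2 : pm ≤ 1 / 2 := by nlinarith
  refine ⟨hpm0, hpm2, ?_⟩
  have h1 := one_add_mul_le_pow (a := -pm) (by linarith) Km
  have h2 : (1 + -pm) = 1 - pm := by ring
  rw [h2] at h1
  linarith

theorem params : ∃ C : ℝ, 0 < C ∧ ∀ n : ℕ, 2 ≤ n →
    2 * (n : ℝ) ≤ C * (√(n : ℝ) * Real.log n) ∨
    ∃ (f G Q T J Km : ℕ) (pm θ m lam : ℝ), 1000 ≤ f ∧ √(n : ℝ) * Real.log n ≤ (f : ℝ) ∧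
      16 * f ≤ G ∧ (G : ℝ) ≤ C * (√(n : ℝ) * Real.log n) ∧ 0 < Q ∧ 16 * n ≤ Q * G ∧ 0 ≤ pm ∧
      pm ≤ 1 / 2 ∧ (n : ℝ) ≤ 16 * (f : ℝ) ^ 2 * pm ∧ 1 / 2 ≤ (1 - pm) ^ Km ∧ 0 ≤ θ ∧
      Real.exp θ * (1 - 1 / 204800) ≤ 1 ∧ 0 ≤ m ∧ 1 ≤ m * Real.exp (θ * (Km + 1)) ∧ 0 ≤ lam ∧
      2 * (1 / 2 ^ J) ≤ lam * G ∧
      m * (1 + 1 / (Q : ℝ)) ^ (T * J) * (4 * (n : ℝ) ^ 2) +
        (1 - 3 / (4 * (Q : ℝ))) ^ T * (2 * (n : ℝ) ^ 2) +
        J * ((1 - 3 / (4 * (Q : ℝ))) ^ T * (2 * (n : ℝ) ^ 2)) + lam * n ≤ 1 / n := by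
  refine ⟨100000, by norm_num, fun n hn => ?_⟩
  have hn0 : (0 : ℝ) < n := by
    have : (2 : ℝ) ≤ n := by exact_mod_cast hn
    linarith
  have hs0 : 0 < √(n : ℝ) := Real.sqrt_pos.2 hn0
  have hss : √(n : ℝ) * √(n : ℝ) = n := Real.mul_self_sqrt hn0.le
  have hexp : Real.exp (Real.log n) = n := Real.exp_log hn0
  have hlarge : 50000 * Real.log n < √(n : ℝ) → 20 ≤ Real.log n := Param_large hn
  generalize √(n : ℝ) = s at *
  generalize Real.log n = l at *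
  by_cases hcase : 2 * (n : ℝ) ≤ 100000 * (s * l)
  · exact Or.inl hcase
  right
  have hsl : 50000 * l < s := by
    rw [not_le, ← hss] at hcase
    have h1 : s * (50000 * l) < s * s := by linarith
    exact lt_of_mul_lt_mul_left h1 hs0.le
  have hl20 : 20 ≤ l := hlarge hsl
  have hsl1 : 1 ≤ s * l := by nlinarith
  -- the parameters
  obtain ⟨f, hf1, hf2⟩ : ∃ f : ℕ, 5000 * (s * l) ≤ f ∧ (f : ℝ) < 5000 * (s * l) + 1 :=
    ⟨⌈5000 * (s * l)⌉₊, Nat.le_ceil _, Nat.ceil_lt_add_one (by positivity)⟩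
  have hf1000 : 1000 ≤ f := by
    have : (1000 : ℝ) ≤ f := by linarith
    exact_mod_cast this
  have hf0 : (0 : ℝ) < f := by linarith
  obtain ⟨G, hG⟩ : ∃ G : ℕ, G = 16 * f := ⟨_, rfl⟩
  have hGr : (G : ℝ) = 16 * f := by rw [hG]; push_cast; ring
  have hG0 : (0 : ℝ) < G := by rw [hGr]; linarith
  have hG1 : (1 : ℝ) ≤ G := by rw [hGr]; linarith
  obtain ⟨Q, hQ1⟩ : ∃ Q : ℕ, 16 * (n : ℝ) / G ≤ Q := ⟨⌈16 * (n : ℝ) / G⌉₊, Nat.le_ceil _⟩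
  have hQ0' : (0 : ℝ) < Q := lt_of_lt_of_le (by positivity) hQ1
  have hQ0 : 0 < Q := by exact_mod_cast hQ0'
  have hQ1' : (1 : ℝ) ≤ Q := by exact_mod_cast hQ0
  obtain ⟨T, hT1, hT2⟩ : ∃ T : ℕ, 8 * (Q : ℝ) * l ≤ T ∧ (T : ℝ) < 8 * (Q : ℝ) * l + 1 :=
    ⟨⌈8 * (Q : ℝ) * l⌉₊, Nat.le_ceil _, Nat.ceil_lt_add_one (by positivity)⟩
  have hT3 : (T : ℝ) ≤ 9 * (Q : ℝ) * l := by nlinarith
  obtain ⟨J, hJ1, hJ2⟩ : ∃ J : ℕ, 4 * l ≤ J ∧ (J : ℝ) < 4 * l + 1 :=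
    ⟨⌈4 * l⌉₊, Nat.le_ceil _, Nat.ceil_lt_add_one (by positivity)⟩
  have hJ3 : (J : ℝ) ≤ 5 * l := by linarith
  obtain ⟨Km, hK1, hK2⟩ : ∃ Km : ℕ, 10240000 * l ^ 2 ≤ Km ∧ (Km : ℝ) < 10240000 * l ^ 2 + 1 :=
    ⟨⌈10240000 * l ^ 2⌉₊, Nat.le_ceil _, Nat.ceil_lt_add_one (by positivity)⟩
  obtain ⟨hpm0, hpm2, hpmK⟩ := Param_pm hss hs0 hl20 hf0 hf1 hK2
  -- the terms of the final inequality
  have hne : Real.exp (-l) = 1 / n := by rw [Real.exp_neg, hexp, one_div]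
  have hn2 : (n : ℝ) ^ 2 = Real.exp (2 * l) := by
    rw [← hexp, ← Real.exp_nat_mul]; norm_num
  have hb2 := Param_hb2 (Param_hb hQ1' hT1) hn2
  refine ⟨f, G, Q, T, J, Km, n / (16 * (f : ℝ) ^ 2), 1 / 204800, Real.exp (-50 * l ^ 2),
    2 * (1 / 2 ^ J) / G, hf1000, by linarith, hG.ge, ?_, hQ0, ?_, hpm0, hpm2, ?_, hpmK,
    by norm_num, Param_exp, (Real.exp_pos _).le, ?_, by positivity, ?_, ?_⟩
  · rw [hGr]; linarith
  · rw [div_le_iff₀ hG0] at hQ1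
    exact_mod_cast hQ1
  · field_simp
    exact le_rfl
  · rw [← Real.exp_add]
    refine Real.one_le_exp ?_
    linarith
  · rw [div_mul_cancel₀ _ hG0.ne']
  · have ht1 := Param_t1 hQ0' hl20 hT3 hJ3 hn2
    have ht2 := Param_t2 hl20 hb2
    have ht3 := Param_t3 hl20 hJ3 hb2
    have ht4 := Param_t4 hl20 hn0 hG1 hexp (Param_hJp hl20 hJ1)
    rw [← hne]
    linarith only [ht1, ht2, ht3, ht4]

end Pool.Agent.RSW
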