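import Pool.Agent.RSW.Iter
import Pool.Agent.RSW.Param

/-!
# The theorem (helper13)

Take `C` from `params` (and `⌊C √n log n⌋`).  If `2 n ≤ C √n log n` then every matching can be swept
(`sweep_small`).  Otherwise apply `phases` with `κ = 1`, `μ = m` to the state `r`, `V = univ`, `w = 1`, `K = 0`,
`U = univ.powersetCard 2`: `B G r univ 1 ≤ (m g^(TJ) Psi + h^T |U| + J h^T 2n² ) Z + lam Pt` with
`Psi ≤ 2 |univ.powersetCard 2| ≤ 4 n²`, `|U| ≤ 2 n²`, `Pt = n Z` (`two_mul_card`), `Z = |PM univ|`,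
`B = number of the matchings which cannot be swept`; so `B ≤ Z / n`; `sweep_mono` from `G` to `⌊C √n log n⌋`.
-/

namespace Pool.Agent.RSW

open Equiv Finset
open scoped BigOperators

private theorem choose_two_le (n : ℕ) : (2 * n).choose 2 ≤ 2 * n ^ 2 := by
  rw [Nat.choose_two_right]
  apply Nat.div_le_of_le_mul
  calc 2 * n * (2 * n - 1) ≤ 2 * n * (2 * n) := Nat.mul_le_mul_left _ (Nat.sub_le _ _)
    _ = 2 * (2 * n ^ 2) := by ring

open Classical in
theorem random_surfaces : ∃ C : ℝ, ∀ n : ℕ, 2 ≤ n → ∀ r : Perm (Fin (2 * n)),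
    (∀ x, ((face r univ x).card : ℝ) ≤ √(n : ℝ) * Real.log n) →
      (n : ℝ) * (((PM univ).filter fun M =>
        ¬ Sweep ⌊C * (√(n : ℝ) * Real.log n)⌋₊ r univ M).card : ℝ) ≤
        ((PM (univ : Finset (Fin (2 * n)))).card : ℝ) := by
  obtain ⟨C, hC, hpar⟩ := params
  refine ⟨C, fun n hn r hr => ?_⟩
  have hn0 : (0 : ℝ) < n := by
    have : 0 < n := by omega
    exact_mod_cast this
  rcases hpar n hn with h | ⟨f, G, Q, T, J, Km, pm, θ, m, lam, hf, hfn, hfG, hGC, hQ, hQG, hpm0,
    hpm1, hpm, hKm, hθ0, hθ, hm0, hm, hlam, hlamJ, hfin⟩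
  · have h2 : 2 * n ≤ ⌊C * (√(n : ℝ) * Real.log n)⌋₊ :=
      Nat.le_floor (by push_cast; exact h)
    have h3 : (PM univ).filter (fun M => ¬ Sweep ⌊C * (√(n : ℝ) * Real.log n)⌋₊ r univ M) = ∅ := by
      apply Finset.filter_eq_empty_iff.2
      intro M hM hns
      exact hns (sweep_small r (by rw [card_univ, Fintype.card_fin]; exact h2) hM)
    rw [h3, card_empty, Nat.cast_zero, mul_zero]
    exact Nat.cast_nonneg _
  · have hE : (univ.powersetCard 2 : Finset (Finset (Fin (2 * n)))).card ≤ 2 * n ^ 2 := by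
      rw [card_powersetCard, card_univ, Fintype.card_fin]
      exact choose_two_le n
    have hE' : ((univ.powersetCard 2 : Finset (Finset (Fin (2 * n)))).card : ℝ) ≤ 2 * (n : ℝ) ^ 2 := by
      exact_mod_cast hE
    have hGood := phases (S := Fin (2 * n)) (n := n) (G := G) (f := f) (Q := Q) (Km := Km)
      (T := T) (J := J) (pm := pm) (θ := θ) (κ := 1) (μ := m) (lam := lam) one_pos hf hfG hQ hQG
      hpm0 hpm1 hpm hKm hθ0 hθ hm0 hm hlam hlamJ
    have hsmall : ∀ x ∈ (univ : Finset (Fin (2 * n))), (face r univ x).card ≤ G := by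
      intro x _
      have h1 : ((face r univ x).card : ℝ) ≤ (f : ℝ) := (hr x).trans hfn
      have h2 : (face r univ x).card ≤ f := by exact_mod_cast h1
      omega
    have hInv : Inv n G pm 1 r univ (fun _ => (1 : ℝ)) (fun _ => 0)
        ((univ : Finset (Fin (2 * n))).powersetCard 2) := by
      refine ⟨fun x hx => absurd (mem_univ x) hx, ?_, Subset.rfl, fun e _ => ?_,
        fun e he hne => absurd he hne, hsmall⟩
      · rw [card_univ, Fintype.card_fin]
      · simp
    have hB := hGood r univ _ _ _ hInv hsmall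
    have hB1 : B G r univ (fun _ => (1 : ℝ)) =
        (((PM univ).filter fun M => ¬ Sweep G r univ M).card : ℝ) := by
      unfold B wt
      simp
    have hZ1 : Z (univ : Finset (Fin (2 * n))) (fun _ => (1 : ℝ)) =
        ((PM (univ : Finset (Fin (2 * n)))).card : ℝ) := by
      unfold Z wt
      simp
    have hPt : Pt (univ : Finset (Fin (2 * n))) (fun _ => (1 : ℝ)) =
        n * ((PM (univ : Finset (Fin (2 * n)))).card : ℝ) := by
      unfold Pt wt
      have h1 : ∀ M ∈ PM (univ : Finset (Fin (2 * n))),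
          (∏ e ∈ M, (1 : ℝ)) * ∑ e ∈ M, (1 : ℝ)⁻¹ = n := by
        intro M hM
        have h2 := two_mul_card hM
        rw [card_univ, Fintype.card_fin] at h2
        have h3 : M.card = n := by omega
        simp [h3]
      rw [Finset.sum_congr rfl h1, Finset.sum_const, nsmul_eq_mul]
      ring
    have hPsi : Psi θ r univ (fun _ => 0) ≤ 4 * (n : ℝ) ^ 2 := by
      unfold Psi
      calc ∑ e ∈ (univ : Finset (Fin (2 * n))).powersetCard 2,
            Real.exp (θ * ((0 : ℕ) : ℝ)) * (1 + if Same r e then 1 else 0)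
          ≤ ∑ e ∈ (univ : Finset (Fin (2 * n))).powersetCard 2, (2 : ℝ) := by
            refine Finset.sum_le_sum fun e _ => ?_
            rw [Nat.cast_zero, mul_zero, Real.exp_zero, one_mul]
            split_ifs <;> norm_num
        _ = 2 * ((univ.powersetCard 2 : Finset (Finset (Fin (2 * n)))).card : ℝ) := by
            rw [Finset.sum_const, nsmul_eq_mul]
            ring
        _ ≤ 4 * (n : ℝ) ^ 2 := by linarith
    have hh : (0 : ℝ) ≤ (1 - 3 / (4 * (Q : ℝ))) ^ T := by
      apply pow_nonneg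
      have hQ1 : (1 : ℝ) ≤ Q := by exact_mod_cast hQ
      rw [sub_nonneg, div_le_one (by positivity)]
      linarith
    have hg : (0 : ℝ) ≤ (1 + 1 / (Q : ℝ)) ^ (T * J) := by positivity
    have hP0 : (0 : ℝ) ≤ ((PM (univ : Finset (Fin (2 * n)))).card : ℝ) := Nat.cast_nonneg _
    unfold Bd at hB
    rw [hB1, hZ1, hPt] at hB
    have h4 : (m * (1 + 1 / (Q : ℝ)) ^ (T * J) * Psi θ r univ (fun _ => 0) +
        (1 - 3 / (4 * (Q : ℝ))) ^ T *
          ((univ.powersetCard 2 : Finset (Finset (Fin (2 * n)))).card : ℝ) +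
        J * ((1 - 3 / (4 * (Q : ℝ))) ^ T * (2 * (n : ℝ) ^ 2))) + lam * n ≤ 1 / n := by
      refine le_trans ?_ hfin
      have a1 := mul_le_mul_of_nonneg_left hPsi (mul_nonneg hm0 hg)
      have a2 := mul_le_mul_of_nonneg_left hE' hh
      linarith
    have h5 : (((PM univ).filter fun M => ¬ Sweep G r univ M).card : ℝ) ≤
        1 / n * ((PM (univ : Finset (Fin (2 * n)))).card : ℝ) := by
      refine hB.trans ?_
      have := mul_le_mul_of_nonneg_right h4 hP0
      linarith
    have h6 : ((PM univ).filter fun M => ¬ Sweep ⌊C * (√(n : ℝ) * Real.log n)⌋₊ r univ M).card ≤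
        ((PM univ).filter fun M => ¬ Sweep G r univ M).card := by
      apply Finset.card_le_card
      intro M hM
      rw [Finset.mem_filter] at hM ⊢
      exact ⟨hM.1, fun hs => hM.2 (sweep_mono (Nat.le_floor hGC) hs)⟩
    have h7 : (((PM univ).filter fun M =>
        ¬ Sweep ⌊C * (√(n : ℝ) * Real.log n)⌋₊ r univ M).card : ℝ) ≤
        1 / n * ((PM (univ : Finset (Fin (2 * n)))).card : ℝ) :=
      le_trans (by exact_mod_cast h6) h5
    calc (n : ℝ) * (((PM univ).filter fun M =>
        ¬ Sweep ⌊C * (√(n : ℝ) * Real.log n)⌋₊ r univ M).card : ℝ)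
        ≤ n * (1 / n * ((PM (univ : Finset (Fin (2 * n)))).card : ℝ)) :=
          mul_le_mul_of_nonneg_left h7 hn0.le
      _ = ((PM (univ : Finset (Fin (2 * n)))).card : ℝ) := by
          field_simp

end Pool.Agent.RSW
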