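import Pool.Agent.RSW.Def

/-!
# Matchings (helper13)

Elementary facts.  `sum_split`: the pairs `(M, F)` with `M ∈ PM V`, `F ⊆ M` correspond to the pairs `(F, M')`
with `F ∈ PMat V`, `M' ∈ PM (V \ cov F)` by `(M, F) ↦ (F, M \ F)`, inverse `(F, M') ↦ (F ∪ M', F)`
(`F` and `M'` are disjoint, since the elements of `M'` are nonempty subsets of `V \ cov F`).
`two_mul_card`: `V` is the disjoint union of the elements of `M`.
-/

namespace Pool.Agent.RSW

open Equiv Finset
open scoped BigOperators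

variable {S : Type*} [Fintype S] [DecidableEq S]


theorem mem_PM {V : Finset S} {M : Finset (Finset S)} :
    M ∈ PM V ↔ (∀ e ∈ M, e ⊆ V ∧ e.card = 2) ∧ ∀ x ∈ V, ∃ e ∈ M, x ∈ e ∧ ∀ e' ∈ M, x ∈ e' → e' = e := by
  unfold PM
  rw [Finset.mem_filter, Finset.mem_powerset]
  constructor
  · rintro ⟨h1, h2⟩
    refine ⟨fun e he => Finset.mem_powersetCard.mp (h1 he), fun x hx => ?_⟩
    obtain ⟨e, he⟩ := Finset.card_eq_one.mp (h2 x hx)
    have h3 : e ∈ M.filter fun e => x ∈ e := by rw [he]; exact Finset.mem_singleton_self e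
    rw [Finset.mem_filter] at h3
    refine ⟨e, h3.1, h3.2, fun e' he' hx' => ?_⟩
    have h4 : e' ∈ M.filter fun e => x ∈ e := Finset.mem_filter.mpr ⟨he', hx'⟩
    rw [he] at h4
    exact Finset.mem_singleton.mp h4
  · rintro ⟨h1, h2⟩
    refine ⟨fun e he => Finset.mem_powersetCard.mpr (h1 e he), fun x hx => ?_⟩
    obtain ⟨e, he, hxe, hu⟩ := h2 x hx
    rw [Finset.card_eq_one]
    refine ⟨e, ?_⟩
    ext e'
    rw [Finset.mem_filter, Finset.mem_singleton]
    constructor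
    · rintro ⟨h3, h4⟩
      exact hu e' h3 h4
    · rintro rfl
      exact ⟨he, hxe⟩

theorem mem_PMat {V : Finset S} {F : Finset (Finset S)} :
    F ∈ PMat V ↔ (∀ e ∈ F, e ⊆ V ∧ e.card = 2) ∧
      ∀ e ∈ F, ∀ e' ∈ F, ∀ x, x ∈ e → x ∈ e' → e = e' := by
  unfold PMat
  rw [Finset.mem_filter, Finset.mem_powerset]
  constructor
  · rintro ⟨h1, h2⟩
    refine ⟨fun e he => Finset.mem_powersetCard.mp (h1 he), fun e he e' he' x hx hx' => ?_⟩
    have hxV : x ∈ V := (Finset.mem_powersetCard.mp (h1 he)).1 hx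
    exact Finset.card_le_one.mp (h2 x hxV) e (Finset.mem_filter.mpr ⟨he, hx⟩) e'
      (Finset.mem_filter.mpr ⟨he', hx'⟩)
  · rintro ⟨h1, h2⟩
    refine ⟨fun e he => Finset.mem_powersetCard.mpr (h1 e he), fun x _ => ?_⟩
    rw [Finset.card_le_one]
    intro e he e' he'
    rw [Finset.mem_filter] at he he'
    exact h2 e he.1 e' he'.1 x he.2 he'.2

theorem PM_empty : PM (∅ : Finset S) = {∅} := by
  ext M
  rw [mem_PM, Finset.mem_singleton]
  constructor
  · rintro ⟨h1, _⟩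
    rw [Finset.eq_empty_iff_forall_notMem]
    intro e he
    obtain ⟨h3, h4⟩ := h1 e he
    rw [Finset.subset_empty.mp h3] at h4
    simp at h4
  · rintro rfl
    exact ⟨fun e he => absurd he (Finset.notMem_empty e),
      fun x hx => absurd hx (Finset.notMem_empty x)⟩

theorem two_mul_card {V : Finset S} {M : Finset (Finset S)} (hM : M ∈ PM V) :
    2 * M.card = V.card := by
  obtain ⟨h1, h2⟩ := mem_PM.mp hM
  have hV : V = M.biUnion id := by
    ext x
    rw [Finset.mem_biUnion]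
    constructor
    · intro hx
      obtain ⟨e, he, hxe, _⟩ := h2 x hx
      exact ⟨e, he, hxe⟩
    · rintro ⟨e, he, hxe⟩
      exact (h1 e he).1 hxe
  have hdis : ∀ e ∈ M, ∀ e' ∈ M, e ≠ e' → Disjoint (id e) (id e') := by
    intro e he e' he' hne
    rw [Finset.disjoint_left]
    intro x hx hx'
    obtain ⟨e'', _, _, hu⟩ := h2 x ((h1 e he).1 hx)
    exact hne ((hu e he hx).trans (hu e' he' hx').symm)
  have hs : ∑ u ∈ M, (id u : Finset S).card = ∑ _u ∈ M, 2 :=
    Finset.sum_congr rfl (fun e he => (h1 e he).2)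
  rw [hV, Finset.card_biUnion hdis, hs, Finset.sum_const, smul_eq_mul, mul_comm]

theorem cov_single (e : Finset S) : cov {e} = e := by
  unfold cov
  rw [Finset.singleton_biUnion]
  rfl

theorem single_mem {V : Finset S} {e : Finset S} (he : e ∈ V.powersetCard 2) :
    ({e} : Finset (Finset S)) ∈ PMat V := by
  rw [mem_PMat]
  refine ⟨fun e' he' => ?_, fun e' he' e'' he'' x _ _ => ?_⟩
  · rw [Finset.mem_singleton.mp he']
    exact Finset.mem_powersetCard.mp he
  · rw [Finset.mem_singleton.mp he', Finset.mem_singleton.mp he'']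

omit [Fintype S] in
private theorem mem_cov {F : Finset (Finset S)} {x : S} : x ∈ cov F ↔ ∃ e ∈ F, x ∈ e := by
  unfold cov
  rw [Finset.mem_biUnion]
  rfl

theorem union_mem {V : Finset S} {F M' : Finset (Finset S)} (hF : F ∈ PMat V)
    (hM : M' ∈ PM (V \ cov F)) : F ∪ M' ∈ PM V ∧ Disjoint F M' := by
  obtain ⟨f1, f2⟩ := mem_PMat.mp hF
  obtain ⟨m1, m2⟩ := mem_PM.mp hM
  have key : ∀ e ∈ M', ∀ x ∈ e, x ∉ cov F := fun e he x hx =>
    (Finset.mem_sdiff.mp ((m1 e he).1 hx)).2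
  refine ⟨?_, ?_⟩
  · rw [mem_PM]
    refine ⟨fun e he => ?_, fun x hx => ?_⟩
    · rcases Finset.mem_union.mp he with h | h
      · exact f1 e h
      · exact ⟨(m1 e h).1.trans Finset.sdiff_subset, (m1 e h).2⟩
    · by_cases hc : x ∈ cov F
      · obtain ⟨e, he, hxe⟩ := mem_cov.mp hc
        refine ⟨e, Finset.mem_union_left _ he, hxe, fun e' he' hxe' => ?_⟩
        rcases Finset.mem_union.mp he' with h | h
        · exact f2 e' h e he x hxe' hxe
        · exact absurd hc (key e' h x hxe')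
      · obtain ⟨e, he, hxe, hu⟩ := m2 x (Finset.mem_sdiff.mpr ⟨hx, hc⟩)
        refine ⟨e, Finset.mem_union_right _ he, hxe, fun e' he' hxe' => ?_⟩
        rcases Finset.mem_union.mp he' with h | h
        · exact absurd (mem_cov.mpr ⟨e', h, hxe'⟩) hc
        · exact hu e' h hxe'
  · rw [Finset.disjoint_left]
    intro e he he'
    have hne : e.Nonempty := by
      rw [← Finset.card_pos, (f1 e he).2]
      norm_num
    obtain ⟨x, hx⟩ := hne
    exact key e he' x hx (mem_cov.mpr ⟨e, he, hx⟩)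

theorem sdiff_mem {V : Finset S} {F M : Finset (Finset S)} (hM : M ∈ PM V) (hF : F ⊆ M) :
    F ∈ PMat V ∧ M \ F ∈ PM (V \ cov F) := by
  obtain ⟨m1, m2⟩ := mem_PM.mp hM
  have huniq : ∀ e ∈ M, ∀ e' ∈ M, ∀ x, x ∈ e → x ∈ e' → e = e' := by
    intro e he e' he' x hx hx'
    obtain ⟨e'', _, _, hu⟩ := m2 x ((m1 e he).1 hx)
    exact (hu e he hx).trans (hu e' he' hx').symm
  refine ⟨?_, ?_⟩
  · rw [mem_PMat]
    exact ⟨fun e he => m1 e (hF he), fun e he e' he' x hx hx' =>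
      huniq e (hF he) e' (hF he') x hx hx'⟩
  · rw [mem_PM]
    refine ⟨fun e he => ?_, fun x hx => ?_⟩
    · obtain ⟨heM, heF⟩ := Finset.mem_sdiff.mp he
      refine ⟨fun x hx => Finset.mem_sdiff.mpr ⟨(m1 e heM).1 hx, fun hc => ?_⟩, (m1 e heM).2⟩
      obtain ⟨f, hf, hxf⟩ := mem_cov.mp hc
      have := huniq e heM f (hF hf) x hx hxf
      rw [this] at heF
      exact heF hf
    · obtain ⟨hxV, hxc⟩ := Finset.mem_sdiff.mp hx
      obtain ⟨e, he, hxe, hu⟩ := m2 x hxV
      refine ⟨e, Finset.mem_sdiff.mpr ⟨he, fun hf => hxc (mem_cov.mpr ⟨e, hf, hxe⟩)⟩, hxe,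
        fun e' he' hxe' => hu e' (Finset.mem_sdiff.mp he').1 hxe'⟩

theorem erase_mem {V : Finset S} {M : Finset (Finset S)} {e : Finset S} (hM : M ∈ PM V)
    (he : e ∈ M) : M.erase e ∈ PM (V \ e) := by
  have h := (sdiff_mem hM (Finset.singleton_subset_iff.mpr he)).2
  rwa [cov_single, Finset.sdiff_singleton_eq_erase] at h

theorem sum_split (V : Finset S) (h : Finset (Finset S) → Finset (Finset S) → ℝ) :
    ∑ M ∈ PM V, ∑ F ∈ M.powerset, h F (M \ F) = ∑ F ∈ PMat V, ∑ M' ∈ PM (V \ cov F), h F M' := by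
  rw [Finset.sum_sigma', Finset.sum_sigma']
  refine Finset.sum_bij' (fun a _ => ⟨a.2, a.1 \ a.2⟩) (fun b _ => ⟨b.1 ∪ b.2, b.1⟩) ?_ ?_ ?_ ?_ ?_
  · rintro ⟨M, F⟩ ha
    rw [Finset.mem_sigma] at ha ⊢
    exact sdiff_mem ha.1 (Finset.mem_powerset.mp ha.2)
  · rintro ⟨F, M'⟩ hb
    rw [Finset.mem_sigma] at hb ⊢
    exact ⟨(union_mem hb.1 hb.2).1, Finset.mem_powerset.mpr Finset.subset_union_left⟩
  · rintro ⟨M, F⟩ ha
    rw [Finset.mem_sigma] at ha
    have : F ∪ M \ F = M := Finset.union_sdiff_of_subset (Finset.mem_powerset.mp ha.2)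
    simp only [this]
  · rintro ⟨F, M'⟩ hb
    rw [Finset.mem_sigma] at hb
    have hd := (union_mem hb.1 hb.2).2
    have : (F ∪ M') \ F = M' := Finset.union_sdiff_cancel_left hd
    simp only [this]
  · rintro ⟨M, F⟩ _
    rfl

end Pool.Agent.RSW
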