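import Pool.Agent.RSW.Rec

/-!
# Near uniformity (helper13)

All weights lie in `[c κ, κ]`.  Write `e = {x, y}`.
Claim: `c * Z (V \ {x, y}) ≤ Z (V \ {x, y'})` for all `y' ∈ V`, `y' ≠ x`.  For `y' = y` this is `c ≤ 1`.
For `y' ≠ y` apply `Z_rec` to `Z (V \ {x, y})` at `y'` and to `Z (V \ {x, y'})` at `y`: both are sums over
`z ∈ V \ {x, y, y'}` of `w {y', z} * Z (V \ {x, y, y', z})` and of `w {y, z} * Z (V \ {x, y, y', z})`, and
`c * w {y', z} ≤ c κ ≤ w {y, z}`.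
Then by `Z_rec` at `x`:
`Z V = ∑_{y'} w {x, y'} Z (V \ {x, y'}) ≥ (|V| - 1) c κ * c Z (V \ {x, y}) ≥ c² (|V| - 1) w {x, y} Z (V \ {x, y})`,
and `c² Z V ≤ c² ∑_{y'} κ Z (V \ {x, y'}) ≤ c ∑_{y'} κ Z (V \ {x, y}) ≤ (|V| - 1) w {x, y} Z (V \ {x, y})`
(the claim with `y`, `y'` exchanged and `c κ ≤ w {x, y}`).
-/

namespace Pool.Agent.RSW

open Equiv Finset
open scoped BigOperators

variable {S : Type*} [Fintype S] [DecidableEq S]

omit [Fintype S] in
private theorem nu_pair {V : Finset S} {x y : S} (hx : x ∈ V) (hy : y ∈ V) (hxy : x ≠ y) :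
    ({x, y} : Finset S) ∈ V.powersetCard 2 := by
  rw [mem_powersetCard]
  refine ⟨?_, card_pair hxy⟩
  intro z hz
  rw [mem_insert, mem_singleton] at hz
  rcases hz with rfl | rfl
  · exact hx
  · exact hy

private theorem nu_nonneg {V W : Finset S} {w : Finset S → ℝ} {κ c : ℝ} (hκ : 0 < κ) (hc : 0 < c)
    (hw : ∀ e ∈ V.powersetCard 2, c * κ ≤ w e ∧ w e ≤ κ) (hWV : W ⊆ V) : 0 ≤ Z W w := by
  apply Z_nonneg
  intro e he
  have h1 := (hw e (powersetCard_mono hWV he)).1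
  have h2 : 0 < c * κ := mul_pos hc hκ
  linarith

private theorem nu_claim {V : Finset S} {w : Finset S → ℝ} {κ c : ℝ} (hκ : 0 < κ) (hc : 0 < c)
    (hc1 : c ≤ 1) (hw : ∀ e ∈ V.powersetCard 2, c * κ ≤ w e ∧ w e ≤ κ) {x y y' : S}
    (hy : y ∈ V.erase x) (hy' : y' ∈ V.erase x) :
    c * Z (V \ {x, y}) w ≤ Z (V \ {x, y'}) w := by
  rw [mem_erase] at hy hy'
  by_cases h : y = y'
  · rw [← h]
    have h0 := nu_nonneg (W := V \ {x, y}) hκ hc hw sdiff_subset
    nlinarith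
  · have hm' : y' ∈ V \ {x, y} := by
      rw [mem_sdiff, mem_insert, mem_singleton]
      exact ⟨hy'.2, fun h1 => h1.elim hy'.1 (fun h2 => h h2.symm)⟩
    have hm : y ∈ V \ {x, y'} := by
      rw [mem_sdiff, mem_insert, mem_singleton]
      exact ⟨hy.2, fun h1 => h1.elim hy.1 (fun h2 => h h2)⟩
    rw [Z_rec w hm', Z_rec w hm, mul_sum]
    have hset : (V \ {x, y}).erase y' = (V \ {x, y'}).erase y := by
      ext z
      simp only [mem_erase, mem_sdiff, mem_insert, mem_singleton, not_or]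
      tauto
    rw [hset]
    apply sum_le_sum
    intro z hz
    have hz' : z ≠ y ∧ z ∈ V ∧ z ≠ x ∧ z ≠ y' := by
      simp only [mem_erase, mem_sdiff, mem_insert, mem_singleton, not_or] at hz
      exact hz
    obtain ⟨hz1, hz2, hz3, hz4⟩ := hz'
    have hs : (V \ {x, y}) \ {y', z} = (V \ {x, y'}) \ {y, z} := by
      ext t
      simp only [mem_sdiff, mem_insert, mem_singleton, not_or]
      tauto
    rw [hs]
    have h0 := nu_nonneg (W := (V \ {x, y'}) \ {y, z}) hκ hc hw (sdiff_subset.trans sdiff_subset)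
    have h1 := (hw _ (nu_pair hy'.2 hz2 (Ne.symm hz4))).2
    have h2 := (hw _ (nu_pair hy.2 hz2 (Ne.symm hz1))).1
    have h3 : c * w {y', z} ≤ w {y, z} := by nlinarith
    calc c * (w {y', z} * Z ((V \ {x, y'}) \ {y, z}) w) =
        (c * w {y', z}) * Z ((V \ {x, y'}) \ {y, z}) w := by ring
      _ ≤ w {y, z} * Z ((V \ {x, y'}) \ {y, z}) w := mul_le_mul_of_nonneg_right h3 h0

theorem near_uniform {V : Finset S} {w : Finset S → ℝ} {κ c : ℝ} (hκ : 0 < κ) (hc : 0 < c)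
    (hw : ∀ e ∈ V.powersetCard 2, c * κ ≤ w e ∧ w e ≤ κ) {e : Finset S}
    (he : e ∈ V.powersetCard 2) :
    c ^ 2 * Z V w ≤ w e * Z (V \ e) w * ((V.card : ℝ) - 1) ∧
      c ^ 2 * (w e * Z (V \ e) w * ((V.card : ℝ) - 1)) ≤ Z V w := by
  obtain ⟨hewl, hewu⟩ := hw e he
  have hc1 : c ≤ 1 := by
    by_contra h
    rw [not_le] at h
    nlinarith
  obtain ⟨heV, hcard⟩ := mem_powersetCard.1 he
  obtain ⟨x, y, hxy, rfl⟩ := card_eq_two.1 hcard
  have hx : x ∈ V := heV (by simp)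
  have hy : y ∈ V := heV (by simp)
  have hyx : y ∈ V.erase x := by
    rw [mem_erase]
    exact ⟨hxy.symm, hy⟩
  have hcardV : ((V.erase x).card : ℝ) = (V.card : ℝ) - 1 := by
    rw [card_erase_of_mem hx, Nat.cast_sub (card_pos.2 ⟨x, hx⟩)]
    simp
  have hZ0 := nu_nonneg (W := V \ {x, y}) hκ hc hw sdiff_subset
  rw [← hcardV, Z_rec w hx]
  have hpt : ∀ y' ∈ V.erase x, c * κ ≤ w {x, y'} ∧ w {x, y'} ≤ κ := by
    intro y' hy'
    rw [mem_erase] at hy'
    exact hw _ (nu_pair hx hy'.2 (Ne.symm hy'.1))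
  constructor
  · rw [mul_sum]
    have h1 : ∑ y' ∈ V.erase x, c ^ 2 * (w {x, y'} * Z (V \ {x, y'}) w) ≤
        ∑ _y' ∈ V.erase x, w {x, y} * Z (V \ {x, y}) w := by
      apply sum_le_sum
      intro y' hy'
      have h2 := nu_claim hκ hc hc1 hw hy' hyx
      have h3 := (hpt y' hy').2
      have h4 := nu_nonneg (W := V \ {x, y'}) hκ hc hw sdiff_subset
      calc c ^ 2 * (w {x, y'} * Z (V \ {x, y'}) w) =
          (c * w {x, y'}) * (c * Z (V \ {x, y'}) w) := by ring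
        _ ≤ (c * κ) * (c * Z (V \ {x, y'}) w) :=
            mul_le_mul_of_nonneg_right (mul_le_mul_of_nonneg_left h3 hc.le)
              (mul_nonneg hc.le h4)
        _ ≤ (c * κ) * Z (V \ {x, y}) w :=
            mul_le_mul_of_nonneg_left h2 (mul_nonneg hc.le hκ.le)
        _ ≤ w {x, y} * Z (V \ {x, y}) w := mul_le_mul_of_nonneg_right hewl hZ0
    rw [sum_const, nsmul_eq_mul] at h1
    linarith
  · have h1 : ∑ _y' ∈ V.erase x, c ^ 2 * (w {x, y} * Z (V \ {x, y}) w) ≤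
        ∑ y' ∈ V.erase x, w {x, y'} * Z (V \ {x, y'}) w := by
      apply sum_le_sum
      intro y' hy'
      have h2 := nu_claim hκ hc hc1 hw hyx hy'
      have h3 := (hpt y' hy').1
      have h4 := nu_nonneg (W := V \ {x, y'}) hκ hc hw sdiff_subset
      calc c ^ 2 * (w {x, y} * Z (V \ {x, y}) w) =
          (c * w {x, y}) * (c * Z (V \ {x, y}) w) := by ring
        _ ≤ (c * κ) * (c * Z (V \ {x, y}) w) :=
            mul_le_mul_of_nonneg_right (mul_le_mul_of_nonneg_left hewu hc.le)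
              (mul_nonneg hc.le hZ0)
        _ ≤ (c * κ) * Z (V \ {x, y'}) w :=
            mul_le_mul_of_nonneg_left h2 (mul_nonneg hc.le hκ.le)
        _ ≤ w {x, y'} * Z (V \ {x, y'}) w := mul_le_mul_of_nonneg_right h3 h4
    rw [sum_const, nsmul_eq_mul] at h1
    linarith

end Pool.Agent.RSW
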