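import Pool.Agent.RSW.NU

/-!
# Exactly one revealed pair (helper13)

`p e = p'` for `e ∈ E`, `p e = 0` otherwise; `V' = V \ c`, `|V'| = |V| - 2`.
`Z V' ((1-p) w) = ∑_{M ∈ PM V'} wt w M (1 - p')^(|M ∩ E|) ≥ ∑_M wt w M (1 - p' |M ∩ E|)` (Bernoulli), and by
`sum_card_inter` and `near_uniform` (with `c = 1/4`, upper bound) in `V'`
`∑_M wt w M |M ∩ E| = ∑_{e ∈ E, e ⊆ V'} w e Z (V' \ e) ≤ |E| * 16 / (|V| - 3) * Z V'`.
With `32 p' |E| ≤ |V| - 3` this gives `Z V' ((1-p) w) ≥ (1/2) Z V' w`; and `near_uniform` (lower bound) in `V`: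
`w c * Z V' w * (|V| - 1) ≥ Z V w / 16`.
-/

namespace Pool.Agent.RSW

open Equiv Finset
open scoped BigOperators

variable {S : Type*} [Fintype S] [DecidableEq S]

private theorem Single_wt (w : Finset S → ℝ) (E M : Finset (Finset S)) (p' : ℝ) :
    wt (fun e => (1 - (if e ∈ E then p' else 0)) * w e) M =
      wt w M * (1 - p') ^ (M.filter fun e => e ∈ E).card := by
  unfold wt
  rw [prod_mul_distrib, mul_comm]
  congr 1
  have h1 : ∀ e ∈ M, (1 - (if e ∈ E then p' else 0)) = if e ∈ E then 1 - p' else 1 := by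
    intro e _
    split_ifs <;> ring
  rw [prod_congr rfl h1, ← prod_filter, prod_const]

theorem single_mass {V : Finset S} {w : Finset S → ℝ} {κ : ℝ} (hκ : 0 < κ)
    (hw : ∀ e ∈ V.powersetCard 2, κ / 4 ≤ w e ∧ w e ≤ κ) {E : Finset (Finset S)}
    (hE : E ⊆ V.powersetCard 2) {p' : ℝ} (hp0 : 0 ≤ p') (hp1 : p' ≤ 1) (hV : 6 ≤ V.card)
    (hp : 32 * p' * E.card ≤ (V.card : ℝ) - 3) {c : Finset S} (hc : c ∈ E) :
    p' * Z V w ≤ 32 * ((V.card : ℝ) - 1) *
      (p' * w c * Z (V \ c) (fun e => (1 - (if e ∈ E then p' else 0)) * w e)) := by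
  have hcV : c ∈ V.powersetCard 2 := hE hc
  obtain ⟨hcs, hc2⟩ := mem_powersetCard.1 hcV
  have hcard : (V \ c).card = V.card - 2 := by
    rw [card_sdiff_of_subset hcs, hc2]
  have hcardR : ((V \ c).card : ℝ) = (V.card : ℝ) - 2 := by
    rw [hcard, Nat.cast_sub (by omega)]
    norm_num
  have hVR : (6 : ℝ) ≤ V.card := by exact_mod_cast hV
  have hw1 : ∀ e ∈ V.powersetCard 2, 1 / 4 * κ ≤ w e ∧ w e ≤ κ := fun e he =>
    ⟨by have := (hw e he).1; linarith, (hw e he).2⟩
  have hsub : (V \ c).powersetCard 2 ⊆ V.powersetCard 2 := powersetCard_mono sdiff_subset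
  have hA := (near_uniform hκ (by norm_num : (0 : ℝ) < 1 / 4) hw1 hcV).1
  have hZ' : 0 ≤ Z (V \ c) w := Z_nonneg fun e he => by
    have := (hw e (hsub he)).1
    linarith
  have hwc : 0 ≤ w c := by
    have := (hw c hcV).1
    linarith
  have hwt : ∀ M ∈ PM (V \ c), 0 ≤ wt w M := fun M hM => prod_nonneg fun e he => by
    have h1 : e ∈ (V \ c).powersetCard 2 := mem_powersetCard.2 ((mem_PM.1 hM).1 e he)
    have := (hw e (hsub h1)).1
    linarith
  -- the expected number of pairs of `E`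
  have hB : ∀ e ∈ ((V \ c).powersetCard 2).filter (fun e => e ∈ E),
      w e * Z ((V \ c) \ e) w * ((V.card : ℝ) - 3) ≤ 16 * Z (V \ c) w := by
    intro e he
    have h1 := (near_uniform hκ (by norm_num : (0 : ℝ) < 1 / 4) (fun e he => hw1 e (hsub he))
      (mem_filter.1 he).1).2
    rw [hcardR] at h1
    have h2 : (V.card : ℝ) - 2 - 1 = V.card - 3 := by ring
    rw [h2] at h1
    linarith
  have hsum : (∑ M ∈ PM (V \ c), wt w M * ((M.filter fun e => e ∈ E).card : ℝ)) *
      ((V.card : ℝ) - 3) ≤ E.card * (16 * Z (V \ c) w) := by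
    rw [sum_card_inter, sum_mul]
    refine (sum_le_sum hB).trans ?_
    rw [sum_const, nsmul_eq_mul]
    refine mul_le_mul_of_nonneg_right ?_ (by positivity)
    exact_mod_cast card_le_card fun e he => (mem_filter.1 he).2
  have hlow : Z (V \ c) w - p' * ∑ M ∈ PM (V \ c), wt w M * ((M.filter fun e => e ∈ E).card : ℝ) ≤
      Z (V \ c) (fun e => (1 - (if e ∈ E then p' else 0)) * w e) := by
    unfold Z
    rw [mul_sum, ← sum_sub_distrib]
    refine sum_le_sum fun M hM => ?_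
    rw [Single_wt]
    have h1 := one_add_mul_le_pow (a := -p') (by linarith) (M.filter fun e => e ∈ E).card
    have h2 : (1 + -p') = 1 - p' := by ring
    rw [h2] at h1
    have h3 := mul_le_mul_of_nonneg_left h1 (hwt M hM)
    linarith
  have hhalf : Z (V \ c) w ≤ 2 * Z (V \ c) (fun e => (1 - (if e ∈ E then p' else 0)) * w e) := by
    have hpos : (0 : ℝ) < V.card - 3 := by linarith
    generalize (∑ M ∈ PM (V \ c), wt w M * ((M.filter fun e => e ∈ E).card : ℝ)) = Y at hsum hlow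
    have h1 : p' * Y ≤ 1 / 2 * Z (V \ c) w := by
      have h2 : (p' * Y) * ((V.card : ℝ) - 3) ≤ (1 / 2 * Z (V \ c) w) * ((V.card : ℝ) - 3) := by
        have h3 := mul_le_mul_of_nonneg_left hsum hp0
        have h4 := mul_le_mul_of_nonneg_right hp hZ'
        linarith
      exact le_of_mul_le_mul_right h2 hpos
    linarith
  generalize Z (V \ c) (fun e => (1 - (if e ∈ E then p' else 0)) * w e) = Y at hhalf ⊢
  have h1 : Z V w ≤ 32 * ((V.card : ℝ) - 1) * (w c * Y) := by
    have h2 : Z V w ≤ 16 * (w c * Z (V \ c) w * ((V.card : ℝ) - 1)) := by linarith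
    have h3 : w c * Z (V \ c) w * ((V.card : ℝ) - 1) ≤ w c * (2 * Y) * ((V.card : ℝ) - 1) :=
      mul_le_mul_of_nonneg_right (mul_le_mul_of_nonneg_left hhalf hwc) (by linarith)
    linarith
  have h2 := mul_le_mul_of_nonneg_left h1 hp0
  linarith

end Pool.Agent.RSW
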